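import Pool.Agent.LMS.St

/-!
# LMS, module Abl: Abel summation with a monotone weight
-/

set_option autoImplicit false

namespace Pool.Agent.LMS

open Finset

private theorem abl_key (M N : ℕ) (w : ℕ → ℝ) (z : ℕ → ℂ) (G σ : ℝ) (hσ : |σ| = 1)
    (hz : ∀ j, M ≤ j → j ≤ N → ‖∑ m ∈ Ico M j, z m‖ ≤ G)
    (hw : ∀ m, M ≤ m → m + 1 < N → 0 ≤ σ * (w m - w (m + 1))) :
    ∀ k, M + k < N → ‖∑ m ∈ Ico M (M + k + 1), (w m : ℂ) * z m -
      (w (M + k) : ℂ) * ∑ m ∈ Ico M (M + k + 1), z m‖ ≤ σ * (w M - w (M + k)) * G := by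
  intro k
  induction k with
  | zero =>
    intro _
    simp
  | succ k ih =>
    intro hk
    have h1 := ih (by omega)
    have h2 := hw (M + k) (by omega) (by omega)
    have h3 := hz (M + k + 1) (by omega) (by omega)
    have e : ∑ m ∈ Ico M (M + (k + 1) + 1), (w m : ℂ) * z m -
        (w (M + (k + 1)) : ℂ) * ∑ m ∈ Ico M (M + (k + 1) + 1), z m =
        (∑ m ∈ Ico M (M + k + 1), (w m : ℂ) * z m -
          (w (M + k) : ℂ) * ∑ m ∈ Ico M (M + k + 1), z m) +
        ((w (M + k) : ℂ) - (w (M + k + 1) : ℂ)) * ∑ m ∈ Ico M (M + k + 1), z m := by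
      have s1 : ∀ f : ℕ → ℂ, ∑ m ∈ Ico M (M + k + 1 + 1), f m =
          ∑ m ∈ Ico M (M + k + 1), f m + f (M + k + 1) :=
        fun f => Finset.sum_Ico_succ_top (by omega) f
      rw [show M + (k + 1) = M + k + 1 by omega, s1 (fun m => (w m : ℂ) * z m), s1 z]
      ring
    rw [e]
    refine (norm_add_le _ _).trans ?_
    rw [norm_mul]
    have h4 : ‖((w (M + k) : ℂ) - (w (M + k + 1) : ℂ))‖ = σ * (w (M + k) - w (M + k + 1)) := by
      rw [← Complex.ofReal_sub, Complex.norm_real, Real.norm_eq_abs]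
      rw [← abs_of_nonneg h2, abs_mul, hσ, one_mul]
    rw [h4]
    have h5 := mul_le_mul_of_nonneg_left h3 h2
    have h6 : σ * (w M - w (M + (k + 1))) * G = σ * (w M - w (M + k)) * G +
        σ * (w (M + k) - w (M + k + 1)) * G := by
      rw [show M + (k + 1) = M + k + 1 by omega]
      ring
    rw [h6]
    exact add_le_add h1 h5

theorem thm_Abl : St_Abl := by
  intro M N w z W G hG hw hz hm
  have hW : W ≤ max W 0 := le_max_left _ _
  have hW0 : 0 ≤ max W 0 := le_max_right _ _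
  rcases Nat.lt_or_ge M N with h | h
  · obtain ⟨k, hk⟩ : ∃ k, N = M + k + 1 := ⟨N - M - 1, by omega⟩
    have hlast := hw (M + k) (by omega) (by omega)
    have hfirst := hw M le_rfl h
    have hS := hz N (by omega) le_rfl
    have hlw : ‖((w (M + k) : ℝ) : ℂ) * ∑ m ∈ Ico M N, z m‖ ≤ w (M + k) * G := by
      rw [norm_mul, Complex.norm_real, Real.norm_eq_abs, abs_of_nonneg hlast.1]
      exact mul_le_mul_of_nonneg_left hS hlast.1
    have htri : ∀ T : ℝ, ‖∑ m ∈ Ico M N, (w m : ℂ) * z m -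
        (w (M + k) : ℂ) * ∑ m ∈ Ico M N, z m‖ ≤ T →
        ‖∑ m ∈ Ico M N, (w m : ℂ) * z m‖ ≤ T + w (M + k) * G := by
      intro T hT
      have e : ∑ m ∈ Ico M N, (w m : ℂ) * z m = (∑ m ∈ Ico M N, (w m : ℂ) * z m -
        (w (M + k) : ℂ) * ∑ m ∈ Ico M N, z m) + (w (M + k) : ℂ) * ∑ m ∈ Ico M N, z m := by ring
      rw [e]
      exact (norm_add_le _ _).trans (add_le_add hT hlw)
    rcases hm with hm | hm
    · have h1 := abl_key M N w z G 1 (by simp) hz
        (fun m h1 h2 => by have := hm m h1 h2; linarith) k (by omega)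
      rw [← hk] at h1
      refine (htri _ h1).trans ?_
      have h2 : 1 * (w M - w (M + k)) * G + w (M + k) * G = w M * G := by ring
      rw [h2]
      have h3 := mul_le_mul_of_nonneg_right (hfirst.2.trans hW) hG
      nlinarith [mul_nonneg hW0 hG]
    · have h1 := abl_key M N w z G (-1) (by simp) hz
        (fun m h1 h2 => by have := hm m h1 h2; linarith) k (by omega)
      rw [← hk] at h1
      refine (htri _ h1).trans ?_
      have h3 := mul_le_mul_of_nonneg_right (hlast.2.trans hW) hG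
      have h4 := mul_nonneg hfirst.1 hG
      nlinarith
  · rw [Finset.Ico_eq_empty_of_le h, Finset.sum_empty, norm_zero]
    exact mul_nonneg (mul_nonneg zero_le_two hW0) hG

end Pool.Agent.LMS
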