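import Pool.Agent.LMS.St
import Pool.Agent.GBQ.Bridge
import Pool.Agent.SI.Cof

set_option autoImplicit false

/-!
# LMS: products of factors with a factor of medium size
-/

namespace Pool.Agent.LMS

open Finset
open Pool.Agent.GBQ (ee nd gm)
open Pool.Agent.SI (fac cof siz)

namespace C1X

theorem gm_mono {A B : ℝ} (h : A ≤ B) (x : ℝ) : gm A x ≤ gm B x := by
  unfold gm
  split_ifs
  · exact h
  · exact min_le_min_right _ h

theorem gm_nonneg {A : ℝ} (h : 0 ≤ A) (x : ℝ) : 0 ≤ gm A x := by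
  unfold gm
  split_ifs
  · exact h
  · exact le_min h (by have : 0 ≤ nd x := abs_nonneg _; positivity)

theorem fac_supp {k Z i n : ℕ} (h : fac k Z i n ≠ 0) : 2 ^ i ≤ n ∧ n < 2 ^ (i + 1) := by
  unfold fac at h
  by_contra hcon
  exact h (if_neg hcon)

theorem fac_le (k Z i n : ℕ) : |fac k Z i n| ≤ i + 1 := by
  have hi : (0 : ℝ) ≤ i := Nat.cast_nonneg i
  unfold fac
  split_ifs with h1 h2 h3 h4
  · rw [abs_one]
    linarith
  · have hn : (1 : ℝ) ≤ n := by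
      have : 1 ≤ n := le_trans (Nat.one_le_two_pow) h1.1
      exact_mod_cast this
    rw [abs_of_nonneg (Real.log_nonneg hn)]
    have h4 : Real.log n ≤ Real.log ((2 : ℝ) ^ (i + 1)) := by
      refine Real.log_le_log (by linarith) ?_
      exact_mod_cast h1.2.le
    rw [Real.log_pow] at h4
    have h5 := Real.log_two_lt_d9
    push_cast at h4
    nlinarith
  · have h5 : |((ArithmeticFunction.moebius n : ℤ) : ℝ)| ≤ 1 := by
      have := ArithmeticFunction.abs_moebius_le_one (n := n)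
      rw [← Int.cast_abs]
      exact_mod_cast this
    linarith
  · rw [abs_zero]
    linarith
  · rw [abs_zero]
    linarith

theorem fac_sq (k Z i : ℕ) : ∑ n ∈ Ico (2 ^ i) (2 * 2 ^ i), fac k Z i n ^ 2 ≤
    2 ^ i * ((i : ℝ) + 1) ^ 2 := by
  have h1 : ∀ n ∈ Ico (2 ^ i) (2 * 2 ^ i), fac k Z i n ^ 2 ≤ ((i : ℝ) + 1) ^ 2 := by
    intro n _
    rw [← sq_abs]
    exact pow_le_pow_left₀ (abs_nonneg _) (fac_le k Z i n) 2
  refine (Finset.sum_le_sum h1).trans (le_of_eq ?_)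
  rw [Finset.sum_const, Nat.card_Ico, nsmul_eq_mul]
  have h2 : 2 * 2 ^ i - 2 ^ i = 2 ^ i := by omega
  rw [h2]
  push_cast
  rfl

end C1X

open C1X in
theorem thm_C1 (hT2 : St_T2) (hPer : St_Per) : St_C1 := by
  obtain ⟨-, hcof2, C₀, hC₀⟩ := Pool.Agent.SI.thm_Cof
  obtain ⟨C₁, hC₁⟩ := Pool.Agent.GBQ.thm_TypeI
  refine ⟨C₀ * (1 + 4 * C₁) + C₀ + 2, ?_⟩
  intro Z l k i K X α a q hl8 hmem hK hq hqK hgcd hα
  set l' := l.erase (k, i) with hl'
  have hperm : l.Perm ((k, i) :: l') := List.perm_cons_erase hmem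
  have hlen : l'.length ≤ 8 := (List.length_erase_le).trans hl8
  have hsiz : siz l = i + siz l' := by
    unfold siz
    rw [(hperm.map Prod.snd).sum_eq]
    rfl
  have hcv : cof Z l = cv (fac k Z i) (cof Z l') := by
    funext n
    rw [hPer Z l _ hperm n]
    rfl
  have hM1 : 1 ≤ 2 ^ i := Nat.one_le_two_pow
  have hT := hT2 (fac k Z i) (cof Z l') (2 ^ i) (2 ^ (siz l' + l'.length)) K X α hM1 (by omega)
    (fun n hn => by
      have h := fac_supp hn
      rw [pow_succ] at h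
      exact ⟨h.1, by omega⟩)
    (fun n hn => by
      have h := hcof2 Z l' n hn
      exact ⟨le_trans Nat.one_le_two_pow h.1, h.2⟩)
  rw [← hcv] at hT
  have hb := (hC₀ Z l' hlen).1
  have hKr : (3 : ℝ) ≤ K := by exact_mod_cast hK
  have hlog : 1 ≤ Real.log K := Pool.Agent.GBQ.bridge_log hK
  have hq0 : (0 : ℝ) < q := by exact_mod_cast hq
  obtain ⟨M, hM⟩ : ∃ M : ℕ, M = 2 ^ i := ⟨_, rfl⟩
  have hMr : (M : ℝ) = (2 : ℝ) ^ i := by rw [hM]; push_cast; rfl
  have hM0 : (0 : ℝ) < M := by rw [hMr]; positivity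
  have hgm : ∑ d ∈ Icc 1 (K / M), gm (M : ℝ) (α * d) ≤
      C₁ * ((K : ℝ) / q + K / M + q) * Real.log K := by
    rcases Nat.lt_or_ge K M with h | h
    · rw [Nat.div_eq_of_lt h]
      simp only [Finset.Icc_eq_empty_of_lt (Nat.lt_one_iff.2 rfl), Finset.sum_empty]
      positivity
    · have hD1 : 1 ≤ K / M := by
        rw [Nat.one_le_div_iff (by rw [hM]; positivity)]
        exact h
      have h1 := hC₁ K (K / M) α a q hK hD1 (Nat.div_le_self _ _) hq hqK hgcd hα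
      have h2 : ∑ d ∈ Icc 1 (K / M), gm (M : ℝ) (α * d) ≤
          ∑ d ∈ Icc 1 (K / M), gm ((K : ℝ) / d) (α * d) := by
        refine Finset.sum_le_sum fun d hd => gm_mono ?_ _
        obtain ⟨h3, h4⟩ := Finset.mem_Icc.1 hd
        have h5 : d * M ≤ K := (Nat.le_div_iff_mul_le (by rw [hM]; positivity)).1 h4
        have h6 : (0 : ℝ) < d := by exact_mod_cast h3
        rw [le_div_iff₀ h6, mul_comm]
        exact_mod_cast h5
      refine h2.trans (h1.trans ?_)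
      have h3 : ((K / M : ℕ) : ℝ) ≤ (K : ℝ) / M := Nat.cast_div_le
      gcongr
  rw [← hM] at hT
  have hS0 : 0 ≤ ∑ d ∈ Icc 1 (K / M), gm (M : ℝ) (α * d) :=
    Finset.sum_nonneg fun d _ => gm_nonneg hM0.le _
  have hfac := fac_sq k Z i
  rw [← hM, ← hMr] at hfac
  set S : ℝ := 1 + (siz l : ℝ) with hS
  have hSi : (siz l : ℝ) = i + siz l' := by rw [hsiz]; push_cast; rfl
  have hi0 : (0 : ℝ) ≤ i := Nat.cast_nonneg i
  have hs0 : (0 : ℝ) ≤ siz l' := Nat.cast_nonneg _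
  have hS1 : 1 ≤ S := by rw [hS, hSi]; linarith
  have hprod : (∑ n ∈ Ico M (2 * M), fac k Z i n ^ 2) *
      (∑ n ∈ Icc 1 (2 ^ (siz l' + l'.length)), cof Z l' n ^ 2) ≤
      C₀ * 2 ^ siz l * S ^ (C₀ + 2) := by
    have h1 : ((i : ℝ) + 1) ^ 2 ≤ S ^ 2 := by
      refine pow_le_pow_left₀ (by linarith) ?_ 2
      rw [hS, hSi]
      linarith
    have h2 : (1 + (siz l' : ℝ)) ^ C₀ ≤ S ^ C₀ := by
      refine pow_le_pow_left₀ (by linarith) ?_ C₀
      rw [hS, hSi]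
      linarith
    calc (∑ n ∈ Ico M (2 * M), fac k Z i n ^ 2) *
        (∑ n ∈ Icc 1 (2 ^ (siz l' + l'.length)), cof Z l' n ^ 2)
        ≤ (M * ((i : ℝ) + 1) ^ 2) * (C₀ * 2 ^ siz l' * (1 + (siz l' : ℝ)) ^ C₀) :=
          mul_le_mul hfac hb (Finset.sum_nonneg fun _ _ => sq_nonneg _) (by positivity)
      _ ≤ (M * S ^ 2) * (C₀ * 2 ^ siz l' * S ^ C₀) := by gcongr
      _ = C₀ * 2 ^ siz l * S ^ (C₀ + 2) := by
          rw [hsiz, pow_add 2 i, hMr, pow_add]
          ring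
  have hbr : (M : ℝ) + 4 * ∑ d ∈ Icc 1 (K / M), gm (M : ℝ) (α * d) ≤
      (1 + 4 * C₁) * ((M : ℝ) + K / q + K / M + q) * (1 + Real.log K) := by
    have h1 : (0 : ℝ) ≤ C₁ := Nat.cast_nonneg _
    have h2 : 0 ≤ (K : ℝ) / q + K / M + q := by positivity
    have h3 : (M : ℝ) ≤ ((M : ℝ) + K / q + K / M + q) * (1 + Real.log K) := by
      have h4 : (M : ℝ) ≤ (M : ℝ) + K / q + K / M + q := by linarith
      have h5 : (M : ℝ) + K / q + K / M + q ≤ ((M : ℝ) + K / q + K / M + q) * (1 + Real.log K) :=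
        le_mul_of_one_le_right (by positivity) (by linarith)
      linarith
    have h6 : C₁ * ((K : ℝ) / q + K / M + q) * Real.log K ≤
        C₁ * (((M : ℝ) + K / q + K / M + q) * (1 + Real.log K)) := by
      rw [mul_assoc]
      refine mul_le_mul_of_nonneg_left ?_ h1
      exact mul_le_mul (by linarith) (by linarith) (by linarith) (by positivity)
    calc (M : ℝ) + 4 * ∑ d ∈ Icc 1 (K / M), gm (M : ℝ) (α * d)
        ≤ ((M : ℝ) + K / q + K / M + q) * (1 + Real.log K) +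
          4 * (C₁ * (((M : ℝ) + K / q + K / M + q) * (1 + Real.log K))) := by
          linarith [hgm.trans h6]
      _ = (1 + 4 * C₁) * ((M : ℝ) + K / q + K / M + q) * (1 + Real.log K) := by ring
  have hfin : ms (cof Z l) α K X ≤ C₀ * 2 ^ siz l * S ^ (C₀ + 2) * K *
      ((1 + 4 * C₁) * ((M : ℝ) + K / q + K / M + q) * (1 + Real.log K)) := by
    refine hT.trans ?_
    gcongr
  refine hfin.trans ?_
  rw [← hMr]
  have hexp : S ^ (C₀ + 2) ≤ S ^ (C₀ * (1 + 4 * C₁) + C₀ + 2) :=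
    pow_le_pow_right₀ hS1 (by omega)
  have hcon : (C₀ : ℝ) * (1 + 4 * C₁) ≤ ((C₀ * (1 + 4 * C₁) + C₀ + 2 : ℕ) : ℝ) := by
    push_cast
    have : (0 : ℝ) ≤ C₀ := Nat.cast_nonneg _
    linarith
  have hB0 : 0 ≤ (M : ℝ) + K / q + K / M + q := by positivity
  calc C₀ * 2 ^ siz l * S ^ (C₀ + 2) * K *
        ((1 + 4 * C₁) * ((M : ℝ) + K / q + K / M + q) * (1 + Real.log K))
      = (C₀ * (1 + 4 * C₁)) * 2 ^ siz l * S ^ (C₀ + 2) * K *
        ((M : ℝ) + K / q + K / M + q) * (1 + Real.log K) := by ring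
    _ ≤ ((C₀ * (1 + 4 * C₁) + C₀ + 2 : ℕ) : ℝ) * 2 ^ siz l *
        S ^ (C₀ * (1 + 4 * C₁) + C₀ + 2) * K *
        ((M : ℝ) + K / q + K / M + q) * (1 + Real.log K) := by gcongr

end Pool.Agent.LMS
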