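import Pool.Agent.LMS.St
import Pool.Agent.SI.Cof

/-!
# LMS: case (II), one large smooth factor
-/

set_option autoImplicit false

namespace Pool.Agent.LMS

open Finset
open Pool.Agent.GBQ (ee nd gm lam LamS rho pr Rough)
open Pool.Agent.SI (fac cof siz)

theorem thm_C2 (h1 : St_T1) (h2 : St_Per) : St_C2 := by
  obtain ⟨-, hsup, C0, hC0⟩ := Pool.Agent.SI.thm_Cof
  refine ⟨4 * C0 ^ 2 + (2 * C0 + 2), ?_⟩
  intro Z l k i K X α a q hlen hmem hk hq hD hg hα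
  set l' := l.erase (k, i) with hl'
  have hperm : l.Perm ((k, i) :: l') := List.perm_cons_erase hmem
  have hsz : siz l = i + siz l' := by
    have e1 := (hperm.map Prod.snd).sum_eq
    simpa [siz] using e1
  have hln : l.length = l'.length + 1 := by
    have e1 := hperm.length_eq
    simpa using e1
  have hcof : cof Z l = cv (fac k Z i) (cof Z l') := by
    funext n
    rw [h2 Z l ((k, i) :: l') hperm n]
    rfl
  have hsi : siz l - i = siz l' := by omega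
  rw [hsi] at hD ⊢
  have hD' : 2 * 2 ^ (siz l' + l'.length) ≤ q := by
    refine le_trans ?_ hD
    have e1 : 2 ^ (siz l' + l'.length) ≤ 2 ^ (siz l' + 8) :=
      Nat.pow_le_pow_right (by norm_num) (by omega)
    omega
  have hb : ∀ n, cof Z l' n ≠ 0 → 1 ≤ n ∧ n ≤ 2 ^ (siz l' + l'.length) := by
    intro n hn
    obtain ⟨e1, e2⟩ := hsup Z l' n hn
    exact ⟨le_trans Nat.one_le_two_pow e1, e2⟩
  have hS := (hC0 Z l' (by omega)).2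
  set S : ℝ := ∑ d ∈ Icc 1 (2 ^ (siz l' + l'.length)), |cof Z l' d| with hSdef
  have hS0 : 0 ≤ S := Finset.sum_nonneg (fun _ _ => abs_nonneg _)
  have hsz' : (0 : ℝ) ≤ (siz l' : ℝ) := Nat.cast_nonneg _
  have hi' : (0 : ℝ) ≤ (i : ℝ) := Nat.cast_nonneg _
  have hszr : (siz l : ℝ) = i + siz l' := by rw [hsz]; push_cast; ring
  have hw : ∀ x, ‖ws (cof Z l) α K x‖ ^ 2 ≤
      4 * (C0 : ℝ) ^ 2 * (1 + (siz l : ℝ)) ^ (2 * C0 + 2) * (2 ^ siz l') ^ 2 * (q : ℝ) ^ 2 := by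
    intro x
    have e1 : ‖ws (cof Z l) α K x‖ ≤ 2 * (i + 1) * q * S := by
      rw [hcof]
      exact h1 (cof Z l') Z k i (2 ^ (siz l' + l'.length)) K x α a q hk hq hD' hg hα hb
    have e2 : 2 * ((i : ℝ) + 1) * q * S ≤
        2 * (1 + (siz l : ℝ)) * q * (C0 * 2 ^ siz l' * (1 + (siz l : ℝ)) ^ C0) := by
      have f1 : S ≤ C0 * 2 ^ siz l' * (1 + (siz l : ℝ)) ^ C0 := by
        refine le_trans hS ?_
        have f2 : (1 + (siz l' : ℝ)) ^ C0 ≤ (1 + (siz l : ℝ)) ^ C0 :=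
          pow_le_pow_left₀ (by linarith) (by rw [hszr]; linarith) C0
        exact mul_le_mul_of_nonneg_left f2 (by positivity)
      have f3 : 2 * ((i : ℝ) + 1) * q ≤ 2 * (1 + (siz l : ℝ)) * q := by
        have f4 : (i : ℝ) + 1 ≤ 1 + (siz l : ℝ) := by rw [hszr]; linarith
        have f5 : (0 : ℝ) ≤ q := Nat.cast_nonneg _
        nlinarith
      exact mul_le_mul f3 f1 hS0 (by positivity)
    have e3 : ‖ws (cof Z l) α K x‖ ^ 2 ≤
        (2 * (1 + (siz l : ℝ)) * q * (C0 * 2 ^ siz l' * (1 + (siz l : ℝ)) ^ C0)) ^ 2 :=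
      pow_le_pow_left₀ (norm_nonneg _) (le_trans e1 e2) 2
    refine le_trans e3 (le_of_eq ?_)
    have e4 : (1 + (siz l : ℝ)) ^ (2 * C0 + 2) =
        ((1 + (siz l : ℝ)) ^ C0) ^ 2 * (1 + (siz l : ℝ)) ^ 2 := by
      rw [← pow_mul, ← pow_add, mul_comm C0 2]
    rw [e4]
    generalize (1 + (siz l : ℝ)) ^ C0 = u
    ring
  have hsum : ms (cof Z l) α K X ≤ X * (4 * (C0 : ℝ) ^ 2 * (1 + (siz l : ℝ)) ^ (2 * C0 + 2) *
      (2 ^ siz l') ^ 2 * (q : ℝ) ^ 2) := by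
    unfold ms
    refine le_trans (Finset.sum_le_card_nsmul _ _ _ (fun x _ => hw x)) (le_of_eq ?_)
    rw [Nat.card_Ioc, nsmul_eq_mul]
    congr 2
    omega
  refine le_trans hsum ?_
  have g1 : (1 + (siz l : ℝ)) ^ (2 * C0 + 2) ≤ (1 + (siz l : ℝ)) ^ (4 * C0 ^ 2 + (2 * C0 + 2)) := by
    apply pow_le_pow_right₀
    · rw [hszr]; linarith
    · omega
  have g2 : (4 : ℝ) * (C0 : ℝ) ^ 2 ≤ ((4 * C0 ^ 2 + (2 * C0 + 2) : ℕ) : ℝ) := by
    push_cast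
    have : (0 : ℝ) ≤ (C0 : ℝ) := Nat.cast_nonneg _
    linarith
  have g3 : (4 : ℝ) * (C0 : ℝ) ^ 2 * (1 + (siz l : ℝ)) ^ (2 * C0 + 2) ≤
      ((4 * C0 ^ 2 + (2 * C0 + 2) : ℕ) : ℝ) * (1 + (siz l : ℝ)) ^ (4 * C0 ^ 2 + (2 * C0 + 2)) :=
    mul_le_mul g2 g1 (by positivity) (by positivity)
  have g4 : (0 : ℝ) ≤ X * ((2 ^ siz l') ^ 2 * (q : ℝ) ^ 2) := by positivity
  calc (X : ℝ) * (4 * (C0 : ℝ) ^ 2 * (1 + (siz l : ℝ)) ^ (2 * C0 + 2) *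
      (2 ^ siz l') ^ 2 * (q : ℝ) ^ 2)
      = (4 * (C0 : ℝ) ^ 2 * (1 + (siz l : ℝ)) ^ (2 * C0 + 2)) *
        (X * ((2 ^ siz l') ^ 2 * (q : ℝ) ^ 2)) := by ring
    _ ≤ (((4 * C0 ^ 2 + (2 * C0 + 2) : ℕ) : ℝ) *
        (1 + (siz l : ℝ)) ^ (4 * C0 ^ 2 + (2 * C0 + 2))) *
        (X * ((2 ^ siz l') ^ 2 * (q : ℝ) ^ 2)) := mul_le_mul_of_nonneg_right g3 g4
    _ = _ := by ring

end Pool.Agent.LMS
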