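import Pool.Agent.LMS.St
import Pool.Agent.SI.Cof

/-!
# LMS, module C3: two big smooth factors and a small rest

`cof Z l` is written as `cv (cof Z l') (cv (fac k1 Z i1) (fac k2 Z i2))`, `St_T3` does the rest.
-/

set_option autoImplicit false

namespace Pool.Agent.LMS

open Finset
open Pool.Agent.SI (fac cof siz)

namespace C3X

/-- the arithmetic function given by the values at `n ≥ 1` -/
private noncomputable def af (a : ℕ → ℝ) : ArithmeticFunction ℝ :=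
  ⟨fun n => if n = 0 then 0 else a n, by simp⟩

private theorem af_apply (a : ℕ → ℝ) (n : ℕ) (hn : n ≠ 0) : af a n = a n := by
  change (if n = 0 then 0 else a n) = a n
  rw [if_neg hn]

private theorem cv_eq (a b : ℕ → ℝ) (n : ℕ) : cv a b n = (af a * af b) n := by
  rw [ArithmeticFunction.mul_apply]
  unfold cv
  rw [← Nat.sum_divisorsAntidiagonal (f := fun x y => a x * b y)]
  refine Finset.sum_congr rfl ?_
  intro p hp
  rw [Nat.mem_divisorsAntidiagonal] at hp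
  have h1 : p.1 ≠ 0 := by
    intro h
    apply hp.2
    rw [← hp.1, h, zero_mul]
  have h2 : p.2 ≠ 0 := by
    intro h
    apply hp.2
    rw [← hp.1, h, mul_zero]
  rw [af_apply a _ h1, af_apply b _ h2]

private theorem af_cv (a b : ℕ → ℝ) : af (cv a b) = af a * af b := by
  ext n
  by_cases hn : n = 0
  · subst hn
    simp
  · rw [af_apply _ _ hn, cv_eq]

/-- associativity and commutativity -/
private theorem cv_rot (a b c : ℕ → ℝ) : cv a (cv b c) = cv c (cv a b) := by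
  funext n
  rw [cv_eq, cv_eq, af_cv, af_cv]
  congr 1
  ring

private theorem siz_perm {l l' : List (ℕ × ℕ)} (h : l.Perm l') : siz l = siz l' := by
  unfold siz
  exact (h.map Prod.snd).sum_eq

/-- `cof` as a product of three functions -/
private theorem cof_split (hP : St_Per) (Z k1 i1 k2 i2 : ℕ) (l : List (ℕ × ℕ))
    (h1 : (k1, i1) ∈ l) (h2 : (k2, i2) ∈ l.erase (k1, i1)) :
    cof Z l = cv (cof Z ((l.erase (k1, i1)).erase (k2, i2)))
      (cv (fac k1 Z i1) (fac k2 Z i2)) := by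
  have hp : l.Perm ((k1, i1) :: (k2, i2) :: (l.erase (k1, i1)).erase (k2, i2)) :=
    (List.perm_cons_erase h1).trans ((List.perm_cons_erase h2).cons _)
  rw [← cv_rot]
  funext n
  rw [hP Z _ _ hp n]
  rfl

end C3X

open C3X in
/-- case (III): two big smooth factors -/
theorem thm_C3 (hT : St_T3) (hP : St_Per) : St_C3 := by
  obtain ⟨C1, hT⟩ := hT
  obtain ⟨-, hsupp, C2, hsum⟩ := Pool.Agent.SI.thm_Cof
  refine ⟨C1 * C2 + C1 + C2, ?_⟩
  intro Z l k1 i1 k2 i2 J R0 K X D α a q hlen hm1 hm2 hk1 hk2 hD hJ hR hK hq1 hq2 hq3 hg hα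
  set l' := (l.erase (k1, i1)).erase (k2, i2) with hl'
  have hp : l.Perm ((k1, i1) :: (k2, i2) :: l') :=
    (List.perm_cons_erase hm1).trans ((List.perm_cons_erase hm2).cons _)
  have hs : siz l = i1 + (i2 + siz l') := by
    rw [siz_perm hp]
    simp [siz]
  have hn : l.length = l'.length + 1 + 1 := by
    rw [hp.length_eq]
    rfl
  have hn8 : l'.length ≤ 8 := by omega
  have hD1 : 2 ^ (siz l' + l'.length) ≤ D := by
    refine le_trans (Nat.pow_le_pow_right (by norm_num) ?_) hD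
    omega
  have hD0 : 1 ≤ D := le_trans Nat.one_le_two_pow hD1
  have hb : ∀ n, cof Z l' n ≠ 0 → 1 ≤ n ∧ n ≤ D := by
    intro n h
    have := hsupp Z l' n h
    exact ⟨le_trans Nat.one_le_two_pow this.1, this.2.trans hD1⟩
  rw [cof_split hP Z k1 i1 k2 i2 l hm1 hm2]
  have key := hT (cof Z l') Z k1 k2 i1 i2 D J R0 K X α a q hk1 hk2 hD0 hJ hR hK hq1 hq2 hq3 hg hα hb
  refine key.trans ?_
  -- the sum of the squares
  have hsq : ∑ d ∈ Icc 1 D, cof Z l' d ^ 2 ≤ C2 * D * (1 + (siz l : ℝ)) ^ C2 := by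
    have e1 : ∑ d ∈ Icc 1 (2 ^ (siz l' + l'.length)), cof Z l' d ^ 2 =
        ∑ d ∈ Icc 1 D, cof Z l' d ^ 2 := by
      refine Finset.sum_subset (Finset.Icc_subset_Icc_right hD1) ?_
      intro d hd hd'
      rw [Finset.mem_Icc] at hd hd'
      by_contra hne
      have h0 : cof Z l' d ≠ 0 := by
        intro h
        apply hne
        rw [h]
        norm_num
      exact hd' ⟨hd.1, (hsupp Z l' d h0).2⟩
    rw [← e1]
    refine ((hsum Z l' hn8).1).trans ?_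
    have e2 : (2 : ℝ) ^ siz l' ≤ D := by
      have : 2 ^ siz l' ≤ D := le_trans (Nat.pow_le_pow_right (by norm_num) (Nat.le_add_right _ _)) hD1
      exact_mod_cast this
    have e3 : (1 + (siz l' : ℝ)) ≤ 1 + (siz l : ℝ) := by
      have : siz l' ≤ siz l := by omega
      have : (siz l' : ℝ) ≤ siz l := by exact_mod_cast this
      linarith
    have e4 : (1 + (siz l' : ℝ)) ^ C2 ≤ (1 + (siz l : ℝ)) ^ C2 :=
      pow_le_pow_left₀ (by positivity) e3 _
    gcongr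
  have hi : (1 + (i1 : ℝ) + i2) ≤ 1 + (siz l : ℝ) := by
    have : i1 + i2 ≤ siz l := by omega
    have : (i1 : ℝ) + i2 ≤ siz l := by exact_mod_cast this
    linarith
  have hi' : (1 + (i1 : ℝ) + i2) ^ C1 ≤ (1 + (siz l : ℝ)) ^ C1 :=
    pow_le_pow_left₀ (by positivity) hi _
  have hDr : (1 : ℝ) ≤ D := by exact_mod_cast hD0
  have hKr : (0 : ℝ) < K := by exact_mod_cast hK
  have hJr : (0 : ℝ) < J := by exact_mod_cast hJ
  have hRr : (0 : ℝ) < R0 := by exact_mod_cast hR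
  have hbr : (2 : ℝ) ^ (i1 + i2) / R0 + 2 ^ (i1 + i2) * (D * J) / K +
      D * J * 2 ^ (2 * i1) / K + 2 ^ (i1 + i2) / (J : ℝ) ^ 2 ≤
      D * (2 ^ (i1 + i2) / R0 + 2 ^ (i1 + i2) * J / K + J * 2 ^ (2 * i1) / K +
      2 ^ (i1 + i2) / (J : ℝ) ^ 2) := by
    have a1 : (2 : ℝ) ^ (i1 + i2) / R0 ≤ D * (2 ^ (i1 + i2) / R0) :=
      le_mul_of_one_le_left (by positivity) hDr
    have a2 : (2 : ℝ) ^ (i1 + i2) / (J : ℝ) ^ 2 ≤ D * (2 ^ (i1 + i2) / (J : ℝ) ^ 2) :=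
      le_mul_of_one_le_left (by positivity) hDr
    have a3 : (2 : ℝ) ^ (i1 + i2) * (D * J) / K = D * (2 ^ (i1 + i2) * J / K) := by ring
    have a4 : (D : ℝ) * J * 2 ^ (2 * i1) / K = D * (J * 2 ^ (2 * i1) / K) := by ring
    rw [a3, a4]
    linarith
  set Br : ℝ := 2 ^ (i1 + i2) / R0 + 2 ^ (i1 + i2) * J / K + J * 2 ^ (2 * i1) / K +
      2 ^ (i1 + i2) / (J : ℝ) ^ 2 with hBr
  have hBr0 : 0 ≤ Br := by positivity
  have hsq0 : (0 : ℝ) ≤ ∑ d ∈ Icc 1 D, cof Z l' d ^ 2 := Finset.sum_nonneg (fun d _ => sq_nonneg _)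
  have hS1 : (1 : ℝ) ≤ 1 + (siz l : ℝ) := by
    have : (0 : ℝ) ≤ siz l := Nat.cast_nonneg _
    linarith
  calc (C1 : ℝ) * (∑ d ∈ Icc 1 D, cof Z l' d ^ 2) * D *
        (1 + (i1 : ℝ) + i2) ^ C1 * (K : ℝ) ^ 2 * (2 ^ (i1 + i2) / R0 + 2 ^ (i1 + i2) * (D * J) / K +
          D * J * 2 ^ (2 * i1) / K + 2 ^ (i1 + i2) / (J : ℝ) ^ 2)
      ≤ (C1 : ℝ) * (C2 * D * (1 + (siz l : ℝ)) ^ C2) * D * (1 + (siz l : ℝ)) ^ C1 * (K : ℝ) ^ 2 *
          (D * Br) := by gcongr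
    _ = ((C1 * C2 : ℕ) : ℝ) * (D : ℝ) ^ 3 * (1 + (siz l : ℝ)) ^ (C1 + C2) * (K : ℝ) ^ 2 * Br := by
        rw [pow_add]
        push_cast
        ring
    _ ≤ ((C1 * C2 + C1 + C2 : ℕ) : ℝ) * (D : ℝ) ^ 3 * (1 + (siz l : ℝ)) ^ (C1 * C2 + C1 + C2) *
          (K : ℝ) ^ 2 * Br := by
        have b1 : ((C1 * C2 : ℕ) : ℝ) ≤ ((C1 * C2 + C1 + C2 : ℕ) : ℝ) := by
          have : C1 * C2 ≤ C1 * C2 + C1 + C2 := by omega
          exact_mod_cast this
        have b2 : (1 + (siz l : ℝ)) ^ (C1 + C2) ≤ (1 + (siz l : ℝ)) ^ (C1 * C2 + C1 + C2) :=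
          pow_le_pow_right₀ hS1 (by omega)
        gcongr

end Pool.Agent.LMS
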