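import Pool.Agent.LMS.St
import Pool.Agent.GBQ.Basic

/-!
# LMS, module Dil (helper26): windows of multiples
-/

set_option autoImplicit false

namespace Pool.Agent.LMS

open Finset
open Pool.Agent.GBQ (ee nd gm lam LamS rho pr Rough)

/-- the square of the norm of a sum -/
private theorem DilX_sq (s : Finset ℕ) (z : ℕ → ℂ) :
    ‖∑ l ∈ s, z l‖ ^ 2 = ∑ l ∈ s, ∑ l' ∈ s, (z l * (starRingEnd ℂ) (z l')).re := by
  have h1 : ((‖∑ l ∈ s, z l‖ ^ 2 : ℝ) : ℂ) = (∑ l ∈ s, z l) * (starRingEnd ℂ) (∑ l ∈ s, z l) := by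
    rw [Complex.mul_conj, Complex.normSq_eq_norm_sq]
  have h2 : ‖∑ l ∈ s, z l‖ ^ 2 = ((∑ l ∈ s, z l) * (starRingEnd ℂ) (∑ l ∈ s, z l)).re := by
    rw [← h1, Complex.ofReal_re]
  rw [h2, map_sum, sum_mul_sum, Complex.re_sum]
  refine sum_congr rfl fun l _ => ?_
  rw [Complex.re_sum]

/-- one product -/
private theorem DilX_ee (α : ℝ) (m l l' : ℕ) (c c' : ℝ) :
    (((c : ℂ) * ee (α * (m * l : ℕ))) * (starRingEnd ℂ) ((c' : ℂ) * ee (α * (m * l' : ℕ)))).re =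
      c * c' * (ee (α * ((m : ℝ) * ((l : ℝ) - l')))).re := by
  have h1 : ee (α * ((m : ℝ) * ((l : ℝ) - l'))) =
      ee (α * (m * l : ℕ)) * (starRingEnd ℂ) (ee (α * (m * l' : ℕ))) := by
    rw [← Pool.Agent.GBQ.ee_neg, ← Pool.Agent.GBQ.ee_add]
    congr 1
    push_cast
    ring
  rw [h1, map_mul, Complex.conj_ofReal]
  have h2 : (c : ℂ) * ee (α * (m * l : ℕ)) * ((c' : ℂ) * (starRingEnd ℂ) (ee (α * (m * l' : ℕ)))) =
      ((c * c' : ℝ) : ℂ) * (ee (α * (m * l : ℕ)) * (starRingEnd ℂ) (ee (α * (m * l' : ℕ)))) := by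
    push_cast
    ring
  rw [h2, Complex.re_ofReal_mul]

/-- the indicator of a window -/
private def DilX_chi (m K : ℕ) (x : ℤ) (l : ℕ) : Prop := x < m * l ∧ (m * l : ℤ) ≤ x + K

private instance (m K : ℕ) (x : ℤ) (l : ℕ) : Decidable (DilX_chi m K x l) :=
  inferInstanceAs (Decidable (_ ∧ _))

/-- the number of the windows which contain two given multiples -/
private theorem DilX_card (m K N l l' : ℕ) (hl : m * l ≤ N) :
    (((Ico (-(K : ℤ)) N).filter (fun x => DilX_chi m K x l ∧ DilX_chi m K x l')).card : ℝ) =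
      max 0 ((K : ℝ) - m * |(l : ℝ) - l'|) := by
  have h1 : (Ico (-(K : ℤ)) N).filter (fun x => DilX_chi m K x l ∧ DilX_chi m K x l') =
      Ico (max (m * l : ℤ) (m * l') - K) (min (m * l : ℤ) (m * l')) := by
    ext x
    simp only [mem_filter, mem_Ico, DilX_chi]
    have e1 : (0 : ℤ) ≤ m * l := by positivity
    have e2 : ((m * l : ℕ) : ℤ) ≤ N := by exact_mod_cast hl
    push_cast at e2
    constructor
    · rintro ⟨⟨-, -⟩, ⟨a1, a2⟩, ⟨a3, a4⟩⟩
      constructor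
      · rw [sub_le_iff_le_add]
        exact max_le a2 a4
      · exact lt_min a1 a3
    · rintro ⟨a1, a2⟩
      rw [sub_le_iff_le_add, max_le_iff] at a1
      rw [lt_min_iff] at a2
      exact ⟨⟨by omega, by omega⟩, ⟨a2.1, a1.1⟩, a2.2, a1.2⟩
  have h2 : (((Ico (max (m * l : ℤ) (m * l') - K) (min (m * l : ℤ) (m * l'))).card : ℤ) : ℝ) =
      max 0 ((K : ℝ) - m * |(l : ℝ) - l'|) := by
    rw [Int.card_Ico, Int.toNat_eq_max]
    have h3 : (min (m * l : ℤ) (m * l') - (max (m * l : ℤ) (m * l') - K) : ℤ) =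
        K - |(m * l : ℤ) - m * l'| := by
      rw [← max_sub_min_eq_abs']
      ring
    rw [h3]
    push_cast
    rw [max_comm, ← mul_sub, abs_mul, abs_of_nonneg (Nat.cast_nonneg m : (0 : ℝ) ≤ m)]
  rw [h1, ← h2]
  rfl

theorem thm_Dil : St_Dil := by
  intro b L m K X α hm
  obtain ⟨z, hz⟩ : ∃ z : ℕ → ℂ, z = fun l => ((b l : ℝ) : ℂ) * ee (α * (m * l : ℕ)) := ⟨_, rfl⟩
  obtain ⟨N, hN⟩ : ∃ N : ℕ, N = m * L + 2 * X + 1 := ⟨_, rfl⟩
  -- the sum over the integers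
  have h1 : ∑ x ∈ Ioc X (2 * X), ‖∑ l ∈ (Icc 1 L).filter (fun l => x < m * l ∧ m * l ≤ x + K),
      ((b l : ℝ) : ℂ) * ee (α * (m * l : ℕ))‖ ^ 2 ≤
      ∑ x ∈ Ico (-(K : ℤ)) N, ‖∑ l ∈ (Icc 1 L).filter (fun l => DilX_chi m K x l), z l‖ ^ 2 := by
    have e1 : ∀ x ∈ Ioc X (2 * X),
        ‖∑ l ∈ (Icc 1 L).filter (fun l => x < m * l ∧ m * l ≤ x + K),
          ((b l : ℝ) : ℂ) * ee (α * (m * l : ℕ))‖ ^ 2 =
        ‖∑ l ∈ (Icc 1 L).filter (fun l => DilX_chi m K ((Nat.castEmbedding : ℕ ↪ ℤ) x) l), z l‖ ^ 2 := by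
      intro x _
      congr 2
      rw [hz]
      refine sum_congr (filter_congr fun l _ => ?_) fun _ _ => rfl
      show _ ↔ ((x : ℤ) < m * l ∧ (m * l : ℤ) ≤ (x : ℤ) + K)
      constructor
      · rintro ⟨a1, a2⟩
        exact ⟨by exact_mod_cast a1, by exact_mod_cast a2⟩
      · rintro ⟨a1, a2⟩
        exact ⟨by exact_mod_cast a1, by exact_mod_cast a2⟩
    rw [sum_congr rfl e1]
    rw [← sum_map (Ioc X (2 * X)) (Nat.castEmbedding : ℕ ↪ ℤ)
      (fun x : ℤ => ‖∑ l ∈ (Icc 1 L).filter (fun l => DilX_chi m K x l), z l‖ ^ 2)]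
    refine sum_le_sum_of_subset_of_nonneg ?_ fun _ _ _ => by positivity
    intro x hx
    obtain ⟨y, hy, rfl⟩ := mem_map.1 hx
    rw [mem_Ioc] at hy
    rw [mem_Ico]
    constructor
    · show -(K : ℤ) ≤ (y : ℤ)
      omega
    · show (y : ℤ) < (N : ℤ)
      have : y < N := by omega
      exact_mod_cast this
  refine h1.trans (le_of_eq ?_)
  have h2 : ∀ x ∈ Ico (-(K : ℤ)) N,
      ‖∑ l ∈ (Icc 1 L).filter (fun l => DilX_chi m K x l), z l‖ ^ 2 =
      ∑ l ∈ Icc 1 L, ∑ l' ∈ Icc 1 L, (if DilX_chi m K x l ∧ DilX_chi m K x l' then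
        (z l * (starRingEnd ℂ) (z l')).re else 0) := by
    intro x _
    rw [DilX_sq, sum_filter]
    refine sum_congr rfl fun l _ => ?_
    by_cases h : DilX_chi m K x l
    · rw [if_pos h, sum_filter]
      refine sum_congr rfl fun l' _ => ?_
      by_cases h' : DilX_chi m K x l'
      · rw [if_pos h', if_pos ⟨h, h'⟩]
      · rw [if_neg h', if_neg (fun h'' => h' h''.2)]
    · rw [if_neg h]
      symm
      refine sum_eq_zero fun l' _ => ?_
      rw [if_neg (fun h'' => h h''.1)]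
  rw [sum_congr rfl h2, sum_comm]
  refine sum_congr rfl fun l hl => ?_
  rw [sum_comm]
  refine sum_congr rfl fun l' hl' => ?_
  rw [mem_Icc] at hl
  rw [← sum_filter, sum_const, nsmul_eq_mul, DilX_card m K N l l' (by
    have := Nat.mul_le_mul_left m hl.2
    omega), hz]
  have h3 := DilX_ee α m l l' (b l) (b l')
  show max 0 ((K : ℝ) - m * |(l : ℝ) - l'|) *
    (((b l : ℂ) * ee (α * (m * l : ℕ))) * (starRingEnd ℂ) ((b l' : ℂ) * ee (α * (m * l' : ℕ)))).re = _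
  rw [h3]
  ring

end Pool.Agent.LMS
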