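import Pool.Agent.LMS.St

set_option autoImplicit false

/-!
# LMS: fractions in an interval
-/

namespace Pool.Agent.LMS

open Finset

namespace FcX

theorem frac_inj {p p' : ℤ} {q q' : ℕ} (hq : 1 ≤ q) (hq' : 1 ≤ q') (h : Int.gcd p q = 1)
    (h' : Int.gcd p' q' = 1) (he : p * q' = p' * q) : p = p' ∧ q = q' := by
  have h1 : (q : ℤ) ∣ q' := by
    have h2 : (q : ℤ) ∣ p * q' := ⟨p', by rw [he]; ring⟩
    refine IsCoprime.dvd_of_dvd_mul_left ?_ h2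
    exact (Int.isCoprime_iff_gcd_eq_one.2 h).symm
  have h3 : (q' : ℤ) ∣ q := by
    have h2 : (q' : ℤ) ∣ p' * q := ⟨p, by rw [← he]; ring⟩
    refine IsCoprime.dvd_of_dvd_mul_left ?_ h2
    exact (Int.isCoprime_iff_gcd_eq_one.2 h').symm
  have h4 : q = q' := Nat.dvd_antisymm (by exact_mod_cast h1) (by exact_mod_cast h3)
  refine ⟨?_, h4⟩
  subst h4
  have h5 : (q : ℤ) ≠ 0 := by
    have : (0 : ℤ) < q := by exact_mod_cast hq
    exact this.ne'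
  exact mul_right_cancel₀ h5 he

theorem dist {p p' : ℤ} {q q' : ℕ} (hq : 1 ≤ q) (hq' : 1 ≤ q') (hne : p * q' ≠ p' * q) :
    1 / ((q : ℝ) * q') ≤ |(p : ℝ) / q - p' / q'| := by
  have h0 : (0 : ℝ) < q := by exact_mod_cast hq
  have h0' : (0 : ℝ) < q' := by exact_mod_cast hq'
  have e : (p : ℝ) / q - p' / q' = ((p * q' - p' * q : ℤ) : ℝ) / (q * q') := by
    push_cast
    field_simp
  rw [e, abs_div, abs_of_pos (mul_pos h0 h0')]
  refine div_le_div_of_nonneg_right ?_ (mul_pos h0 h0').le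
  have h1 : (1 : ℤ) ≤ |p * q' - p' * q| := Int.one_le_abs (sub_ne_zero.2 hne)
  rw [← Int.cast_abs]
  exact_mod_cast h1

end FcX

open FcX in
theorem thm_Fc : St_Fc := by
  intro R τ θ S hR hτ hS
  have hR0 : (0 : ℝ) < R := by exact_mod_cast hR
  have hR2 : (0 : ℝ) < 4 * (R : ℝ) ^ 2 := by positivity
  set f : ℤ × ℕ → ℤ := fun p => ⌊((p.1 : ℝ) / p.2 - (θ - τ)) * (4 * (R : ℝ) ^ 2)⌋ with hf
  have hmaps : S.image f ⊆ Icc 0 ⌊8 * (R : ℝ) ^ 2 * τ⌋ := by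
    intro x hx
    obtain ⟨p, hp, rfl⟩ := Finset.mem_image.1 hx
    obtain ⟨h1, h2, h3, h4⟩ := hS p hp
    have h5 := abs_le.1 h4
    rw [Finset.mem_Icc]
    constructor
    · refine Int.floor_nonneg.2 (mul_nonneg ?_ hR2.le)
      linarith [h5.2]
    · refine Int.floor_le_floor ?_
      have h6 : (p.1 : ℝ) / p.2 - (θ - τ) ≤ 2 * τ := by linarith [h5.1]
      calc ((p.1 : ℝ) / p.2 - (θ - τ)) * (4 * (R : ℝ) ^ 2) ≤ 2 * τ * (4 * (R : ℝ) ^ 2) :=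
            mul_le_mul_of_nonneg_right h6 hR2.le
        _ = 8 * (R : ℝ) ^ 2 * τ := by ring
  have hinj : Set.InjOn f S := by
    intro x hx y hy hxy
    obtain ⟨h1, h2, h3, h4⟩ := hS x (Finset.mem_coe.1 hx)
    obtain ⟨g1, g2, g3, g4⟩ := hS y (Finset.mem_coe.1 hy)
    have hx1 : 1 ≤ x.2 := hR.trans h1
    have hy1 : 1 ≤ y.2 := hR.trans g1
    by_cases he : x.1 * y.2 = y.1 * x.2
    · obtain ⟨e1, e2⟩ := frac_inj hx1 hy1 h3 g3 he
      exact Prod.ext e1 e2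
    · exfalso
      have h5 := dist hx1 hy1 he
      have hx0 : (0 : ℝ) < x.2 := by exact_mod_cast hx1
      have hy0 : (0 : ℝ) < y.2 := by exact_mod_cast hy1
      have hx2 : (x.2 : ℝ) < 2 * R := by exact_mod_cast h2
      have hy2 : (y.2 : ℝ) < 2 * R := by exact_mod_cast g2
      have h6 : (x.2 : ℝ) * y.2 ≤ 4 * (R : ℝ) ^ 2 := by nlinarith
      have h7 : 1 / (4 * (R : ℝ) ^ 2) ≤ |(x.1 : ℝ) / x.2 - y.1 / y.2| :=
        (one_div_le_one_div_of_le (mul_pos hx0 hy0) h6).trans h5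
      have h8 : |((x.1 : ℝ) / x.2 - (θ - τ)) * (4 * (R : ℝ) ^ 2) -
          ((y.1 : ℝ) / y.2 - (θ - τ)) * (4 * (R : ℝ) ^ 2)| < 1 := Int.abs_sub_lt_one_of_floor_eq_floor hxy
      rw [← sub_mul, abs_mul, abs_of_pos hR2] at h8
      have h9 : (x.1 : ℝ) / x.2 - (θ - τ) - ((y.1 : ℝ) / y.2 - (θ - τ)) =
          (x.1 : ℝ) / x.2 - y.1 / y.2 := by ring
      rw [h9] at h8
      rw [div_le_iff₀ hR2] at h7
      linarith
  have h0 : 0 ≤ ⌊8 * (R : ℝ) ^ 2 * τ⌋ := Int.floor_nonneg.2 (by positivity)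
  have h1 := Finset.card_le_card hmaps
  rw [Finset.card_image_of_injOn hinj, Int.card_Icc] at h1
  have h2 : (S.card : ℤ) ≤ ⌊8 * (R : ℝ) ^ 2 * τ⌋ + 1 := by
    have h3 : ((⌊8 * (R : ℝ) ^ 2 * τ⌋ + 1 - 0).toNat : ℤ) = ⌊8 * (R : ℝ) ^ 2 * τ⌋ + 1 := by
      rw [Int.toNat_of_nonneg (by linarith)]
      ring
    rw [← h3]
    exact_mod_cast h1
  have h3 : (S.card : ℝ) ≤ (⌊8 * (R : ℝ) ^ 2 * τ⌋ : ℝ) + 1 := by exact_mod_cast h2
  have h4 := Int.floor_le (8 * (R : ℝ) ^ 2 * τ)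
  linarith

end Pool.Agent.LMS
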