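import Pool.Agent.LMS.St

/-!
# LMS, Fou: mean squares over windows and Parseval (helper17)
-/

set_option autoImplicit false

namespace Pool.Agent.LMS

open Finset MeasureTheory
open Pool.Agent.GBQ (ee nd gm lam LamS rho pr Rough)
open Pool.Agent.SI (fac cof siz)

namespace FouX

theorem ee_add (x y : ℝ) : ee (x + y) = ee x * ee y := by
  unfold ee
  rw [← Complex.exp_add]
  congr 1
  push_cast
  ring

theorem ee_conj (x : ℝ) : (starRingEnd ℂ) (ee x) = ee (-x) := by
  unfold ee
  rw [← Complex.exp_conj, map_mul, Complex.conj_ofReal, Complex.conj_I]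
  congr 1
  push_cast
  ring

theorem ee_norm (x : ℝ) : ‖ee x‖ = 1 := Complex.norm_exp_ofReal_mul_I _

theorem ee_cont (f : ℝ → ℝ) (hf : Continuous f) : Continuous fun β => ee (f β) := by
  unfold ee
  fun_prop

theorem int_ee (k : ℤ) : ∫ β in (-(1 / 2 : ℝ))..(1 / 2), ee (β * k) = if k = 0 then 1 else 0 := by
  by_cases hk : k = 0
  · subst hk
    have e : (fun β : ℝ => ee (β * ((0 : ℤ) : ℝ))) = fun _ => 1 := by
      funext β
      unfold ee
      simp
    rw [e, if_pos rfl]
    simp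
    norm_num
  · rw [if_neg hk]
    have hc : ((2 * Real.pi * k : ℝ) : ℂ) * Complex.I ≠ 0 := by
      refine mul_ne_zero ?_ Complex.I_ne_zero
      rw [Complex.ofReal_ne_zero]
      have : (k : ℝ) ≠ 0 := by exact_mod_cast hk
      positivity
    have e : (fun β : ℝ => ee (β * (k : ℝ))) = fun β : ℝ =>
        Complex.exp ((((2 * Real.pi * k : ℝ) : ℂ) * Complex.I) * (β : ℂ)) := by
      funext β
      unfold ee
      congr 1
      push_cast
      ring
    rw [e, integral_exp_mul_complex hc]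
    have e2 : Complex.exp ((((2 * Real.pi * k : ℝ) : ℂ) * Complex.I) * ((1 / 2 : ℝ) : ℂ)) =
        Complex.exp ((((2 * Real.pi * k : ℝ) : ℂ) * Complex.I) * ((-(1 / 2) : ℝ) : ℂ)) := by
      have e3 : (((2 * Real.pi * k : ℝ) : ℂ) * Complex.I) * ((1 / 2 : ℝ) : ℂ) =
          (((2 * Real.pi * k : ℝ) : ℂ) * Complex.I) * ((-(1 / 2) : ℝ) : ℂ) +
            (k : ℂ) * (2 * (Real.pi : ℂ) * Complex.I) := by
        push_cast
        ring
      rw [e3, Complex.exp_add, Complex.exp_int_mul_two_pi_mul_I, mul_one]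
    rw [e2, sub_self, zero_div]

theorem parseval (M : ℕ) (w : ℕ → ℂ) :
    ∫ β in (-(1 / 2 : ℝ))..(1 / 2), ‖∑ y ∈ range M, w y * ee (β * y)‖ ^ 2 =
      ∑ y ∈ range M, ‖w y‖ ^ 2 := by
  have key : ((∫ β in (-(1 / 2 : ℝ))..(1 / 2), ‖∑ y ∈ range M, w y * ee (β * y)‖ ^ 2 : ℝ) : ℂ) =
      ((∑ y ∈ range M, ‖w y‖ ^ 2 : ℝ) : ℂ) := by
    rw [← intervalIntegral.integral_ofReal]
    have e1 : (fun β : ℝ => ((‖∑ y ∈ range M, w y * ee (β * y)‖ ^ 2 : ℝ) : ℂ)) = fun β =>
        ∑ y ∈ range M, ∑ y' ∈ range M,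
          w y * (starRingEnd ℂ) (w y') * ee (β * ((y : ℤ) - (y' : ℤ) : ℤ)) := by
      funext β
      have h1 := Complex.mul_conj (∑ y ∈ range M, w y * ee (β * y))
      rw [Complex.normSq_eq_norm_sq] at h1
      rw [← h1, map_sum, sum_mul_sum]
      refine sum_congr rfl fun y _ => sum_congr rfl fun y' _ => ?_
      rw [map_mul, ee_conj]
      have e2 : β * (((y : ℤ) - (y' : ℤ) : ℤ) : ℝ) = β * y + -(β * y') := by
        push_cast
        ring
      rw [e2, ee_add]
      ring
    rw [e1]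
    have hcont : ∀ y y' : ℕ, Continuous fun β : ℝ =>
        w y * (starRingEnd ℂ) (w y') * ee (β * ((y : ℤ) - (y' : ℤ) : ℤ)) := fun y y' =>
      continuous_const.mul (ee_cont _ (continuous_id.mul continuous_const))
    rw [intervalIntegral.integral_finsetSum fun y _ =>
      (continuous_finsetSum _ fun y' _ => hcont y y').intervalIntegrable _ _]
    rw [Complex.ofReal_sum]
    refine sum_congr rfl fun y hy => ?_
    rw [Complex.ofReal_pow, intervalIntegral.integral_finsetSum fun y' _ => (hcont y y').intervalIntegrable _ _]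
    have e3 : ∀ y' ∈ range M, (∫ β in (-(1 / 2 : ℝ))..(1 / 2),
        w y * (starRingEnd ℂ) (w y') * ee (β * ((y : ℤ) - (y' : ℤ) : ℤ))) =
        if y' = y then ((‖w y‖ : ℝ) : ℂ) ^ 2 else 0 := by
      intro y' _
      rw [intervalIntegral.integral_const_mul, int_ee]
      by_cases h : y' = y
      · subst h
        rw [if_pos (sub_self _), if_pos rfl, mul_one, Complex.mul_conj, Complex.normSq_eq_norm_sq]
        push_cast
        rfl
      · rw [if_neg h, if_neg, mul_zero]
        intro h1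
        apply h
        omega
    rw [sum_congr rfl e3, sum_ite_eq' (range M) y, if_pos hy]
  exact_mod_cast key

/-- the geometric sum -/
theorem geo_le (K : ℕ) (β : ℝ) : ‖∑ j ∈ range K, ee (β * j)‖ ≤ K := by
  refine (norm_sum_le _ _).trans ?_
  simp [ee_norm]

theorem geo_mul (K : ℕ) (β : ℝ) (hβ : |β| ≤ 1 / 2) :
    ‖∑ j ∈ range K, ee (β * j)‖ * (2 * |β|) ≤ 1 := by
  have h1 : (∑ j ∈ range K, ee (β * j)) * (ee β - 1) = ee (β * K) - 1 := by
    have h2 : ∀ j : ℕ, ee (β * j) = ee β ^ j := by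
      intro j
      induction j with
      | zero => unfold ee; simp
      | succ j ih =>
        have e : β * ((j + 1 : ℕ) : ℝ) = β * j + β := by push_cast; ring
        rw [e, ee_add, ih, pow_succ]
    rw [sum_congr rfl fun j _ => h2 j, h2 K]
    exact geom_sum_mul _ _
  have h3 : 4 * |β| ≤ ‖ee β - 1‖ := by
    have e1 : ee β = Complex.exp (Complex.I * ((2 * Real.pi * β : ℝ) : ℂ)) := by
      unfold ee
      rw [mul_comm]
    rw [e1, Complex.norm_exp_I_mul_ofReal_sub_one]
    have h4 := Real.mul_abs_le_abs_sin (x := 2 * Real.pi * β / 2) (by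
      rw [show 2 * Real.pi * β / 2 = Real.pi * β by ring, abs_mul, abs_of_pos Real.pi_pos]
      nlinarith [Real.pi_pos])
    have h5 : 2 / Real.pi * |2 * Real.pi * β / 2| = 2 * |β| := by
      rw [show 2 * Real.pi * β / 2 = Real.pi * β by ring, abs_mul, abs_of_pos Real.pi_pos]
      field_simp
    rw [h5] at h4
    rw [Real.norm_eq_abs, abs_mul, abs_two]
    linarith
  have h6 : ‖∑ j ∈ range K, ee (β * j)‖ * ‖ee β - 1‖ ≤ 2 := by
    rw [← norm_mul, h1]
    refine (norm_sub_le _ _).trans ?_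
    rw [ee_norm, norm_one]
    norm_num
  have h7 := mul_le_mul_of_nonneg_left h3 (norm_nonneg (∑ j ∈ range K, ee (β * j)))
  linarith

theorem kernel (K : ℕ) (hK : 1 ≤ K) (β : ℝ) (hβ : |β| ≤ 1 / 2) :
    ‖∑ j ∈ range K, ee (β * j)‖ ^ 2 ≤ 2 * (K : ℝ) ^ 2 / (1 + 4 * (K : ℝ) ^ 2 * β ^ 2) := by
  have h1 := geo_le K β
  have h2 := geo_mul K β hβ
  have h0 := norm_nonneg (∑ j ∈ range K, ee (β * j))
  have hK' : (1 : ℝ) ≤ K := by exact_mod_cast hK
  rw [le_div_iff₀ (by positivity), ← sq_abs β]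
  set t := ‖∑ j ∈ range K, ee (β * j)‖
  have h3 : t ^ 2 ≤ (K : ℝ) ^ 2 := pow_le_pow_left₀ h0 h1 2
  have h4 : (t * (2 * |β|)) ^ 2 ≤ 1 := by
    have := abs_nonneg β
    exact pow_le_one₀ (by positivity) h2
  have h5 : t ^ 2 * (4 * (K : ℝ) ^ 2 * |β| ^ 2) = (K : ℝ) ^ 2 * (t * (2 * |β|)) ^ 2 := by ring
  have h6 : (K : ℝ) ^ 2 * (t * (2 * |β|)) ^ 2 ≤ (K : ℝ) ^ 2 * 1 :=
    mul_le_mul_of_nonneg_left h4 (by positivity)
  rw [mul_add, mul_one, h5]
  linarith

end FouX

open FouX in
theorem thm_Fou : St_Fou := by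
  intro c N K X α hK hc
  set a : ℕ → ℂ := fun n => ((c n : ℝ) : ℂ) * ee (α * n) with ha
  set W : ℕ → ℂ := fun y => ∑ n ∈ Icc 1 N, ∑ j ∈ range K, if n + j = y then a n else 0 with hW
  set M : ℕ := N + K + 2 * X + 1 with hM
  -- the windows
  have hws : ∀ x : ℕ, ws c α K x = W (x + K) := by
    intro x
    have h1 : ∀ n ∈ Icc 1 N, (∑ j ∈ range K, if n + j = x + K then a n else 0) =
        if n ∈ Ioc x (x + K) then a n else 0 := by
      intro n _
      by_cases hn : n ∈ Ioc x (x + K)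
      · rw [if_pos hn]
        rw [mem_Ioc] at hn
        rw [sum_eq_single (x + K - n)]
        · rw [if_pos (by omega)]
        · intro j _ hj
          rw [if_neg (by omega)]
        · intro h
          exact absurd (mem_range.2 (by omega)) h
      · rw [if_neg hn]
        rw [mem_Ioc] at hn
        refine sum_eq_zero fun j hj => ?_
        rw [mem_range] at hj
        rw [if_neg (by omega)]
    rw [hW]
    dsimp only
    rw [sum_congr rfl h1, ← sum_filter, ws]
    refine (sum_subset (fun n hn => (mem_filter.1 hn).2) ?_).symm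
    intro n hn hn'
    have h2 : c n = 0 := by
      by_contra h
      exact hn' (mem_filter.2 ⟨mem_Icc.2 (hc n h), hn⟩)
    rw [h2]
    simp
  -- the product
  have hprod : ∀ β : ℝ, (∑ n ∈ Icc 1 N, ((c n : ℝ) : ℂ) * ee ((α + β) * n)) *
      (∑ j ∈ range K, ee (β * j)) = ∑ y ∈ range M, W y * ee (β * y) := by
    intro β
    rw [sum_mul_sum]
    have h1 : ∑ y ∈ range M, W y * ee (β * y) = ∑ n ∈ Icc 1 N, ∑ j ∈ range K, ∑ y ∈ range M,
        (if n + j = y then a n else 0) * ee (β * y) := by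
      simp only [hW, sum_mul]
      rw [sum_comm]
      refine sum_congr rfl fun n _ => ?_
      rw [sum_comm]
    rw [h1]
    refine sum_congr rfl fun n hn => sum_congr rfl fun j hj => ?_
    rw [mem_Icc] at hn
    rw [mem_range] at hj
    rw [sum_eq_single (n + j)]
    · rw [if_pos rfl, ha]
      dsimp only
      have e : (α + β) * (n : ℝ) = α * n + β * n := by ring
      have e' : β * ((n + j : ℕ) : ℝ) = β * n + β * j := by push_cast; ring
      rw [e, e', ee_add, ee_add]
      ring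
    · intro y _ hy
      rw [if_neg (Ne.symm hy), zero_mul]
    · intro h
      exact absurd (mem_range.2 (by omega)) h
  have h1 : ms c α K X ≤ ∑ y ∈ range M, ‖W y‖ ^ 2 := by
    rw [ms, sum_congr rfl fun x _ => by rw [hws x]]
    have h2 : ∑ x ∈ Ioc X (2 * X), ‖W (x + K)‖ ^ 2 =
        ∑ y ∈ (Ioc X (2 * X)).image (fun x => x + K), ‖W y‖ ^ 2 := by
      rw [sum_image]
      intro x _ x' _ h
      exact Nat.add_right_cancel h
    rw [h2]
    refine sum_le_sum_of_subset_of_nonneg ?_ fun _ _ _ => by positivity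
    intro y hy
    obtain ⟨x, hx, rfl⟩ := mem_image.1 hy
    rw [mem_Ioc] at hx
    exact mem_range.2 (by omega)
  refine h1.trans ?_
  rw [← parseval M W]
  have hS : Continuous fun β : ℝ => ∑ n ∈ Icc 1 N, ((c n : ℝ) : ℂ) * ee ((α + β) * n) :=
    continuous_finsetSum _ fun n _ => continuous_const.mul
      (ee_cont _ ((continuous_const.add continuous_id).mul continuous_const))
  have hP : Continuous fun β : ℝ => ∑ y ∈ range M, W y * ee (β * y) :=
    continuous_finsetSum _ fun n _ => continuous_const.mul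
      (ee_cont _ (continuous_id.mul continuous_const))
  have hk : Continuous fun β : ℝ => 2 * (K : ℝ) ^ 2 / (1 + 4 * (K : ℝ) ^ 2 * β ^ 2) := by
    refine continuous_const.div (by fun_prop) fun β => ?_
    positivity
  refine intervalIntegral.integral_mono_on (by norm_num) ?_ ?_ ?_
  · exact ((hP.norm).pow 2).intervalIntegrable _ _
  · exact (((hS.norm).pow 2).mul hk).intervalIntegrable _ _
  · intro β hβ
    rw [← hprod β, norm_mul, mul_pow]
    refine mul_le_mul_of_nonneg_left (kernel K hK β ?_) (by positivity)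
    rw [abs_le]
    exact ⟨hβ.1, hβ.2⟩

end Pool.Agent.LMS
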