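import Pool.Agent.LMS.St
import Pool.Agent.Helper95.MDKer

set_option autoImplicit false

/-!
# LMS: the sum of the minima near to a fraction
-/

namespace Pool.Agent.LMS

open Finset
open Pool.Agent.GBQ (ee nd gm)

namespace GaX

/-- Integers at pairwise distance at most `w` are at most `w + 1` in number. -/
theorem interval (T : Finset ℕ) (w : ℝ) (hw : 0 ≤ w)
    (hT : ∀ s ∈ T, ∀ t ∈ T, (t : ℝ) ≤ s + w) : (T.card : ℝ) ≤ w + 1 := by
  rcases T.eq_empty_or_nonempty with rfl | hne
  · simp only [Finset.card_empty, Nat.cast_zero]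
    linarith
  · obtain ⟨s, hs, hmin⟩ := T.exists_min_image id hne
    have hsub : T ⊆ Icc s (s + ⌊w⌋₊) := by
      intro t ht
      rw [Finset.mem_Icc]
      refine ⟨hmin t ht, ?_⟩
      have h1 : s ≤ t := hmin t ht
      have h2 : ((t - s : ℕ) : ℝ) ≤ w := by
        rw [Nat.cast_sub h1]
        linarith [hT s hs t ht]
      have : t - s ≤ ⌊w⌋₊ := Nat.le_floor h2
      omega
    have h1 := Finset.card_le_card hsub
    rw [Nat.card_Icc] at h1
    have h2 : T.card ≤ ⌊w⌋₊ + 1 := by omega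
    have h3 : (T.card : ℝ) ≤ (⌊w⌋₊ : ℝ) + 1 := by exact_mod_cast h2
    have h4 := Nat.floor_le hw
    linarith

/-- Numbers in `[M, 2M)` which are congruent modulo `r`. -/
theorem count (M r : ℕ) (hr : 1 ≤ r) (T : Finset ℕ) (hT : T ⊆ Ico M (2 * M))
    (hc : ∀ s ∈ T, ∀ t ∈ T, s % r = t % r) : (T.card : ℝ) ≤ M / r + 1 := by
  have hr0 : (0 : ℝ) < r := by exact_mod_cast hr
  have hinj : Set.InjOn (fun m => m / r) (T : Set ℕ) := by
    intro s hs t ht hst
    have h1 := hc s (Finset.mem_coe.1 hs) t (Finset.mem_coe.1 ht)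
    have h2 := Nat.div_add_mod s r
    have h3 := Nat.div_add_mod t r
    have h4 : s / r = t / r := hst
    rw [h4, h1] at h2
    omega
  rw [← Finset.card_image_of_injOn hinj]
  refine interval _ _ (by positivity) ?_
  intro s' hs' t' ht'
  obtain ⟨s, hs, rfl⟩ := Finset.mem_image.1 hs'
  obtain ⟨t, ht, rfl⟩ := Finset.mem_image.1 ht'
  have h1 := hc s hs t ht
  have h2 := Nat.div_add_mod s r
  have h3 := Nat.div_add_mod t r
  have h4 := Finset.mem_Ico.1 (hT hs)
  have h5 := Finset.mem_Ico.1 (hT ht)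
  have h6 : r * (t / r) ≤ r * (s / r) + M := by omega
  have h7 : (r : ℝ) * ((t / r : ℕ) : ℝ) ≤ r * ((s / r : ℕ) : ℝ) + M := by exact_mod_cast h6
  have h8 : ((t / r : ℕ) : ℝ) ≤ ((s / r : ℕ) : ℝ) + M / r := by
    have h9 : (r : ℝ) * (((s / r : ℕ) : ℝ) + M / r) = r * ((s / r : ℕ) : ℝ) + M := by
      field_simp
    by_contra hcon
    rw [not_le] at hcon
    have := mul_lt_mul_of_pos_left hcon hr0
    linarith
  exact h8

theorem nd_nonneg (x : ℝ) : 0 ≤ nd x := abs_nonneg _

theorem nd_le (x : ℝ) (k : ℤ) : nd x ≤ |x - k| := round_le x k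

theorem nd_add (x y : ℝ) : nd x ≤ nd (x + y) + |y| := by
  refine (nd_le x (round (x + y))).trans ?_
  have e : x - round (x + y) = (x + y - round (x + y)) + -y := by ring
  rw [e]
  refine (abs_add_le _ _).trans ?_
  rw [abs_neg]
  exact le_refl _

/-- multiples of `r` -/
theorem nd_int (k : ℤ) (x : ℝ) (hx : |x| ≤ 1 / 2) : |x| ≤ nd (k + x) := by
  show |x| ≤ |(k + x) - round ((k : ℝ) + x)|
  set n : ℤ := round ((k : ℝ) + x) - k with hn
  have e : (k + x) - (round ((k : ℝ) + x) : ℝ) = x - n := by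
    rw [hn]
    push_cast
    ring
  rw [e]
  by_cases h0 : n = 0
  · rw [h0]
    simp
  · have h1 : (1 : ℝ) ≤ |(n : ℝ)| := by
      have := Int.one_le_abs h0
      rw [← Int.cast_abs]
      exact_mod_cast this
    have h2 := abs_sub_abs_le_abs_sub (n : ℝ) x
    rw [abs_sub_comm] at h2
    linarith

theorem gm_le_of_nd {L M δ y : ℝ} (hL : 0 < L) (hM : 0 < M) (hy : |δ| * M ≤ nd y) :
    gm L y ≤ 2 * L / (1 + 2 * (L * M) * |δ|) := by
  have hδ := abs_nonneg δ
  have hden : 0 < 1 + 2 * (L * M) * |δ| := by positivity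
  have key : 2 * (L * M) * |δ| ≤ 1 → L ≤ 2 * L / (1 + 2 * (L * M) * |δ|) := by
    intro h
    rw [le_div_iff₀ hden]
    nlinarith
  unfold gm
  split_ifs with h
  · rw [h] at hy
    have h1 : |δ| = 0 := by
      rcases hδ.eq_or_lt with h2 | h2
      · exact h2.symm
      · have := mul_pos h2 hM
        linarith
    refine key ?_
    rw [h1]
    norm_num
  · rcases le_or_gt (2 * (L * M) * |δ|) 1 with h1 | h1
    · exact (min_le_left _ _).trans (key h1)
    · refine (min_le_right _ _).trans ?_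
      have h2 : 0 < nd y := lt_of_le_of_ne (nd_nonneg y) (Ne.symm h)
      rw [div_le_div_iff₀ (by positivity) hden]
      nlinarith

/-- the values at fractions -/
theorem nd_frac (u : ℤ) (m r : ℕ) (hr : 1 ≤ r) (j : ℕ) (hj : (u * m) % r = j) (hj0 : 1 ≤ j) :
    j < r ∧ 1 / (r : ℝ) ≤ nd ((u : ℝ) / r * m) ∧
      1 / nd ((u : ℝ) / r * m) ≤ r * (1 / (j : ℝ) + 1 / ((r - j : ℕ) : ℝ)) := by
  have hr0 : (0 : ℝ) < r := by exact_mod_cast hr
  have hrz : (0 : ℤ) < r := by exact_mod_cast hr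
  have hjr : j < r := by
    have := Int.emod_lt_of_pos (u * m) hrz
    rw [hj] at this
    exact_mod_cast this
  obtain ⟨ρ, hρ⟩ : ∃ ρ : ℤ, ρ = round ((u : ℝ) / r * m) := ⟨_, rfl⟩
  obtain ⟨n, hn⟩ : ∃ n : ℤ, n = (u * m) / r - ρ := ⟨_, rfl⟩
  have h1 : (u : ℝ) / r * m - ρ = ((n * r + j : ℤ) : ℝ) / r := by
    have h2 := Int.mul_ediv_add_emod (u * m) r
    rw [hj] at h2
    have h3 : (u : ℝ) * m = r * (((u * m) / r : ℤ) : ℝ) + j := by exact_mod_cast h2.symm
    have h4 : (u : ℝ) / r * m = (((u * m) / r : ℤ) : ℝ) + j / r := by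
      rw [div_mul_eq_mul_div, h3]
      field_simp
    rw [h4, hn]
    push_cast
    field_simp
    ring
  have h2 : nd ((u : ℝ) / r * m) = |((n * r + j : ℤ) : ℝ)| / r := by
    show |(u : ℝ) / r * m - round ((u : ℝ) / r * m)| = _
    rw [← hρ, h1, abs_div, abs_of_pos hr0]
  have h3 : ((min j (r - j) : ℕ) : ℤ) ≤ |n * r + j| := by
    rcases le_or_gt 0 n with h | h
    · have h4 : (j : ℤ) ≤ n * r + j := by nlinarith
      exact (by exact_mod_cast min_le_left j (r - j) : ((min j (r - j) : ℕ) : ℤ) ≤ j).trans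
        (h4.trans (le_abs_self _))
    · have h4 : (r : ℤ) - j ≤ -(n * r + j) := by nlinarith
      have h5 : (((r - j : ℕ)) : ℤ) = (r : ℤ) - j := by
        rw [Nat.cast_sub hjr.le]
      refine (by exact_mod_cast min_le_right j (r - j) : ((min j (r - j) : ℕ) : ℤ) ≤
        ((r - j : ℕ) : ℤ)).trans ?_
      rw [h5]
      exact h4.trans (neg_le_abs _)
  have h4 : ((min j (r - j) : ℕ) : ℝ) ≤ |((n * r + j : ℤ) : ℝ)| := by
    rw [← Int.cast_abs]
    exact_mod_cast h3
  have h5 : 1 ≤ min j (r - j) := le_min hj0 (by omega)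
  have h6 : (1 : ℝ) ≤ ((min j (r - j) : ℕ) : ℝ) := by exact_mod_cast h5
  refine ⟨hjr, ?_, ?_⟩
  · rw [h2]
    exact div_le_div_of_nonneg_right (h6.trans h4) hr0.le
  · rw [h2, one_div_div]
    have h7 : (r : ℝ) / |((n * r + j : ℤ) : ℝ)| ≤ r / ((min j (r - j) : ℕ) : ℝ) :=
      div_le_div_of_nonneg_left hr0.le (by linarith) h4
    refine h7.trans ?_
    rw [div_eq_mul_one_div]
    refine mul_le_mul_of_nonneg_left ?_ hr0.le
    have h8 : 0 ≤ 1 / (j : ℝ) := by positivity
    have h9 : 0 ≤ 1 / ((r - j : ℕ) : ℝ) := by positivity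
    rcases min_choice j (r - j) with h | h
    · rw [h]
      linarith
    · rw [h]
      linarith

theorem harm (r : ℕ) : ∑ j ∈ Ico 1 r, (r : ℝ) * (1 / (j : ℝ) + 1 / ((r - j : ℕ) : ℝ)) ≤
    2 * r * (1 + Real.log r) := by
  rcases Nat.eq_zero_or_pos r with rfl | hr
  · simp
  have h1 : ∑ j ∈ Ico 1 r, 1 / ((r - j : ℕ) : ℝ) = ∑ j ∈ Ico 1 r, 1 / (j : ℝ) := by
    have := Finset.sum_Ico_reflect (fun j : ℕ => 1 / (j : ℝ)) 1 (show r ≤ r + 1 by omega)
    rw [this]
    congr 1
    congr 1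
    omega
  have h2 : ∑ j ∈ Ico 1 r, 1 / (j : ℝ) ≤ 1 + Real.log r := by
    have h3 := Pool.Agent.Helper95.MD.sum_inv_le r
    refine le_trans ?_ h3
    rw [Finset.sum_Ico_eq_sum_range]
    have h4 : ∑ i ∈ range (r - 1), 1 / ((1 + i : ℕ) : ℝ) = ∑ i ∈ range (r - 1), 1 / ((i : ℝ) + 1) := by
      refine Finset.sum_congr rfl fun i _ => ?_
      push_cast
      rw [add_comm]
    rw [h4]
    refine Finset.sum_le_sum_of_subset_of_nonneg ?_ fun i _ _ => by positivity
    intro i hi
    rw [Finset.mem_range] at hi ⊢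
    omega
  have hr0 : (0 : ℝ) < r := by exact_mod_cast hr
  rw [← Finset.mul_sum, Finset.sum_add_distrib, h1]
  nlinarith

end GaX

open GaX in
theorem thm_Ga : St_Ga := by
  intro M L r u θ hM hL hr hrM hgcd hθ
  have hM0 : (0 : ℝ) < M := by exact_mod_cast hM
  have hL0 : (0 : ℝ) < L := by exact_mod_cast hL
  have hr0 : (0 : ℝ) < r := by exact_mod_cast hr
  have hrz : (0 : ℤ) < r := by exact_mod_cast hr
  set δ : ℝ := θ - u / r with hδ
  have hδr : |δ| * (2 * M) ≤ 1 / (2 * r) := by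
    calc |δ| * (2 * M) ≤ 1 / (4 * M * r) * (2 * M) := by gcongr
      _ = 1 / (2 * r) := by
        field_simp
        norm_num
  have hθm : ∀ m : ℕ, θ * m = (u : ℝ) / r * m + δ * m := by
    intro m
    rw [hδ]
    ring
  have hδm : ∀ m ∈ Ico M (2 * M), |δ * m| ≤ 1 / (2 * r) := by
    intro m hm
    have h1 := (Finset.mem_Ico.1 hm).2
    have h2 : (m : ℝ) ≤ 2 * M := by exact_mod_cast h1.le
    rw [abs_mul, Nat.abs_cast]
    exact (mul_le_mul_of_nonneg_left h2 (abs_nonneg _)).trans hδr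
  unfold gs
  rw [← Finset.sum_filter_add_sum_filter_not (Ico M (2 * M)) (fun m => r ∣ m)]
  refine add_le_add ?_ ?_
  · -- multiples of `r`
    have hterm : ∀ m ∈ (Ico M (2 * M)).filter (fun m => r ∣ m),
        gm (L : ℝ) (θ * m) ≤ 2 * L / (1 + 2 * (L * M) * |δ|) := by
      intro m hm
      obtain ⟨hm1, k, hk⟩ := Finset.mem_filter.1 hm
      have h1 := Finset.mem_Ico.1 hm1
      refine gm_le_of_nd hL0 hM0 ?_
      have h2 : |δ * m| ≤ 1 / 2 := by
        refine (hδm m hm1).trans ?_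
        have : (1 : ℝ) ≤ r := by exact_mod_cast hr
        rw [div_le_div_iff₀ (by positivity) (by norm_num)]
        linarith
      have h3 : (u : ℝ) / r * m = ((u * k : ℤ) : ℝ) := by
        rw [hk]
        push_cast
        field_simp
      rw [hθm, h3]
      refine le_trans ?_ (nd_int _ _ h2)
      rw [abs_mul, Nat.abs_cast]
      refine mul_le_mul_of_nonneg_left ?_ (abs_nonneg _)
      exact_mod_cast h1.1
    have hcard : (((Ico M (2 * M)).filter (fun m => r ∣ m)).card : ℝ) ≤ 3 * M / r := by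
      rcases le_or_gt (2 * M) r with h | h
      · have h1 : (Ico M (2 * M)).filter (fun m => r ∣ m) = ∅ := by
          rw [Finset.filter_eq_empty_iff]
          intro m hm hd
          have h2 := Finset.mem_Ico.1 hm
          have := Nat.le_of_dvd (by omega) hd
          omega
        rw [h1, Finset.card_empty, Nat.cast_zero]
        positivity
      · have h1 := count M r hr ((Ico M (2 * M)).filter (fun m => r ∣ m))
          (Finset.filter_subset _ _) (by
            intro s hs t ht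
            rw [Nat.mod_eq_zero_of_dvd (Finset.mem_filter.1 hs).2,
              Nat.mod_eq_zero_of_dvd (Finset.mem_filter.1 ht).2])
        refine h1.trans ?_
        have h2 : (r : ℝ) ≤ 2 * M := by exact_mod_cast h.le
        rw [← sub_nonneg]
        have e : 3 * (M : ℝ) / r - (M / r + 1) = (2 * M - r) / r := by
          field_simp
          ring
        rw [e]
        exact div_nonneg (by linarith) hr0.le
    calc ∑ m ∈ (Ico M (2 * M)).filter (fun m => r ∣ m), gm (L : ℝ) (θ * m)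
        ≤ ∑ _m ∈ (Ico M (2 * M)).filter (fun m => r ∣ m), 2 * L / (1 + 2 * (L * M) * |δ|) :=
          Finset.sum_le_sum hterm
      _ = (((Ico M (2 * M)).filter (fun m => r ∣ m)).card : ℝ) *
          (2 * L / (1 + 2 * (L * M) * |δ|)) := by rw [Finset.sum_const, nsmul_eq_mul]
      _ ≤ 3 * M / r * (2 * L / (1 + 2 * (L * M) * |δ|)) :=
          mul_le_mul_of_nonneg_right hcard (by positivity)
      _ = 6 * (L * M) / (r * (1 + 2 * (L * M) * |δ|)) := by
          field_simp
          norm_num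
  · -- the others
    set J : ℕ → ℕ := fun m => ((u * m) % r).toNat with hJ
    have hJe : ∀ m : ℕ, (u * m) % r = (J m : ℤ) := by
      intro m
      rw [hJ]
      exact (Int.toNat_of_nonneg (Int.emod_nonneg _ hrz.ne')).symm
    have hJ1 : ∀ m ∈ (Ico M (2 * M)).filter (fun m => ¬ r ∣ m), 1 ≤ J m := by
      intro m hm
      have h1 := (Finset.mem_filter.1 hm).2
      rw [Nat.one_le_iff_ne_zero]
      intro h2
      apply h1
      have h3 := hJe m
      rw [h2, Nat.cast_zero] at h3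
      have h4 : (r : ℤ) ∣ u * m := Int.dvd_of_emod_eq_zero h3
      have h5 : (r : ℤ) ∣ m :=
        IsCoprime.dvd_of_dvd_mul_left (Int.isCoprime_iff_gcd_eq_one.2 hgcd).symm h4
      exact_mod_cast h5
    have hterm : ∀ m ∈ (Ico M (2 * M)).filter (fun m => ¬ r ∣ m),
        gm (L : ℝ) (θ * m) ≤ r * (1 / (J m : ℝ) + 1 / ((r - J m : ℕ) : ℝ)) := by
      intro m hm
      obtain ⟨h1, h2, h3⟩ := nd_frac u m r hr (J m) (hJe m) (hJ1 m hm)
      refine le_trans ?_ h3
      have h4 := nd_add ((u : ℝ) / r * m) (δ * m)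
      rw [← hθm] at h4
      have h5 := hδm m (Finset.mem_filter.1 hm).1
      have h6 : 1 / (2 * (r : ℝ)) = (1 / r) / 2 := by
        field_simp
      rw [h6] at h5
      have h7 : 0 < 1 / (r : ℝ) := by positivity
      have h8 : 0 < nd ((u : ℝ) / r * m) := by linarith
      have h9 : nd ((u : ℝ) / r * m) ≤ 2 * nd (θ * m) := by linarith
      unfold gm
      rw [if_neg (by intro h; rw [h] at h9; linarith)]
      refine (min_le_right _ _).trans ?_
      exact one_div_le_one_div_of_le h8 h9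
    have hmaps : ∀ m ∈ (Ico M (2 * M)).filter (fun m => ¬ r ∣ m), J m ∈ Ico 1 r := by
      intro m hm
      rw [Finset.mem_Ico]
      exact ⟨hJ1 m hm, (nd_frac u m r hr (J m) (hJe m) (hJ1 m hm)).1⟩
    calc ∑ m ∈ (Ico M (2 * M)).filter (fun m => ¬ r ∣ m), gm (L : ℝ) (θ * m)
        ≤ ∑ m ∈ (Ico M (2 * M)).filter (fun m => ¬ r ∣ m),
          (r : ℝ) * (1 / (J m : ℝ) + 1 / ((r - J m : ℕ) : ℝ)) := Finset.sum_le_sum hterm
      _ = ∑ j ∈ Ico 1 r, ∑ m ∈ ((Ico M (2 * M)).filter (fun m => ¬ r ∣ m)).filter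
          (fun m => J m = j), (r : ℝ) * (1 / (J m : ℝ) + 1 / ((r - J m : ℕ) : ℝ)) := by
          rw [Finset.sum_fiberwise_of_maps_to hmaps]
      _ ≤ ∑ j ∈ Ico 1 r, (M / r + 1) * ((r : ℝ) * (1 / (j : ℝ) + 1 / ((r - j : ℕ) : ℝ))) := by
          refine Finset.sum_le_sum fun j _ => ?_
          have e : ∑ m ∈ ((Ico M (2 * M)).filter (fun m => ¬ r ∣ m)).filter (fun m => J m = j),
              (r : ℝ) * (1 / (J m : ℝ) + 1 / ((r - J m : ℕ) : ℝ)) =
              ((((Ico M (2 * M)).filter (fun m => ¬ r ∣ m)).filter (fun m => J m = j)).card : ℝ) *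
                ((r : ℝ) * (1 / (j : ℝ) + 1 / ((r - j : ℕ) : ℝ))) := by
            rw [← nsmul_eq_mul, ← Finset.sum_const]
            refine Finset.sum_congr rfl fun m hm => ?_
            rw [(Finset.mem_filter.1 hm).2]
          rw [e]
          refine mul_le_mul_of_nonneg_right ?_ (by positivity)
          refine count M r hr _ ((Finset.filter_subset _ _).trans (Finset.filter_subset _ _)) ?_
          intro s hs t ht
          have h1 := (Finset.mem_filter.1 hs).2
          have h2 := (Finset.mem_filter.1 ht).2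
          have h3 : (u * s) % r = (u * t) % r := by rw [hJe, hJe, h1, h2]
          have h4 : (r : ℤ) ∣ u * (s - t) := by
            rw [mul_sub]
            exact Int.ModEq.dvd (Int.ModEq.symm h3)
          have h5 : (r : ℤ) ∣ s - t :=
            IsCoprime.dvd_of_dvd_mul_left (Int.isCoprime_iff_gcd_eq_one.2 hgcd).symm h4
          have h6 : ((t : ℤ)) % r = (s : ℤ) % r := Int.modEq_iff_dvd.2 h5
          exact_mod_cast h6.symm
      _ = (M / r + 1) * ∑ j ∈ Ico 1 r, (r : ℝ) * (1 / (j : ℝ) + 1 / ((r - j : ℕ) : ℝ)) := by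
          rw [Finset.mul_sum]
      _ ≤ (M / r + 1) * (2 * r * (1 + Real.log r)) :=
          mul_le_mul_of_nonneg_left (harm r) (by positivity)
      _ = 2 * (M + r) * (1 + Real.log r) := by
          field_simp
      _ ≤ 10 * M * (1 + Real.log (4 * M)) := by
          have h1 : (r : ℝ) ≤ 4 * M := by exact_mod_cast hrM
          have h2 : Real.log r ≤ Real.log (4 * M) := Real.log_le_log hr0 h1
          have h3 : 0 ≤ Real.log r := Real.log_nonneg (by exact_mod_cast hr)
          have h4 : 2 * ((M : ℝ) + r) ≤ 10 * M := by linarith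
          exact mul_le_mul h4 (by linarith) (by linarith) (by positivity)

end Pool.Agent.LMS
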