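import Pool.Agent.LMS.St
import Pool.Agent.SI.Box
import Pool.Agent.SI.HB

set_option autoImplicit false

/-! # LMS, module ML: minor windows for the function of von Mangoldt -/

namespace Pool.Agent.LMS

open Finset MeasureTheory
open Pool.Agent.GBQ (ee nd gm lam LamS rho pr Rough)
open Pool.Agent.SI (fac cof siz)

/-- Minor windows for the function of von Mangoldt. -/
theorem thm_ML (hTri : St_Tri) (hSel : St_Sel) : St_ML := by
  intro A C
  obtain ⟨C0, hBox⟩ := SI.thm_Box SI.thm_HB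
  obtain ⟨B, X1, hB⟩ := hSel (A + 17) C
  obtain ⟨X2, hX2⟩ := exists_nat_ge (Real.exp ((C0 : ℝ) ^ 4 * 2 ^ 16 + 1))
  refine ⟨B, max (max X1 X2) 2, ?_⟩
  intro X K α a q hX hKX hXK hg hα hBq hqB
  have hX1 : X1 ≤ X := le_trans (le_trans (le_max_left _ _) (le_max_left _ _)) hX
  have hX2' : X2 ≤ X := le_trans (le_trans (le_max_right _ _) (le_max_left _ _)) hX
  have h2 : 2 ≤ X := le_trans (le_max_right _ _) hX
  have hX0 : (0 : ℝ) < X := by exact_mod_cast (by omega : 0 < X)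
  set Lg := Real.log X with hLg
  have hL : (C0 : ℝ) ^ 4 * 2 ^ 16 + 1 ≤ Lg := by
    rw [hLg, Real.le_log_iff_exp_le hX0]
    exact hX2.trans (by exact_mod_cast hX2')
  have hC4 : (0 : ℝ) ≤ (C0 : ℝ) ^ 4 * 2 ^ 16 := by positivity
  have hL1 : 1 ≤ Lg := by linarith
  have hL0 : 0 < Lg := by linarith
  obtain ⟨Z, L, c, hZ, hLc, hl, hn⟩ := hBox X h2
  have hKK : K ≤ X := le_trans (Nat.le_self_pow (by decide) K) hKX
  have e1 : ms lam α K X = ms (fun n => ∑ l ∈ L, c l * cof Z l n) α K X := by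
    refine hTri.2 _ _ α K X ?_
    intro n h3 h4
    unfold lam
    exact hn n h3.le (by omega)
  rw [e1]
  refine (hTri.1 _ L c (cof Z) α K X).trans ?_
  set Q := (K : ℝ) ^ 2 * X / Lg ^ (A + 17) with hQ
  have hQ0 : 0 ≤ Q := by positivity
  have hsum : ∑ l ∈ L, c l ^ 2 * ms (cof Z l) α K X ≤ L.card * ((C0 : ℝ) ^ 2 * Q) := by
    rw [← nsmul_eq_mul]
    refine Finset.sum_le_card_nsmul _ _ _ ?_
    intro l hlL
    obtain ⟨k1, k2, k3, k4, k5, k6⟩ := hl l hlL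
    have k7 : ms (cof Z l) α K X ≤ Q := hB X K Z l α a q hX1 hKX hXK hg hα hBq hqB hZ k2 k3 k4 k5 k6
    have k8 : c l ^ 2 ≤ (C0 : ℝ) ^ 2 := by
      rw [← sq_abs]
      exact pow_le_pow_left₀ (abs_nonneg _) k1 2
    have k9 : 0 ≤ ms (cof Z l) α K X := by
      unfold ms
      positivity
    exact mul_le_mul k8 k7 k9 (by positivity)
  have hcard : (0 : ℝ) ≤ L.card := by positivity
  have hLc2 : (L.card : ℝ) ≤ C0 * (2 * Lg) ^ 8 := by
    refine hLc.trans ?_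
    refine mul_le_mul_of_nonneg_left ?_ (by positivity)
    refine pow_le_pow_left₀ (by linarith) ?_ 8
    linarith
  have hQ2 : Q * Lg ^ 17 = (K : ℝ) ^ 2 * X / Lg ^ A := by
    rw [hQ, pow_add]
    field_simp
  calc (L.card : ℝ) * ∑ l ∈ L, c l ^ 2 * ms (cof Z l) α K X
      ≤ L.card * (L.card * ((C0 : ℝ) ^ 2 * Q)) := mul_le_mul_of_nonneg_left hsum hcard
    _ = (L.card : ℝ) ^ 2 * ((C0 : ℝ) ^ 2 * Q) := by ring
    _ ≤ (C0 * (2 * Lg) ^ 8) ^ 2 * ((C0 : ℝ) ^ 2 * Q) :=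
        mul_le_mul_of_nonneg_right (pow_le_pow_left₀ hcard hLc2 2) (by positivity)
    _ = ((C0 : ℝ) ^ 4 * 2 ^ 16) * (Q * Lg ^ 16) := by ring
    _ ≤ Lg * (Q * Lg ^ 16) := mul_le_mul_of_nonneg_right (by linarith) (by positivity)
    _ = Q * Lg ^ 17 := by ring
    _ = (K : ℝ) ^ 2 * X / Lg ^ A := hQ2

end Pool.Agent.LMS
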