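import Pool.Agent.LMS.St
import Pool.Agent.GBQ.Basic

/-!
# LMS: Parseval for a period
-/

set_option autoImplicit false

namespace Pool.Agent.LMS

open Finset MeasureTheory
open Pool.Agent.GBQ (ee nd gm lam LamS rho pr Rough)

namespace ParX

/-- the integral of a nontrivial character over a period -/
theorem int_char (k : ℤ) (α : ℝ) :
    ∫ β in (-(1 / 2 : ℝ))..(1 / 2), ee ((α + β) * k) = if k = 0 then 1 else 0 := by
  split_ifs with h
  · subst h
    simp only [Int.cast_zero, mul_zero, Pool.Agent.GBQ.ee_zero]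
    simp
    norm_num
  · have hk : (2 * Real.pi * k * Complex.I : ℂ) ≠ 0 := by
      have h1 : (k : ℂ) ≠ 0 := by exact_mod_cast h
      have h2 : (Real.pi : ℂ) ≠ 0 := by exact_mod_cast Real.pi_ne_zero
      simp [h1, h2, Complex.I_ne_zero]
    have h3 : ∀ β : ℝ, ee ((α + β) * k) = ee (α * k) *
        Complex.exp ((2 * Real.pi * k * Complex.I) * β) := by
      intro β
      rw [add_mul, Pool.Agent.GBQ.ee_add]
      congr 1
      unfold Pool.Agent.GBQ.ee
      congr 1
      push_cast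
      ring
    simp_rw [h3]
    rw [intervalIntegral.integral_const_mul, integral_exp_mul_complex hk]
    have h4 : Complex.exp ((2 * Real.pi * k * Complex.I) * ((1 / 2 : ℝ) : ℂ)) =
        Complex.exp ((2 * Real.pi * k * Complex.I) * ((-(1 / 2) : ℝ) : ℂ)) := by
      rw [Complex.exp_eq_exp_iff_exists_int]
      refine ⟨k, ?_⟩
      push_cast
      ring
    rw [h4, sub_self, zero_div, mul_zero]

/-- the square of the absolute value of an exponential sum as a double sum -/
theorem sq_eq (c : ℕ → ℝ) (N d : ℕ) (θ : ℝ) :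
    ((‖∑ n ∈ Icc 1 N, ((c n : ℝ) : ℂ) * ee (θ * (d * n : ℕ))‖ ^ 2 : ℝ) : ℂ) =
      ∑ n ∈ Icc 1 N, ∑ m ∈ Icc 1 N, ((c n * c m : ℝ) : ℂ) *
        ee (θ * (((d * n : ℕ) : ℤ) - ((d * m : ℕ) : ℤ) : ℤ)) := by
  rw [← Complex.normSq_eq_norm_sq, ← Complex.mul_conj, map_sum, Finset.sum_mul_sum]
  refine Finset.sum_congr rfl fun n _ => Finset.sum_congr rfl fun m _ => ?_
  rw [map_mul, Complex.conj_ofReal, ← Pool.Agent.GBQ.ee_neg]
  have h : θ * ((((d * n : ℕ) : ℤ) - ((d * m : ℕ) : ℤ) : ℤ) : ℝ) =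
      θ * ((d * n : ℕ) : ℝ) + -(θ * ((d * m : ℕ) : ℝ)) := by
    push_cast
    ring
  rw [h, Pool.Agent.GBQ.ee_add]
  push_cast
  ring

theorem cont (k : ℤ) (α : ℝ) : Continuous fun β : ℝ => ee ((α + β) * k) := by
  unfold Pool.Agent.GBQ.ee
  fun_prop

end ParX

open ParX in
theorem thm_Par : St_Par := by
  intro c N d α hd
  have key : ((∫ β in (-(1 / 2 : ℝ))..(1 / 2),
      ‖∑ n ∈ Icc 1 N, ((c n : ℝ) : ℂ) * ee ((α + β) * (d * n : ℕ))‖ ^ 2 : ℝ) : ℂ) =
      ((∑ n ∈ Icc 1 N, c n ^ 2 : ℝ) : ℂ) := by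
    rw [← intervalIntegral.integral_ofReal]
    simp_rw [sq_eq]
    have hc1 : ∀ n m : ℕ, Continuous fun β : ℝ => ((c n * c m : ℝ) : ℂ) *
        ee ((α + β) * (((d * n : ℕ) : ℤ) - ((d * m : ℕ) : ℤ) : ℤ)) :=
      fun n m => Continuous.mul continuous_const (cont _ α)
    have hc2 : ∀ n : ℕ, Continuous fun β : ℝ => ∑ m ∈ Icc 1 N, ((c n * c m : ℝ) : ℂ) *
        ee ((α + β) * (((d * n : ℕ) : ℤ) - ((d * m : ℕ) : ℤ) : ℤ)) :=
      fun n => continuous_finsetSum _ fun m _ => hc1 n m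
    rw [intervalIntegral.integral_finsetSum (fun n _ => (hc2 n).intervalIntegrable _ _)]
    rw [Complex.ofReal_sum]
    refine Finset.sum_congr rfl fun n hn => ?_
    rw [intervalIntegral.integral_finsetSum (fun m _ => (hc1 n m).intervalIntegrable _ _)]
    rw [Finset.sum_eq_single n]
    · rw [intervalIntegral.integral_const_mul, int_char, if_pos (by ring)]
      push_cast
      ring
    · intro m _ hmn
      rw [intervalIntegral.integral_const_mul, int_char, if_neg, mul_zero]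
      intro h
      apply hmn
      have h1 : ((d * n : ℕ) : ℤ) = ((d * m : ℕ) : ℤ) := by linarith
      have h2 : d * n = d * m := by exact_mod_cast h1
      exact (Nat.eq_of_mul_eq_mul_left hd h2).symm
    · intro h
      exact absurd hn h
  exact_mod_cast key

end Pool.Agent.LMS
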