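import Pool.Agent.LMS.St

/-!
# LMS, module Per (helper26): `cof` does not depend on the order of the factors
-/

set_option autoImplicit false

namespace Pool.Agent.LMS

open Finset
open Pool.Agent.SI (fac cof siz)

/-- a factor as an arithmetic function -/
private noncomputable def PerX_f (Z : ℕ) (p : ℕ × ℕ) : ArithmeticFunction ℝ :=
  ⟨fac p.1 Z p.2, by
    unfold fac
    rw [if_neg]
    rintro ⟨h, -⟩
    exact absurd h (Nat.not_le.2 (Nat.two_pow_pos _))⟩

private theorem PerX_f_apply (Z : ℕ) (p : ℕ × ℕ) (n : ℕ) : PerX_f Z p n = fac p.1 Z p.2 n := rfl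

private theorem PerX_cof (Z : ℕ) (l : List (ℕ × ℕ)) (n : ℕ) :
    cof Z l n = (l.map (PerX_f Z)).prod n := by
  induction l generalizing n with
  | nil =>
    rw [List.map_nil, List.prod_nil, ArithmeticFunction.one_apply]
    rfl
  | cons p l ih =>
    rw [List.map_cons, List.prod_cons, ArithmeticFunction.mul_apply,
      Nat.sum_divisorsAntidiagonal
        (fun d e => PerX_f Z p d * ((l.map (PerX_f Z)).prod : ArithmeticFunction ℝ) e)]
    show ∑ d ∈ n.divisors, fac p.1 Z p.2 d * cof Z l (n / d) = _
    refine sum_congr rfl fun d _ => ?_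
    rw [ih, PerX_f_apply]

theorem thm_Per : St_Per := by
  intro Z l l' h n
  rw [PerX_cof, PerX_cof, (h.map (PerX_f Z)).prod_eq]

end Pool.Agent.LMS
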