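import Pool.Agent.LMS.St

/-!
# LMS, module Pw: pointwise bound for the exponential sum of two smooth factors
-/

set_option autoImplicit false

namespace Pool.Agent.LMS

open Finset
open Pool.Agent.GBQ (ee nd gm lam LamS rho pr Rough)
open Pool.Agent.SI (fac cof siz)

namespace PwX

theorem norm_ee (x : ℝ) : ‖ee x‖ = 1 := by
  unfold Pool.Agent.GBQ.ee
  exact Complex.norm_exp_ofReal_mul_I _

theorem ee_add (x y : ℝ) : ee (x + y) = ee x * ee y := by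
  unfold Pool.Agent.GBQ.ee
  rw [← Complex.exp_add]
  congr 1
  push_cast
  ring

theorem nd_nonneg (θ : ℝ) : 0 ≤ nd θ := abs_nonneg _

theorem sin_eq (θ : ℝ) : |Real.sin (Real.pi * θ)| = Real.sin (Real.pi * nd θ) := by
  have hle : nd θ ≤ 1 / 2 := abs_sub_round θ
  have h1 : Real.pi * θ = Real.pi * (θ - round θ) + (round θ : ℤ) * Real.pi := by ring
  have h2 : |Real.sin (Real.pi * θ)| = |Real.sin (Real.pi * (θ - round θ))| := by
    rw [h1, Real.sin_add_int_mul_pi, abs_mul]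
    have h3 : |((-1 : ℝ) ^ (round θ : ℤ))| = 1 := by
      rw [abs_zpow, abs_neg, abs_one, one_zpow]
    rw [h3, one_mul]
  have h4 : 0 ≤ Real.sin (Real.pi * nd θ) := by
    apply Real.sin_nonneg_of_nonneg_of_le_pi
    · exact mul_nonneg Real.pi_pos.le (nd_nonneg θ)
    · nlinarith [Real.pi_pos]
  rw [h2]
  rcases abs_cases (θ - round θ) with ⟨h5, _⟩ | ⟨h5, _⟩
  · unfold Pool.Agent.GBQ.nd at h4 ⊢
    rw [h5] at h4 ⊢
    exact abs_of_nonneg h4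
  · unfold Pool.Agent.GBQ.nd at h4 ⊢
    rw [h5] at h4 ⊢
    rw [mul_neg, Real.sin_neg] at h4 ⊢
    rw [← abs_neg, abs_of_nonneg h4]

theorem sin_ge (θ : ℝ) : 2 * nd θ ≤ |Real.sin (Real.pi * θ)| := by
  have hle : nd θ ≤ 1 / 2 := abs_sub_round θ
  rw [sin_eq]
  have h1 := Real.mul_le_sin (x := Real.pi * nd θ)
    (mul_nonneg Real.pi_pos.le (nd_nonneg θ)) (by nlinarith [Real.pi_pos])
  have h2 : 2 / Real.pi * (Real.pi * nd θ) = 2 * nd θ := by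
    field_simp
  rwa [h2] at h1

theorem norm_sub (θ : ℝ) : 4 * nd θ ≤ ‖ee θ - 1‖ := by
  have h1 : ee θ = Complex.exp (Complex.I * ((2 * Real.pi * θ : ℝ) : ℂ)) := by
    unfold Pool.Agent.GBQ.ee
    rw [mul_comm]
  rw [h1, Complex.norm_exp_I_mul_ofReal_sub_one, norm_mul, Real.norm_eq_abs, Real.norm_eq_abs,
    abs_two, show 2 * Real.pi * θ / 2 = Real.pi * θ by ring]
  have := sin_ge θ
  linarith

theorem gm_mono {K L : ℝ} (h : K ≤ L) (θ : ℝ) : gm K θ ≤ gm L θ := by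
  unfold Pool.Agent.GBQ.gm
  split_ifs
  · exact h
  · exact min_le_min_right _ h

theorem gm_nonneg {K : ℝ} (h : 0 ≤ K) (θ : ℝ) : 0 ≤ gm K θ := by
  unfold Pool.Agent.GBQ.gm
  split_ifs
  · exact h
  · exact le_min h (by have := nd_nonneg θ; positivity)

/-- geometric sums -/
theorem geo (u v : ℕ) (θ : ℝ) (h : u ≤ v) : ‖∑ n ∈ Ico u v, ee (θ * n)‖ ≤ gm ((v : ℝ) - u) θ := by
  have h1 : ‖∑ n ∈ Ico u v, ee (θ * n)‖ ≤ (v : ℝ) - u := by
    refine (norm_sum_le _ _).trans (le_of_eq ?_)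
    simp only [norm_ee]
    rw [Finset.sum_const, Nat.card_Ico, nsmul_eq_mul, mul_one, Nat.cast_sub h]
  have h2 : (ee θ - 1) * ∑ n ∈ Ico u v, ee (θ * n) = ee (θ * v) - ee (θ * u) := by
    induction v, h using Nat.le_induction with
    | base => simp
    | succ v hv ih =>
      have h1' : ‖∑ n ∈ Ico u v, ee (θ * n)‖ ≤ (v : ℝ) - u := by
        refine (norm_sum_le _ _).trans (le_of_eq ?_)
        simp only [norm_ee]
        rw [Finset.sum_const, Nat.card_Ico, nsmul_eq_mul, mul_one, Nat.cast_sub hv]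
      rw [Finset.sum_Ico_succ_top hv, mul_add, ih h1']
      have h3 : ee (θ * ((v + 1 : ℕ) : ℝ)) = ee θ * ee (θ * v) := by
        rw [← ee_add]
        congr 1
        push_cast
        ring
      rw [h3]
      ring
  unfold Pool.Agent.GBQ.gm
  split_ifs with h0
  · exact h1
  · refine le_min h1 ?_
    have h3 : 0 < nd θ := lt_of_le_of_ne (nd_nonneg θ) (Ne.symm h0)
    have h4 : ‖ee θ - 1‖ * ‖∑ n ∈ Ico u v, ee (θ * n)‖ ≤ 2 := by
      rw [← norm_mul, h2]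
      refine (norm_sub_le _ _).trans ?_
      rw [norm_ee, norm_ee]
      norm_num
    have h5 := norm_sub θ
    rw [le_div_iff₀ (by positivity)]
    have h6 := mul_le_mul_of_nonneg_right h5 (norm_nonneg (∑ n ∈ Ico u v, ee (θ * n)))
    nlinarith

/-- the values of the smooth factors -/
theorem fac_val {k : ℕ} (hk : k ≤ 1) (Z i n : ℕ) (h1 : 2 ^ i ≤ n) (h2 : n < 2 ^ (i + 1)) :
    fac k Z i n = if k = 0 then 1 else Real.log n := by
  unfold Pool.Agent.SI.fac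
  rw [if_pos ⟨h1, h2⟩]
  rcases Nat.eq_zero_or_pos k with h3 | h3
  · rw [if_pos h3, if_pos h3]
  · have h4 : k = 1 := by omega
    subst h4
    simp

theorem fac_bd {k : ℕ} (hk : k ≤ 1) (Z i n : ℕ) (h1 : 2 ^ i ≤ n) (h2 : n < 2 ^ (i + 1)) :
    0 ≤ fac k Z i n ∧ fac k Z i n ≤ (i : ℝ) + 1 := by
  rw [fac_val hk Z i n h1 h2]
  have hn : 1 ≤ n := le_trans (Nat.one_le_two_pow) h1
  split_ifs with h3
  · exact ⟨zero_le_one, by have : (0 : ℝ) ≤ i := Nat.cast_nonneg i; linarith⟩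
  · refine ⟨Real.log_nonneg (by exact_mod_cast hn), ?_⟩
    have h4 : Real.log n ≤ Real.log ((2 : ℝ) ^ (i + 1)) :=
      Real.log_le_log (by exact_mod_cast hn) (by exact_mod_cast h2.le)
    rw [Real.log_pow] at h4
    have h5 : Real.log 2 ≤ 1 := by
      have := Real.log_two_lt_d9
      linarith
    have h6 : (0 : ℝ) ≤ (i + 1 : ℕ) := Nat.cast_nonneg _
    have h7 := mul_le_mul_of_nonneg_left h5 h6
    push_cast at h4 h7
    linarith

theorem fac_mono {k : ℕ} (hk : k ≤ 1) (Z i n : ℕ) (h1 : 2 ^ i ≤ n) (h2 : n + 1 < 2 ^ (i + 1)) :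
    fac k Z i n ≤ fac k Z i (n + 1) := by
  rw [fac_val hk Z i n h1 (by omega), fac_val hk Z i (n + 1) (by omega) h2]
  have hn : 1 ≤ n := le_trans (Nat.one_le_two_pow) h1
  split_ifs with h3
  · exact le_rfl
  · exact Real.log_le_log (by exact_mod_cast hn) (by push_cast; linarith)

theorem fac_zero {k : ℕ} (Z i n : ℕ) (h : n ∉ Ico (2 ^ i) (2 ^ (i + 1))) : fac k Z i n = 0 := by
  unfold Pool.Agent.SI.fac
  rw [if_neg]
  rwa [Finset.mem_Ico] at h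

/-- the sum of a convolution over dyadic ranges -/
theorem conv (a b : ℕ → ℝ) (A A' B B' T : ℕ) (g : ℕ → ℂ) (hA : 1 ≤ A) (hB : 1 ≤ B)
    (ha : ∀ n, n ∉ Ico A A' → a n = 0) (hb : ∀ n, n ∉ Ico B B' → b n = 0) (hT : A' * B' ≤ T) :
    ∑ n ∈ Icc 1 T, ((cv a b n : ℝ) : ℂ) * g n =
      ∑ m ∈ Ico A A', ((a m : ℝ) : ℂ) * ∑ l ∈ Ico B B', ((b l : ℝ) : ℂ) * g (m * l) := by
  have h1 : ∑ m ∈ Ico A A', ((a m : ℝ) : ℂ) * ∑ l ∈ Ico B B', ((b l : ℝ) : ℂ) * g (m * l) =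
      ∑ x ∈ Ico A A' ×ˢ Ico B B', ((a x.1 : ℝ) : ℂ) * ((b x.2 : ℝ) : ℂ) * g (x.1 * x.2) := by
    rw [Finset.sum_product]
    refine Finset.sum_congr rfl fun m _ => ?_
    rw [Finset.mul_sum]
    exact Finset.sum_congr rfl fun l _ => by ring
  rw [h1]
  have h2 : ∀ x ∈ Ico A A' ×ˢ Ico B B', x.1 * x.2 ∈ Icc 1 T := by
    intro x hx
    rw [Finset.mem_product, Finset.mem_Ico, Finset.mem_Ico] at hx
    rw [Finset.mem_Icc]
    refine ⟨Nat.mul_pos (by omega) (by omega), ?_⟩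
    exact (Nat.mul_le_mul hx.1.2.le hx.2.2.le).trans hT
  rw [← Finset.sum_fiberwise_of_maps_to h2]
  refine Finset.sum_congr rfl fun n hn => ?_
  have hn0 : n ≠ 0 := by
    rw [Finset.mem_Icc] at hn
    omega
  unfold cv
  rw [← Nat.sum_divisorsAntidiagonal (fun d e => a d * b e), Complex.ofReal_sum,
    Finset.sum_mul]
  symm
  have h3 : (Ico A A' ×ˢ Ico B B').filter (fun x => x.1 * x.2 = n) ⊆ n.divisorsAntidiagonal := by
    intro x hx
    rw [Finset.mem_filter] at hx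
    exact Nat.mem_divisorsAntidiagonal.2 ⟨hx.2, hn0⟩
  rw [← Finset.sum_subset h3]
  · refine Finset.sum_congr rfl fun x hx => ?_
    rw [Finset.mem_filter] at hx
    rw [hx.2]
    push_cast
    ring
  · intro x hx hx'
    have h4 : x.1 * x.2 = n := (Nat.mem_divisorsAntidiagonal.1 hx).1
    have h5 : x.1 ∉ Ico A A' ∨ x.2 ∉ Ico B B' := by
      by_contra hcon
      push Not at hcon
      exact hx' (Finset.mem_filter.2 ⟨Finset.mem_product.2 hcon, h4⟩)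
    rcases h5 with h5 | h5
    · rw [ha _ h5]
      simp
    · rw [hb _ h5]
      simp

end PwX

theorem thm_Pw (hAbl : St_Abl) : St_Pw := by
  intro Z k1 k2 i1 i2 θ hk1 hk2
  have e1 : 2 ^ (i1 + 1) * 2 ^ (i2 + 1) ≤ 2 ^ (i1 + i2 + 2) := by
    rw [← pow_add]
    exact Nat.pow_le_pow_right (by norm_num) (by omega)
  rw [PwX.conv (fac k1 Z i1) (fac k2 Z i2) (2 ^ i1) (2 ^ (i1 + 1)) (2 ^ i2) (2 ^ (i2 + 1))
    (2 ^ (i1 + i2 + 2)) (fun n => ee (θ * n)) Nat.one_le_two_pow Nat.one_le_two_pow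
    (fun n hn => PwX.fac_zero Z i1 n hn) (fun n hn => PwX.fac_zero Z i2 n hn) e1]
  have e2 : ∀ i : ℕ, 2 * 2 ^ i = 2 ^ (i + 1) := fun i => by rw [pow_succ']
  have hin : ∀ m : ℕ, ‖∑ l ∈ Ico (2 ^ i2) (2 ^ (i2 + 1)), ((fac k2 Z i2 l : ℝ) : ℂ) *
      ee (θ * ((m * l : ℕ) : ℝ))‖ ≤ 2 * (i2 + 1) * gm (2 ^ i2 : ℕ) (θ * m) := by
    intro m
    have hG : 0 ≤ gm (((2 ^ i2 : ℕ) : ℝ)) (θ * m) := PwX.gm_nonneg (Nat.cast_nonneg _) _
    have h1 := hAbl (2 ^ i2) (2 ^ (i2 + 1)) (fac k2 Z i2) (fun l => ee (θ * ((m * l : ℕ) : ℝ)))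
      ((i2 : ℝ) + 1) (gm (((2 ^ i2 : ℕ) : ℝ)) (θ * m)) hG
      (fun l h1 h2 => PwX.fac_bd hk2 Z i2 l h1 h2) ?_
      (Or.inr fun l h1 h2 => PwX.fac_mono hk2 Z i2 l h1 h2)
    · rw [max_eq_left (by positivity)] at h1
      exact h1
    · intro j hj1 hj2
      have h2 := PwX.geo (2 ^ i2) j (θ * m) hj1
      have h3 : ∑ l ∈ Ico (2 ^ i2) j, ee (θ * ((m * l : ℕ) : ℝ)) =
          ∑ l ∈ Ico (2 ^ i2) j, ee (θ * m * l) := by
        refine Finset.sum_congr rfl fun l _ => ?_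
        congr 1
        push_cast
        ring
      rw [h3]
      refine h2.trans (PwX.gm_mono ?_ _)
      have h4 : j ≤ 2 ^ i2 + 2 ^ i2 := by
        have := e2 i2
        omega
      have h5 : (j : ℝ) ≤ ((2 ^ i2 : ℕ) : ℝ) + ((2 ^ i2 : ℕ) : ℝ) := by exact_mod_cast h4
      linarith
  refine (norm_sum_le _ _).trans ?_
  unfold gs
  rw [Finset.mul_sum, e2]
  refine Finset.sum_le_sum fun m hm => ?_
  rw [Finset.mem_Ico] at hm
  rw [norm_mul, Complex.norm_real, Real.norm_eq_abs]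
  obtain ⟨f0, f1⟩ := PwX.fac_bd hk1 Z i1 m hm.1 hm.2
  rw [abs_of_nonneg f0]
  have h1 := hin m
  have hG : 0 ≤ gm (((2 ^ i2 : ℕ) : ℝ)) (θ * m) := PwX.gm_nonneg (Nat.cast_nonneg _) _
  calc fac k1 Z i1 m * ‖∑ l ∈ Ico (2 ^ i2) (2 ^ (i2 + 1)), ((fac k2 Z i2 l : ℝ) : ℂ) *
      ee (θ * ((m * l : ℕ) : ℝ))‖
      ≤ ((i1 : ℝ) + 1) * (2 * (i2 + 1) * gm (2 ^ i2 : ℕ) (θ * m)) :=
        mul_le_mul f1 h1 (norm_nonneg _) (by positivity)
    _ = 2 * (i1 + 1) * (i2 + 1) * gm (2 ^ i2 : ℕ) (θ * m) := by ring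

end Pool.Agent.LMS
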