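import Pool.Agent.LMS.St

set_option autoImplicit false

/-!
# LMS: denominators near `d α`
-/

namespace Pool.Agent.LMS

open Finset

theorem thm_Rm : St_Rm := by
  intro M D R0 d q r a u α τ hM hd hdD hq hqM hDR hτR hτ hgcd hα hr hgu hdu
  by_contra hcon
  rw [not_le] at hcon
  have hM0 : (0 : ℝ) < M := by exact_mod_cast hM
  have hq0 : (0 : ℝ) < q := by exact_mod_cast hq
  have hr0 : (0 : ℝ) < r := by exact_mod_cast hr
  have hd0 : (0 : ℝ) < d := by exact_mod_cast hd
  have hdD' : (d : ℝ) ≤ D := by exact_mod_cast hdD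
  have hrR : (r : ℝ) ≤ R0 := by exact_mod_cast hcon.le
  have hqM' : (q : ℝ) ≤ M := by exact_mod_cast hqM
  have hDR' : 4 * ((D : ℝ) * R0) ≤ q := by exact_mod_cast hDR
  by_cases he : (d : ℤ) * a * r = u * q
  · have h1 : (q : ℤ) ∣ a * ((d : ℤ) * r) := ⟨u, by rw [mul_comm (q : ℤ) u, ← he]; ring⟩
    have h2 : (q : ℤ) ∣ (d : ℤ) * r := by
      refine IsCoprime.dvd_of_dvd_mul_left ?_ h1
      exact (Int.isCoprime_iff_gcd_eq_one.2 hgcd).symm
    have h3 : q ∣ d * r := by exact_mod_cast h2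
    have h4 : q ≤ d * r := Nat.le_of_dvd (Nat.mul_pos hd hr) h3
    have h5 : d * r ≤ D * R0 := Nat.mul_le_mul hdD hcon.le
    omega
  · have h1 : 1 / ((q : ℝ) * r) ≤ |(d : ℝ) * (a / q) - u / r| := by
      have e : (d : ℝ) * (a / q) - u / r = (((d : ℤ) * a * r - u * q : ℤ) : ℝ) / (q * r) := by
        push_cast
        field_simp
      rw [e, abs_div, abs_of_pos (mul_pos hq0 hr0)]
      refine div_le_div_of_nonneg_right ?_ (mul_pos hq0 hr0).le
      have h2 : (1 : ℤ) ≤ |(d : ℤ) * a * r - u * q| := Int.one_le_abs (sub_ne_zero.2 he)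
      rw [← Int.cast_abs]
      exact_mod_cast h2
    have h2 : |(d : ℝ) * (a / q) - u / r| ≤ D / (q : ℝ) ^ 2 + (τ + 1 / (4 * M * r)) := by
      have e : (d : ℝ) * (a / q) - u / r = -(d * (α - a / q)) + (d * α - u / r) := by ring
      rw [e]
      refine (abs_add_le _ _).trans (add_le_add ?_ hdu)
      rw [abs_neg, abs_mul, abs_of_pos hd0]
      calc (d : ℝ) * |α - a / q| ≤ D * (1 / (q : ℝ) ^ 2) := by gcongr
        _ = D / (q : ℝ) ^ 2 := by ring
    have h3 : 1 ≤ (q : ℝ) * r * (D / (q : ℝ) ^ 2 + (τ + 1 / (4 * M * r))) := by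
      have h4 := h1.trans h2
      rw [div_le_iff₀ (mul_pos hq0 hr0)] at h4
      linarith
    have h5 : (q : ℝ) * r * (D / (q : ℝ) ^ 2 + (τ + 1 / (4 * M * r))) =
        D * r / q + q * r * τ + q / (4 * M) := by
      field_simp
      ring
    rw [h5] at h3
    have h6 : (D : ℝ) * r / q ≤ 1 / 4 := by
      rw [div_le_div_iff₀ hq0 (by norm_num)]
      have : (D : ℝ) * r ≤ D * R0 := by gcongr
      linarith
    have h7 : (q : ℝ) * r * τ ≤ 1 / 4 := by
      refine le_trans ?_ hτR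
      gcongr
    have h8 : (q : ℝ) / (4 * M) ≤ 1 / 4 := by
      rw [div_le_div_iff₀ (by positivity) (by norm_num)]
      linarith
    linarith

end Pool.Agent.LMS
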