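import Pool.Agent.LMS.St

/-!
# LMS: every product of the box decomposition in the minor windows
-/

set_option autoImplicit false

namespace Pool.Agent.LMS

open Finset MeasureTheory
open Pool.Agent.GBQ (ee nd gm lam LamS rho pr Rough)
open Pool.Agent.SI (fac cof siz)

namespace SelX

theorem large (M : ℝ) (E : ℕ) :
    ∃ X₀ : ℕ, ∀ X : ℕ, X₀ ≤ X → M ≤ Real.log X ∧ Real.log X ^ E ≤ X := by
  have h1 : ∀ᶠ x : ℝ in Filter.atTop, M ≤ Real.log x :=
    Real.tendsto_log_atTop.eventually_ge_atTop M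
  have h2 : ∀ᶠ x : ℝ in Filter.atTop, ‖Real.log x ^ E‖ ≤ 1 * ‖id x‖ :=
    (Real.isLittleO_pow_log_id_atTop (n := E)).bound one_pos
  obtain ⟨x₀, hx⟩ := Filter.eventually_atTop.1 (h1.and h2)
  refine ⟨⌈max x₀ 1⌉₊, fun X hX => ?_⟩
  have h3 : max x₀ 1 ≤ X := Nat.ceil_le.1 hX
  obtain ⟨h4, h5⟩ := hx X ((le_max_left _ _).trans h3)
  refine ⟨h4, ?_⟩
  rw [one_mul, Real.norm_eq_abs, Real.norm_eq_abs] at h5
  refine (le_abs_self _).trans (h5.trans ?_)
  show |(X : ℝ)| ≤ X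
  rw [Nat.abs_cast]

theorem siz_erase (l : List (ℕ × ℕ)) (x : ℕ × ℕ) (h : x ∈ l) :
    siz l = x.2 + siz (l.erase x) := by
  unfold siz
  have := ((List.perm_cons_erase h).map Prod.snd).sum_eq
  rw [this, List.map_cons, List.sum_cons]

theorem siz_small (T : ℝ) (hT : 1 ≤ T) : ∀ l : List (ℕ × ℕ), (∀ x ∈ l, (2 : ℝ) ^ x.2 ≤ T) →
    (2 : ℝ) ^ siz l ≤ T ^ l.length
  | [], _ => by simp [siz]
  | x :: l, h => by
    have h1 := siz_small T hT l fun y hy => h y (List.mem_cons_of_mem _ hy)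
    have h2 := h x List.mem_cons_self
    have : siz (x :: l) = x.2 + siz l := by simp [siz]
    rw [this, pow_add, List.length_cons, pow_succ']
    exact mul_le_mul h2 h1 (by positivity) (by linarith)

theorem cof_zero (Z : ℕ) : ∀ (l : List (ℕ × ℕ)) (x : ℕ × ℕ), x ∈ l → 2 ≤ x.1 → Z < 2 ^ x.2 →
    ∀ n, cof Z l n = 0
  | [], x, h, _, _, _ => by simp at h
  | (k, i) :: l, x, h, h2, hZ, n => by
    show ∑ d ∈ n.divisors, fac k Z i d * cof Z l (n / d) = 0
    refine Finset.sum_eq_zero fun d _ => ?_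
    rcases List.mem_cons.1 h with h' | h'
    · have : fac k Z i d = 0 := by
        rw [h'] at h2 hZ
        simp only at h2 hZ
        unfold fac
        by_cases hd : 2 ^ i ≤ d ∧ d < 2 ^ (i + 1)
        · rw [if_pos hd, if_neg (by omega), if_neg (by omega), if_neg (by omega)]
        · rw [if_neg hd]
      rw [this, zero_mul]
    · rw [cof_zero Z l x h' h2 hZ, mul_zero]

theorem ms_zero (c : ℕ → ℝ) (hc : ∀ n, c n = 0) (α : ℝ) (K X : ℕ) : ms c α K X = 0 := by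
  unfold ms ws
  refine Finset.sum_eq_zero fun x _ => ?_
  rw [Finset.sum_eq_zero fun n _ => by rw [hc n, Complex.ofReal_zero, zero_mul]]
  simp

theorem pw (L Y : ℝ) (hL : 1 ≤ L) (hY : 0 ≤ Y) (e A B : ℕ) (h : e + A ≤ B) :
    L ^ e * Y / L ^ B ≤ Y / L ^ A := by
  have hL0 : 0 < L := by linarith
  rw [div_le_div_iff₀ (by positivity) (by positivity)]
  have h1 : L ^ (e + A) ≤ L ^ B := pow_le_pow_right₀ hL h
  calc L ^ e * Y * L ^ A = Y * L ^ (e + A) := by rw [pow_add]; ring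
    _ ≤ Y * L ^ B := mul_le_mul_of_nonneg_left h1 hY

theorem ineq_d (J w k s p b : ℝ) (hJ : 0 ≤ J) (hk : 0 < k) (hs : 0 < s) (hp : 0 < p)
    (hb : 0 < b) (h1 : J ≤ b) (h2 : w ≤ 3 * s ^ 2) (h3 : s ≤ k * p) (h4 : 3 * b ^ 2 * p ≤ s) :
    w * J / k ≤ s ^ 2 / b := by
  rw [div_le_div_iff₀ hk hb]
  have e1 : w * J * b ≤ 3 * s ^ 2 * b * b := by
    refine mul_le_mul_of_nonneg_right (mul_le_mul h2 h1 hJ (by positivity)) hb.le
  have e2 : 3 * s ^ 2 * b * b * p ≤ s ^ 2 * k * p := by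
    calc 3 * s ^ 2 * b * b * p = (3 * b ^ 2 * p) * s ^ 2 := by ring
      _ ≤ s * s ^ 2 := mul_le_mul_of_nonneg_right h4 (by positivity)
      _ ≤ (k * p) * s ^ 2 := mul_le_mul_of_nonneg_right h3 (by positivity)
      _ = s ^ 2 * k * p := by ring
  exact e1.trans (le_of_mul_le_mul_right e2 hp)

theorem ineq_e (J w k s p t b : ℝ) (hw : 0 ≤ w) (hk : 0 < k) (hs : 0 < s) (hp : 0 < p)
    (hb : 0 < b) (h1 : J ≤ b) (h2 : w * k ≤ 3 * s ^ 2 * t) (h3 : s ≤ k * p)
    (h4 : 9 * b ^ 2 * t ^ 2 * p ^ 3 ≤ s) : J * w ^ 2 / k ≤ s ^ 2 / b := by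
  rw [div_le_div_iff₀ hk hb]
  have e1 : J * w ^ 2 * b * k ^ 2 ≤ b * b * (3 * s ^ 2 * t) ^ 2 := by
    have h5 : (w * k) ^ 2 ≤ (3 * s ^ 2 * t) ^ 2 := pow_le_pow_left₀ (by positivity) h2 2
    calc J * w ^ 2 * b * k ^ 2 = J * b * (w * k) ^ 2 := by ring
      _ ≤ b * b * (3 * s ^ 2 * t) ^ 2 :=
        mul_le_mul (mul_le_mul_of_nonneg_right h1 hb.le) h5 (by positivity) (by positivity)
  have e2 : s ^ 3 ≤ (k * p) ^ 3 := pow_le_pow_left₀ hs.le h3 3
  have e3 : b * b * (3 * s ^ 2 * t) ^ 2 ≤ s ^ 2 * k * k ^ 2 := by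
    have e4 : b * b * (3 * s ^ 2 * t) ^ 2 * p ^ 3 ≤ s ^ 2 * k * k ^ 2 * p ^ 3 := by
      calc b * b * (3 * s ^ 2 * t) ^ 2 * p ^ 3 = (9 * b ^ 2 * t ^ 2 * p ^ 3) * s ^ 4 := by ring
        _ ≤ s * s ^ 4 := mul_le_mul_of_nonneg_right h4 (by positivity)
        _ = s ^ 2 * s ^ 3 := by ring
        _ ≤ s ^ 2 * (k * p) ^ 3 := mul_le_mul_of_nonneg_left e2 (by positivity)
        _ = s ^ 2 * k * k ^ 2 * p ^ 3 := by ring
    exact le_of_mul_le_mul_right e4 (by positivity)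
  exact le_of_mul_le_mul_right (e1.trans e3) (by positivity)

theorem siz_le (m X : ℕ) (L : ℝ) (hL : L = Real.log X) (hL1 : 2000 ≤ L) (h : 2 ^ m ≤ 3 * X) :
    1 + (m : ℝ) ≤ L ^ 2 := by
  have hX : 0 < X := by
    rcases Nat.eq_zero_or_pos X with h0 | h0
    · rw [h0] at h
      have := Nat.one_le_two_pow (n := m)
      omega
    · exact h0
  have hX' : (0 : ℝ) < X := by exact_mod_cast hX
  have h1 : (2 : ℝ) ^ m ≤ 3 * X := by exact_mod_cast h
  have h2 : (m : ℝ) * Real.log 2 ≤ Real.log 3 + L := by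
    have := Real.log_le_log (by positivity) h1
    rwa [Real.log_pow, Real.log_mul (by norm_num) hX'.ne', ← hL] at this
  have h3 : Real.log 3 ≤ 2 := by
    have := Real.log_le_sub_one_of_pos (by norm_num : (0 : ℝ) < 3)
    linarith
  have h4 : 1 / 2 ≤ Real.log 2 := by
    have := Real.log_two_gt_d9
    linarith
  have h5 : (m : ℝ) * (1 / 2) ≤ m * Real.log 2 := mul_le_mul_of_nonneg_left h4 (Nat.cast_nonneg m)
  nlinarith

/-- case (I) -/
theorem caseI (c A : ℕ) (L P σ k q w X g : ℝ) (hL : 2000 ≤ L) (hcL : 12 * (c : ℝ) ≤ L)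
    (hP : P ≤ 3 * X) (hσ0 : 0 ≤ σ) (hσ : σ ≤ L ^ 2) (hk : 0 < k) (hX : 0 ≤ X)
    (hg0 : 0 ≤ g) (hg : g ≤ L) (hq0 : 0 < q) (hw0 : 0 < w) (h1 : L ^ (2 * c + 2 + A) ≤ w)
    (h2 : w * L ^ (2 * c + 2 + A) ≤ k) (h3 : L ^ (2 * c + 2 + A) ≤ q)
    (h4 : q * L ^ (2 * c + 2 + A) ≤ k) :
    c * P * σ ^ c * k * (w + k / q + k / w + q) * g ≤ k ^ 2 * X / L ^ A := by
  have hL0 : 0 < L := by linarith
  set T : ℝ := L ^ (2 * c + 2 + A) with hT
  have hT0 : 0 < T := by positivity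
  have b1 : w ≤ k / T := by rwa [le_div_iff₀ hT0]
  have b2 : q ≤ k / T := by rwa [le_div_iff₀ hT0]
  have b3 : k / q ≤ k / T := div_le_div_of_nonneg_left hk.le hT0 h3
  have b4 : k / w ≤ k / T := div_le_div_of_nonneg_left hk.le hT0 h1
  have b5 : w + k / q + k / w + q ≤ 4 * (k / T) := by linarith
  have hσc : σ ^ c ≤ (L ^ 2) ^ c := pow_le_pow_left₀ hσ0 hσ c
  have hkT : 0 ≤ k / T := by positivity
  have s1 : c * P * σ ^ c ≤ c * (3 * X) * (L ^ 2) ^ c :=
    mul_le_mul (mul_le_mul_of_nonneg_left hP (Nat.cast_nonneg c)) hσc (by positivity) (by positivity)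
  have s2 : c * P * σ ^ c * k ≤ c * (3 * X) * (L ^ 2) ^ c * k := mul_le_mul_of_nonneg_right s1 hk.le
  have s3 : c * P * σ ^ c * k * (w + k / q + k / w + q) ≤
      c * (3 * X) * (L ^ 2) ^ c * k * (4 * (k / T)) :=
    mul_le_mul s2 b5 (by positivity) (by positivity)
  calc c * P * σ ^ c * k * (w + k / q + k / w + q) * g
      ≤ c * (3 * X) * (L ^ 2) ^ c * k * (4 * (k / T)) * L :=
        mul_le_mul s3 hg hg0 (by positivity)
    _ = (12 * c) * (L ^ (2 * c + 1) * (k ^ 2 * X)) / T := by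
        rw [pow_succ L (2 * c), ← pow_mul]
        ring
    _ ≤ L * (L ^ (2 * c + 1) * (k ^ 2 * X)) / T := by
        refine div_le_div_of_nonneg_right ?_ hT0.le
        exact mul_le_mul_of_nonneg_right hcL (by positivity)
    _ = L ^ (2 * c + 2) * (k ^ 2 * X) / L ^ (2 * c + 2 + A) := by
        rw [hT, pow_succ L (2 * c + 1)]
        ring
    _ ≤ k ^ 2 * X / L ^ A := pw L _ (by linarith) (by positivity) _ _ _ le_rfl

/-- case (II) -/
theorem caseII (c A A' B : ℕ) (L σ k q w X : ℝ) (hL : 2000 ≤ L) (hcL : (c : ℝ) ≤ L)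
    (hσ0 : 0 ≤ σ) (hσ : σ ≤ L ^ 2) (hk : 0 < k) (hX : 0 ≤ X) (hq0 : 0 < q) (hw0 : 0 ≤ w)
    (h1 : w ≤ L ^ (7 * A')) (h2 : q * L ^ B ≤ k) (h3 : 2 * c + 1 + 14 * A' + A ≤ 2 * B) :
    c * X * σ ^ c * w ^ 2 * q ^ 2 ≤ k ^ 2 * X / L ^ A := by
  have hL0 : 0 < L := by linarith
  have b1 : q ≤ k / L ^ B := by rwa [le_div_iff₀ (by positivity)]
  have hσc : σ ^ c ≤ (L ^ 2) ^ c := pow_le_pow_left₀ hσ0 hσ c
  have s1 : c * X * σ ^ c ≤ c * X * (L ^ 2) ^ c := mul_le_mul_of_nonneg_left hσc (by positivity)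
  have s2 : c * X * σ ^ c * w ^ 2 ≤ c * X * (L ^ 2) ^ c * (L ^ (7 * A')) ^ 2 :=
    mul_le_mul s1 (pow_le_pow_left₀ hw0 h1 2) (by positivity) (by positivity)
  calc c * X * σ ^ c * w ^ 2 * q ^ 2
      ≤ c * X * (L ^ 2) ^ c * (L ^ (7 * A')) ^ 2 * (k / L ^ B) ^ 2 :=
        mul_le_mul s2 (pow_le_pow_left₀ hq0.le b1 2) (by positivity) (by positivity)
    _ = c * (L ^ (2 * c + 14 * A') * (k ^ 2 * X)) / L ^ (2 * B) := by
        have e1 : (L ^ (7 * A')) ^ 2 = L ^ (14 * A') := by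
          rw [← pow_mul, show 7 * A' * 2 = 14 * A' by ring]
        have e2 : (L ^ B) ^ 2 = L ^ (2 * B) := by
          rw [← pow_mul, mul_comm B 2]
        rw [pow_add L (2 * c), pow_mul L 2 c, div_pow, e1, e2]
        ring
    _ ≤ L * (L ^ (2 * c + 14 * A') * (k ^ 2 * X)) / L ^ (2 * B) := by
        refine div_le_div_of_nonneg_right ?_ (by positivity)
        exact mul_le_mul_of_nonneg_right hcL (by positivity)
    _ = L ^ (2 * c + 14 * A' + 1) * (k ^ 2 * X) / L ^ (2 * B) := by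
        rw [pow_succ L (2 * c + 14 * A')]
        ring
    _ ≤ k ^ 2 * X / L ^ A := pw L _ (by linarith) (by positivity) _ _ _ (by omega)

/-- case (III) -/
theorem caseIII (c A m B : ℕ) (L σ k s p t d j w v X : ℝ) (hL : 2000 ≤ L)
    (hcL : 20 * (c : ℝ) ≤ L) (hσ0 : 0 ≤ σ) (hσ : σ ≤ L ^ 2) (hk : 0 < k) (hs : 0 < s)
    (hsX : s ^ 2 = X) (hp : 0 < p) (ht : 0 ≤ t) (hd0 : 0 ≤ d) (hd : d ≤ L ^ m)
    (hj1 : L ^ B / 2 ≤ j) (hj2 : j ≤ L ^ B) (hw0 : 0 ≤ w) (hw : w ≤ 3 * s ^ 2) (hv0 : 0 ≤ v)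
    (hv : v * k ≤ 3 * s ^ 2 * t) (hsk : s ≤ k * p)
    (h4 : 9 * (L ^ B) ^ 2 * t ^ 2 * p ^ 3 ≤ s) (h5 : 3 * (L ^ B) ^ 2 * p ≤ s)
    (h3 : 3 * m + 2 * c + 1 + A ≤ B) :
    c * d ^ 3 * σ ^ c * k ^ 2 * (w / j + w * j / k + j * v ^ 2 / k + w / j ^ 2) ≤
      k ^ 2 * X / L ^ A := by
  have hL0 : 0 < L := by linarith
  have hL1 : 1 ≤ L := by linarith
  set b : ℝ := L ^ B with hb
  have hb1 : 1 ≤ b := one_le_pow₀ hL1
  have hb0 : 0 < b := by linarith
  have hj0 : 0 < j := by linarith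
  have e1 : w / j ≤ 6 * (s ^ 2 / b) := by
    rw [div_le_iff₀ hj0]
    calc w ≤ 3 * s ^ 2 := hw
      _ = 6 * (s ^ 2 / b) * (b / 2) := by
        field_simp
        ring
      _ ≤ 6 * (s ^ 2 / b) * j := mul_le_mul_of_nonneg_left hj1 (by positivity)
  have e2 : w * j / k ≤ s ^ 2 / b := ineq_d j w k s p b hj0.le hk hs hp hb0 hj2 hw hsk h5
  have e3 : j * v ^ 2 / k ≤ s ^ 2 / b :=
    ineq_e j v k s p t b hv0 hk hs hp hb0 hj2 hv hsk h4
  have e4 : w / j ^ 2 ≤ 12 * (s ^ 2 / b) := by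
    rw [div_le_iff₀ (by positivity)]
    have h6 : b / 4 ≤ j ^ 2 := by
      have h7 : (b / 2) ^ 2 ≤ j ^ 2 := pow_le_pow_left₀ (by positivity) hj1 2
      nlinarith
    calc w ≤ 3 * s ^ 2 := hw
      _ = 12 * (s ^ 2 / b) * (b / 4) := by
        field_simp
        ring
      _ ≤ 12 * (s ^ 2 / b) * j ^ 2 := mul_le_mul_of_nonneg_left h6 (by positivity)
  have e5 : w / j + w * j / k + j * v ^ 2 / k + w / j ^ 2 ≤ 20 * (s ^ 2 / b) := by linarith
  have hσc : σ ^ c ≤ (L ^ 2) ^ c := pow_le_pow_left₀ hσ0 hσ c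
  have s1 : c * d ^ 3 * σ ^ c ≤ c * (L ^ m) ^ 3 * (L ^ 2) ^ c :=
    mul_le_mul (mul_le_mul_of_nonneg_left (pow_le_pow_left₀ hd0 hd 3) (Nat.cast_nonneg c)) hσc
      (by positivity) (by positivity)
  have s2 : c * d ^ 3 * σ ^ c * k ^ 2 ≤ c * (L ^ m) ^ 3 * (L ^ 2) ^ c * k ^ 2 :=
    mul_le_mul_of_nonneg_right s1 (by positivity)
  have hX0 : 0 ≤ X := by rw [← hsX]; positivity
  calc c * d ^ 3 * σ ^ c * k ^ 2 * (w / j + w * j / k + j * v ^ 2 / k + w / j ^ 2)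
      ≤ c * (L ^ m) ^ 3 * (L ^ 2) ^ c * k ^ 2 * (20 * (s ^ 2 / b)) :=
        mul_le_mul s2 e5 (by positivity) (by positivity)
    _ = (20 * c) * (L ^ (3 * m + 2 * c) * (k ^ 2 * X)) / L ^ B := by
        rw [hsX, pow_add L (3 * m), pow_mul L 2 c, ← pow_mul L m 3, show m * 3 = 3 * m by ring]
        ring
    _ ≤ L * (L ^ (3 * m + 2 * c) * (k ^ 2 * X)) / L ^ B := by
        refine div_le_div_of_nonneg_right ?_ (by positivity)
        exact mul_le_mul_of_nonneg_right hcL (by positivity)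
    _ = L ^ (3 * m + 2 * c + 1) * (k ^ 2 * X) / L ^ B := by
        rw [pow_succ L (3 * m + 2 * c)]
        ring
    _ ≤ k ^ 2 * X / L ^ A := pw L _ hL1 (by positivity) _ _ _ h3

end SelX

theorem thm_Sel (h1 : St_C1) (h2 : St_C2) (h3 : St_C3) : St_Sel := by
  intro A C
  obtain ⟨c1, hc1⟩ := h1
  obtain ⟨c2, hc2⟩ := h2
  obtain ⟨c3, hc3⟩ := h3
  obtain ⟨A', hA'⟩ : ∃ A' : ℕ, A' = 2 * c1 + 2 + A := ⟨_, rfl⟩
  obtain ⟨B4, hB4⟩ : ∃ B4 : ℕ, B4 = 20 * A' + 6 * C + 10 + 2 * c2 + 2 * c3 + A := ⟨_, rfl⟩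
  obtain ⟨E, hE⟩ : ∃ E : ℕ, E = 2 * B4 + 8 * A' + 3 * C + 10 := ⟨_, rfl⟩
  obtain ⟨X₀, hX₀⟩ := SelX.large (2000 + 12 * c1 + c2 + 20 * c3) (2 * E)
  refine ⟨4 * B4, X₀, ?_⟩
  intro X K Z l α a q hX hKX hXK hgcd hα hq hqK hZ hl1 hl8 _ hs1 hs2
  obtain ⟨hL, hLE⟩ := hX₀ X hX
  have hsz := SelX.siz_le (siz l) X (Real.log X) rfl (by
    have e1 : (0 : ℝ) ≤ c1 := Nat.cast_nonneg c1
    have e2 : (0 : ℝ) ≤ c2 := Nat.cast_nonneg c2
    have e3 : (0 : ℝ) ≤ c3 := Nat.cast_nonneg c3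
    linarith) hs1
  set L := Real.log X with hLdef
  have hc1n : (0 : ℝ) ≤ c1 := Nat.cast_nonneg c1
  have hc2n : (0 : ℝ) ≤ c2 := Nat.cast_nonneg c2
  have hc3n : (0 : ℝ) ≤ c3 := Nat.cast_nonneg c3
  have hL2 : 2000 ≤ L := by linarith
  have hLc1 : 12 * (c1 : ℝ) ≤ L := by linarith
  have hLc2 : (c2 : ℝ) ≤ L := by linarith
  have hLc3 : 20 * (c3 : ℝ) ≤ L := by linarith
  have hL1 : 1 ≤ L := by linarith
  have hL0 : 0 < L := by linarith
  have hpos : ∀ n : ℕ, 0 < L ^ n := fun n => pow_pos hL0 n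
  have hmono : ∀ m n : ℕ, m ≤ n → L ^ m ≤ L ^ n := fun m n h => pow_le_pow_right₀ hL1 h
  have hXpos : (0 : ℝ) < X := lt_of_lt_of_le (hpos _) hLE
  -- the square root
  set s : ℝ := Real.sqrt X with hsdef
  have hs0 : 0 < s := Real.sqrt_pos.2 hXpos
  have hsX : s ^ 2 = X := Real.sq_sqrt hXpos.le
  have hLs : L ^ E ≤ s := by
    refine Real.le_sqrt_of_sq_le ?_
    rw [← pow_mul, mul_comm E 2]
    exact hLE
  have hKs : (K : ℝ) ≤ s := by
    refine Real.le_sqrt_of_sq_le ?_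
    exact_mod_cast hKX
  have hsK : s ≤ K * L ^ C := by
    refine Real.sqrt_le_iff.2 ⟨by positivity, ?_⟩
    rw [mul_pow, ← pow_mul, mul_comm C 2]
    exact hXK
  have hKpos : (0 : ℝ) < K := by
    rcases Nat.eq_zero_or_pos K with h0 | h0
    · rw [h0] at hsK
      simp at hsK
      linarith
    · exact_mod_cast h0
  have hKL : L ≤ K := by
    have h4 : L * L ^ C ≤ K * L ^ C := by
      calc L * L ^ C = L ^ (C + 1) := by rw [pow_succ]; ring
        _ ≤ L ^ E := hmono _ _ (by omega)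
        _ ≤ s := hLs
        _ ≤ K * L ^ C := hsK
    exact le_of_mul_le_mul_right h4 (hpos C)
  have hqpos : (0 : ℝ) < q := lt_of_lt_of_le (hpos _) hq
  have hq1 : 1 ≤ q := by exact_mod_cast hqpos
  have hqK' : q ≤ K := by
    have h4 : (q : ℝ) * 1 ≤ q * L ^ (4 * B4) :=
      mul_le_mul_of_nonneg_left (one_le_pow₀ hL1) hqpos.le
    have h5 : (q : ℝ) ≤ K := by linarith
    exact_mod_cast h5
  have h2s : (2 : ℝ) ^ siz l ≤ 3 * X := by exact_mod_cast hs1
  have hlog : 0 ≤ 1 + Real.log K ∧ 1 + Real.log K ≤ L := by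
    have h4 : 0 ≤ Real.log K := Real.log_natCast_nonneg K
    have h5 : 2 * Real.log K ≤ L := by
      have h6 : Real.log ((K : ℝ) ^ 2) ≤ L :=
        Real.log_le_log (by positivity) (by exact_mod_cast hKX)
      rwa [Real.log_pow, Nat.cast_ofNat] at h6
    constructor <;> linarith
  have hσ0 : (0 : ℝ) ≤ 1 + (siz l : ℝ) := by positivity
  obtain ⟨T, hT⟩ : ∃ T : ℝ, T = L ^ A' := ⟨_, rfl⟩
  have hT0 : 0 < T := by rw [hT]; exact hpos _
  have hT1 : 1 ≤ T := by rw [hT]; exact one_le_pow₀ hL1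
  have hqT : T ≤ q := by
    rw [hT]
    exact (hmono _ _ (by omega)).trans hq
  have hqTK : (q : ℝ) * T ≤ K := by
    refine le_trans (mul_le_mul_of_nonneg_left ?_ hqpos.le) hqK
    rw [hT]
    exact hmono _ _ (by omega)
  have hRHS : 0 ≤ (K : ℝ) ^ 2 * X / L ^ A := by positivity
  -- a big factor of the third kind
  have hkind : ∀ x ∈ l, (K : ℝ) < 2 ^ x.2 * T → 2 ≤ x.1 → ms (cof Z l) α K X = 0 := by
    intro x hx hK hk2
    refine SelX.ms_zero _ (SelX.cof_zero Z l x hx hk2 ?_) α K X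
    have hZs : (Z : ℝ) ^ 2 ≤ 16 * s := by
      have h4 : (Z : ℝ) ^ 2 ≤ (4 * (X : ℝ) ^ (1 / 4 : ℝ)) ^ 2 :=
        pow_le_pow_left₀ (Nat.cast_nonneg Z) hZ 2
      have h5 : ((X : ℝ) ^ (1 / 4 : ℝ)) ^ 2 = s := by
        rw [hsdef, Real.sqrt_eq_rpow, ← Real.rpow_natCast, ← Real.rpow_mul hXpos.le]
        norm_num
      rw [mul_pow, h5] at h4
      linarith
    by_contra hcon
    push Not at hcon
    have h6 : (2 : ℝ) ^ x.2 ≤ Z := by exact_mod_cast hcon
    have h7 : (K : ℝ) ≤ Z * T := hK.le.trans (mul_le_mul_of_nonneg_right h6 hT0.le)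
    have h8 : s ≤ Z * T * L ^ C := hsK.trans (mul_le_mul_of_nonneg_right h7 (hpos C).le)
    have h9 : s ^ 2 ≤ (16 * T ^ 2 * L ^ (2 * C)) * s := by
      calc s ^ 2 ≤ (Z * T * L ^ C) ^ 2 := pow_le_pow_left₀ hs0.le h8 2
        _ = (Z : ℝ) ^ 2 * (T ^ 2 * L ^ (2 * C)) := by
          rw [mul_comm 2 C, pow_mul]
          ring
        _ ≤ (16 * s) * (T ^ 2 * L ^ (2 * C)) := mul_le_mul_of_nonneg_right hZs (by positivity)
        _ = _ := by ring
    have h10 : s ≤ 16 * T ^ 2 * L ^ (2 * C) := by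
      rw [pow_two] at h9
      exact le_of_mul_le_mul_right h9 hs0
    have h11 : 16 * T ^ 2 * L ^ (2 * C) < L ^ (2 * A' + 2 * C + 1) := by
      have : L ^ (2 * A' + 2 * C + 1) = L * (T ^ 2 * L ^ (2 * C)) := by
        rw [hT, ← pow_mul, mul_comm A' 2, ← pow_add, pow_succ]
        ring
      rw [this]
      have h12 : 0 < T ^ 2 * L ^ (2 * C) := by positivity
      nlinarith
    have h13 : L ^ (2 * A' + 2 * C + 1) ≤ L ^ E := hmono _ _ (by omega)
    linarith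
  by_cases hI : ∃ x ∈ l, T ≤ 2 ^ x.2 ∧ (2 : ℝ) ^ x.2 * T ≤ K
  · -- case (I)
    obtain ⟨⟨k, i⟩, hx, hTi, hiT⟩ := hI
    simp only at hTi hiT
    refine (hc1 Z l k i K X α a q hl8 hx (by
      have : (3 : ℝ) ≤ K := by linarith
      exact_mod_cast this) hq1 hqK' hgcd hα).trans ?_
    rw [hT, hA'] at hTi hiT hqT hqTK
    exact SelX.caseI c1 A L (2 ^ siz l) (1 + (siz l : ℝ)) K q (2 ^ i) X (1 + Real.log K) hL2 hLc1
      h2s hσ0 hsz hKpos hXpos.le hlog.1 hlog.2 hqpos (by positivity) hTi hiT hqT hqTK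
  · push Not at hI
    by_cases hbig : ∃ x ∈ l, T ≤ (2 : ℝ) ^ x.2
    · obtain ⟨⟨k1, i1⟩, hx1, hT1'⟩ := hbig
      have hK1 := hI _ hx1 hT1'
      by_cases hk1 : 2 ≤ k1
      · rw [hkind _ hx1 hK1 hk1]
        exact hRHS
      simp only at hT1' hK1
      by_cases hbig2 : ∃ x ∈ l.erase (k1, i1), T ≤ (2 : ℝ) ^ x.2
      · -- case (III)
        obtain ⟨⟨k2, i2⟩, hx2, hT2'⟩ := hbig2
        have hx2' : (k2, i2) ∈ l := List.mem_of_mem_erase hx2
        have hK2 := hI _ hx2' hT2'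
        by_cases hk2 : 2 ≤ k2
        · rw [hkind _ hx2' hK2 hk2]
          exact hRHS
        simp only at hT2' hK2
        have hz1 := SelX.siz_erase l _ hx1
        have hz2 := SelX.siz_erase _ _ hx2
        simp only at hz1 hz2
        obtain ⟨g, hg⟩ : ∃ g : ℕ, siz l = i1 + i2 + g := ⟨_, by rw [hz1, hz2, add_assoc]⟩
        have hg' : siz l - i1 - i2 = g := by omega
        have hw1 : (0 : ℝ) < 2 ^ i1 := by positivity
        have hw2 : (0 : ℝ) < 2 ^ i2 := by positivity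
        have hprod : (2 : ℝ) ^ siz l = 2 ^ i1 * 2 ^ i2 * 2 ^ g := by rw [hg, pow_add, pow_add]
        have hK12 : (K : ℝ) ^ 2 ≤ (2 ^ i1 * T) * (2 ^ i2 * T) := by
          rw [pow_two]
          exact mul_le_mul hK1.le hK2.le hKpos.le (by positivity)
        have hgb : (2 : ℝ) ^ g ≤ 3 * (T ^ 2 * L ^ (2 * C)) := by
          have h4 : (2 : ℝ) ^ g * (2 ^ i1 * 2 ^ i2) ≤ 3 * (T ^ 2 * L ^ (2 * C)) * (2 ^ i1 * 2 ^ i2) := by
            calc (2 : ℝ) ^ g * (2 ^ i1 * 2 ^ i2) = 2 ^ siz l := by rw [hprod]; ring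
              _ ≤ 3 * X := h2s
              _ ≤ 3 * ((K : ℝ) ^ 2 * L ^ (2 * C)) := by linarith
              _ ≤ 3 * (((2 ^ i1 * T) * (2 ^ i2 * T)) * L ^ (2 * C)) := by
                have := mul_le_mul_of_nonneg_right hK12 (hpos (2 * C)).le
                linarith
              _ = _ := by ring
          exact le_of_mul_le_mul_right h4 (by positivity)
        have h12 : (2 : ℝ) ^ (i1 + i2) ≤ 3 * s ^ 2 := by
          rw [hsX]
          refine le_trans ?_ h2s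
          exact pow_le_pow_right₀ (by norm_num) (by omega)
        have hv : (2 : ℝ) ^ i1 * K ≤ 3 * s ^ 2 * T := by
          calc (2 : ℝ) ^ i1 * K ≤ 2 ^ i1 * (2 ^ i2 * T) := mul_le_mul_of_nonneg_left hK2.le hw1.le
            _ = 2 ^ (i1 + i2) * T := by rw [pow_add]; ring
            _ ≤ 3 * s ^ 2 * T := mul_le_mul_of_nonneg_right h12 hT0.le
        -- parameters
        obtain ⟨D, hD⟩ : ∃ D : ℕ, D = ⌈1024 * L ^ (2 * A' + 2 * C)⌉₊ := ⟨_, rfl⟩
        obtain ⟨J, hJ⟩ : ∃ J : ℕ, J = ⌊L ^ B4⌋₊ := ⟨_, rfl⟩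
        have hD1 : 1024 * L ^ (2 * A' + 2 * C) ≤ D := by rw [hD]; exact Nat.le_ceil _
        have hD2 : (D : ℝ) ≤ L ^ (2 * A' + 2 * C + 1) := by
          have h4 : (D : ℝ) < 1024 * L ^ (2 * A' + 2 * C) + 1 := by
            rw [hD]
            exact Nat.ceil_lt_add_one (by positivity)
          have h5 : 1 ≤ L ^ (2 * A' + 2 * C) := one_le_pow₀ hL1
          have h6 : L ^ (2 * A' + 2 * C + 1) = L * L ^ (2 * A' + 2 * C) := by rw [pow_succ]; ring
          rw [h6]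
          nlinarith
        have hb1 : L ≤ L ^ B4 := by
          calc L = L ^ 1 := (pow_one L).symm
            _ ≤ L ^ B4 := hmono _ _ (by omega)
        have hJ2 : (J : ℝ) ≤ L ^ B4 := by rw [hJ]; exact Nat.floor_le (hpos _).le
        have hJ1 : L ^ B4 / 2 ≤ J := by
          have h4 : L ^ B4 < J + 1 := by rw [hJ]; exact Nat.lt_floor_add_one _
          linarith
        have hJpos : 1 ≤ J := by
          have : (0 : ℝ) < J := by linarith
          exact_mod_cast this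
        have hTC : T ^ 2 * L ^ (2 * C) = L ^ (2 * A' + 2 * C) := by
          rw [hT, ← pow_mul, mul_comm A' 2, ← pow_add]
        have hgD : 2 ^ (siz l - i1 - i2 + 8) ≤ D := by
          rw [hg']
          have h4 : (2 : ℝ) ^ (g + 8) ≤ D := by
            rw [pow_add]
            rw [hTC] at hgb
            have h5 : 0 < L ^ (2 * A' + 2 * C) := hpos _
            norm_num
            linarith
          exact_mod_cast h4
        have hD0 : 1 ≤ D := le_trans Nat.one_le_two_pow hgD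
        have hDJ : 4 * (D * J) ≤ q := by
          have h4 : (4 : ℝ) * (D * J) ≤ q := by
            calc (4 : ℝ) * (D * J) ≤ L * (L ^ (2 * A' + 2 * C + 1) * L ^ B4) := by
                  refine mul_le_mul (by linarith) ?_ (by positivity) hL0.le
                  exact mul_le_mul hD2 hJ2 (Nat.cast_nonneg J) (hpos _).le
              _ = L ^ (2 * A' + 2 * C + 1 + B4 + 1) := by
                  rw [← pow_add, ← pow_succ']
              _ ≤ L ^ (4 * B4) := hmono _ _ (by omega)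
              _ ≤ q := hq
          exact_mod_cast h4
        have hqDJ : 4 * (q * J * (D * J)) ≤ K := by
          have h4 : (4 : ℝ) * (q * J * (D * J)) ≤ K := by
            calc (4 : ℝ) * (q * J * (D * J)) = q * (4 * (J * (D * J))) := by ring
              _ ≤ q * (L * (L ^ B4 * (L ^ (2 * A' + 2 * C + 1) * L ^ B4))) := by
                  refine mul_le_mul_of_nonneg_left ?_ hqpos.le
                  refine mul_le_mul (by linarith) ?_ (by positivity) hL0.le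
                  refine mul_le_mul hJ2 ?_ (by positivity) (hpos _).le
                  exact mul_le_mul hD2 hJ2 (Nat.cast_nonneg J) (hpos _).le
              _ = q * L ^ (B4 + (2 * A' + 2 * C + 1 + B4) + 1) := by
                  rw [← pow_add, ← pow_add, ← pow_succ']
              _ ≤ q * L ^ (4 * B4) := mul_le_mul_of_nonneg_left (hmono _ _ (by omega)) hqpos.le
              _ ≤ K := hqK
          exact_mod_cast h4
        have hqi : q ≤ 2 ^ i1 := by
          have h4 : (q : ℝ) ≤ 2 ^ i1 := by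
            have h5 : (q : ℝ) * T ≤ 2 ^ i1 * T := hqTK.trans hK1.le
            exact le_of_mul_le_mul_right h5 hT0
          exact_mod_cast h4
        have hK1n : 1 ≤ K := by exact_mod_cast hKpos
        refine (hc3 Z l k1 i1 k2 i2 J J K X D α a q hl8 hx1 hx2 (by omega) (by omega) hgD hJpos hJpos
          hK1n hqi hDJ hqDJ hgcd hα).trans ?_
        have hfin := SelX.caseIII c3 A (2 * A' + 2 * C + 1) B4 L (1 + (siz l : ℝ)) K s (L ^ C) T D J
          (2 ^ (i1 + i2)) (2 ^ i1) X hL2 hLc3 hσ0 hsz hKpos hs0 hsX (hpos C) hT0.le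
          (Nat.cast_nonneg D) hD2 hJ1 hJ2 (by positivity) h12 hw1.le hv hsK ?_ ?_ (by omega)
        · rw [show (2 : ℝ) ^ (2 * i1) = (2 ^ i1) ^ 2 by rw [← pow_mul, mul_comm]]
          exact hfin
        · calc 9 * (L ^ B4) ^ 2 * T ^ 2 * (L ^ C) ^ 3
              ≤ L * (L ^ B4) ^ 2 * T ^ 2 * (L ^ C) ^ 3 := by
                have h5 : 0 < (L ^ B4) ^ 2 * T ^ 2 * (L ^ C) ^ 3 := by positivity
                nlinarith
            _ = L ^ (1 + B4 * 2 + A' * 2 + C * 3) := by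
                rw [hT, ← pow_mul, ← pow_mul, ← pow_mul, pow_add, pow_add, pow_add, pow_one]
            _ ≤ L ^ E := hmono _ _ (by omega)
            _ ≤ s := hLs
        · calc 3 * (L ^ B4) ^ 2 * L ^ C ≤ L * (L ^ B4) ^ 2 * L ^ C := by
                have h5 : 0 < (L ^ B4) ^ 2 * L ^ C := by positivity
                nlinarith
            _ = L ^ (1 + B4 * 2 + C) := by
                rw [← pow_mul, pow_add, pow_add, pow_one]
            _ ≤ L ^ E := hmono _ _ (by omega)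
            _ ≤ s := hLs
      · -- case (II)
        push Not at hbig2
        have hz1 := SelX.siz_erase l _ hx1
        simp only at hz1
        have hsm := SelX.siz_small T hT1 (l.erase (k1, i1)) fun x hx => (hbig2 x hx).le
        have hlen : (l.erase (k1, i1)).length ≤ 7 := by
          rw [List.length_erase_of_mem hx1]
          omega
        have hg' : siz l - i1 = siz (l.erase (k1, i1)) := by omega
        have hw : (2 : ℝ) ^ (siz l - i1) ≤ L ^ (7 * A') := by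
          rw [hg']
          refine hsm.trans ((pow_le_pow_right₀ hT1 hlen).trans ?_)
          rw [hT, ← pow_mul, mul_comm A' 7]
        refine (hc2 Z l k1 i1 K X α a q hl8 hx1 (by omega) hq1 ?_ hgcd hα).trans ?_
        · have h4 : (2 : ℝ) * 2 ^ (siz l - i1 + 8) ≤ q := by
            calc (2 : ℝ) * 2 ^ (siz l - i1 + 8) = 512 * 2 ^ (siz l - i1) := by
                  rw [pow_add]
                  norm_num
                  ring
              _ ≤ L * L ^ (7 * A') := mul_le_mul (by linarith) hw (by positivity) hL0.le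
              _ = L ^ (7 * A' + 1) := by rw [pow_succ]; ring
              _ ≤ L ^ (4 * B4) := hmono _ _ (by omega)
              _ ≤ q := hq
          exact_mod_cast h4
        · exact SelX.caseII c2 A A' (4 * B4) L (1 + (siz l : ℝ)) K q (2 ^ (siz l - i1)) X hL2 hLc2
            hσ0 hsz hKpos hXpos.le hqpos (by positivity) hw hqK (by omega)
    · -- no big factor
      exfalso
      push Not at hbig
      have hsm := SelX.siz_small T hT1 l fun x hx => (hbig x hx).le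
      have h4 : (X : ℝ) ≤ 2 ^ siz l * 2 ^ l.length := by
        rw [← pow_add]
        exact_mod_cast hs2
      have h5 : (2 : ℝ) ^ siz l ≤ L ^ (8 * A') := by
        refine hsm.trans ((pow_le_pow_right₀ hT1 hl8).trans ?_)
        rw [hT, ← pow_mul, mul_comm A' 8]
      have h6 : (2 : ℝ) ^ l.length ≤ 2 ^ 8 := pow_le_pow_right₀ (by norm_num) hl8
      have h7 : (X : ℝ) ≤ L ^ (8 * A') * 2 ^ 8 :=
        h4.trans (mul_le_mul h5 h6 (by positivity) (hpos _).le)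
      have h8 : L ^ (8 * A' + 1) ≤ X := (hmono _ _ (by omega)).trans hLE
      have h9 : L ^ (8 * A' + 1) = L * L ^ (8 * A') := by rw [pow_succ]; ring
      have h10 : 0 < L ^ (8 * A') := hpos _
      rw [h9] at h8
      norm_num at h7
      nlinarith

end Pool.Agent.LMS
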