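import Pool.Agent.LMS.St
import Pool.Agent.GBQ.Bridge

/-!
# LMS, module T1: type I sums
-/

set_option autoImplicit false

namespace Pool.Agent.LMS

open Finset
open Pool.Agent.GBQ (ee nd gm lam LamS rho pr Rough)
open Pool.Agent.SI (fac cof siz)

namespace T1X

theorem nd_ge {α : ℝ} {a : ℤ} {q d : ℕ} (hq : 1 ≤ q) (hd : 1 ≤ d) (hdq : 2 * d ≤ q)
    (ha : Int.gcd a q = 1) (hα : |α - a / q| ≤ 1 / (q : ℝ) ^ 2) :
    1 / (2 * (q : ℝ)) ≤ nd (α * d) := by
  have hq0 : (0 : ℝ) < q := by exact_mod_cast hq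
  have hd0 : (0 : ℝ) < d := by exact_mod_cast hd
  unfold nd
  obtain ⟨n, hn⟩ : ∃ n : ℤ, n = round (α * d) := ⟨_, rfl⟩
  rw [← hn]
  have h1 : a * d - n * q ≠ 0 := by
    intro h
    have h2 : (q : ℤ) ∣ a * d := ⟨n, by linarith [mul_comm n (q : ℤ)]⟩
    have h3 : IsCoprime (q : ℤ) a := by
      rw [Int.isCoprime_iff_gcd_eq_one, Int.gcd_comm]
      exact ha
    have h4 : (q : ℤ) ∣ d := h3.dvd_of_dvd_mul_left h2
    have h5 : q ∣ d := by exact_mod_cast h4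
    have := Nat.le_of_dvd (by omega) h5
    omega
  have h2 : (1 : ℝ) ≤ |(a : ℝ) * d - n * q| := by
    have := Int.one_le_abs h1
    exact_mod_cast this
  have h3 : 1 / (q : ℝ) ≤ |(a : ℝ) / q * d - n| := by
    have e : (a : ℝ) / q * d - n = ((a : ℝ) * d - n * q) / q := by
      field_simp
    rw [e, abs_div, abs_of_pos hq0]
    exact div_le_div_of_nonneg_right h2 hq0.le
  have h4 : |α * d - (a : ℝ) / q * d| ≤ 1 / (2 * (q : ℝ)) := by
    have e : α * d - (a : ℝ) / q * d = (α - a / q) * d := by ring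
    rw [e, abs_mul, abs_of_pos hd0]
    have h5 : (2 : ℝ) * d ≤ q := by exact_mod_cast hdq
    calc |α - a / q| * d ≤ 1 / (q : ℝ) ^ 2 * d := mul_le_mul_of_nonneg_right hα hd0.le
      _ ≤ 1 / (q : ℝ) ^ 2 * (q / 2) := mul_le_mul_of_nonneg_left (by linarith) (by positivity)
      _ = 1 / (2 * (q : ℝ)) := by field_simp
  have h6 : |(a : ℝ) / q * d - n| ≤ |α * d - n| + |α * d - (a : ℝ) / q * d| := by
    have e : (a : ℝ) / q * d - n = (α * d - n) - (α * d - (a : ℝ) / q * d) := by ring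
    rw [e]
    exact abs_sub _ _
  have h7 : 1 / (q : ℝ) = 1 / (2 * (q : ℝ)) + 1 / (2 * (q : ℝ)) := by
    field_simp
    norm_num
  linarith

theorem geo_le {θ : ℝ} {q : ℕ} (hq : 1 ≤ q) (hθ : 1 / (2 * (q : ℝ)) ≤ nd θ) {M j : ℕ}
    (hM : 1 ≤ M) (hj : M ≤ j) : ‖∑ m ∈ Ico M j, ee (θ * m)‖ ≤ q := by
  have hq0 : (0 : ℝ) < q := by exact_mod_cast hq
  have e1 : Ico M j = Ioc (M - 1) (j - 1) := by
    ext n
    rw [mem_Ico, mem_Ioc]
    omega
  rw [e1]
  refine (Pool.Agent.GBQ.thm_Geo (M - 1) (j - 1) θ (by omega)).trans ?_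
  have h0 : 0 < nd θ := lt_of_lt_of_le (by positivity) hθ
  unfold gm
  rw [if_neg h0.ne']
  refine (min_le_right _ _).trans ?_
  rw [div_le_iff₀ (by positivity)]
  have h1 := mul_le_mul_of_nonneg_left hθ (by positivity : (0 : ℝ) ≤ q * 2)
  have h2 : (q : ℝ) * 2 * (1 / (2 * q)) = 1 := by field_simp
  linarith [h1, h2]

theorem fac_eq {k Z i m : ℕ} (hk : k ≤ 1) (h1 : 2 ^ i ≤ m) (h2 : m < 2 ^ (i + 1)) :
    fac k Z i m = if k = 0 then 1 else Real.log m := by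
  unfold fac
  rw [if_pos ⟨h1, h2⟩]
  by_cases h : k = 0
  · rw [if_pos h, if_pos h]
  · rw [if_neg h, if_neg h, if_pos (by omega)]

theorem inner (hA : St_Abl) {α : ℝ} {a : ℤ} {q d k Z i : ℕ} (hk : k ≤ 1) (hq : 1 ≤ q)
    (hd : 1 ≤ d) (hdq : 2 * d ≤ q) (ha : Int.gcd a q = 1) (hα : |α - a / q| ≤ 1 / (q : ℝ) ^ 2)
    (u v : ℕ) : ‖∑ m ∈ Ioc u v, ((fac k Z i m : ℝ) : ℂ) * ee (α * d * m)‖ ≤
      2 * (i + 1) * q := by
  have hnd := nd_ge hq hd hdq ha hα
  obtain ⟨w, hw⟩ : ∃ w : ℕ → ℝ, ∀ m, w m = if k = 0 then 1 else Real.log m := ⟨_, fun _ => rfl⟩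
  obtain ⟨M, hM⟩ : ∃ M, M = max (u + 1) (2 ^ i) := ⟨_, rfl⟩
  obtain ⟨N, hN⟩ : ∃ N, N = min (v + 1) (2 ^ (i + 1)) := ⟨_, rfl⟩
  have h2i : 1 ≤ 2 ^ i := Nat.one_le_two_pow
  have e1 : ∑ m ∈ Ioc u v, ((fac k Z i m : ℝ) : ℂ) * ee (α * d * m) =
      ∑ m ∈ Ico M N, ((w m : ℝ) : ℂ) * ee (α * d * m) := by
    symm
    refine sum_subset_zero_on_sdiff ?_ ?_ ?_
    · intro m hm
      rw [mem_Ico, hM, hN] at hm
      rw [mem_Ioc]
      omega
    · intro m hm
      rw [mem_sdiff, mem_Ioc, mem_Ico, hM, hN] at hm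
      have h1 : fac k Z i m = 0 := by
        unfold fac
        rw [if_neg]
        omega
      rw [h1]
      simp
    · intro m hm
      rw [mem_Ico, hM, hN] at hm
      rw [hw, fac_eq hk (by omega) (by omega)]
  rw [e1]
  have hlog : ∀ m : ℕ, 1 ≤ m → 0 ≤ Real.log (m : ℝ) := fun m hm =>
    Real.log_nonneg (by exact_mod_cast hm)
  have h1 := hA M N w (fun m => ee (α * d * m)) ((i : ℝ) + 1) q (Nat.cast_nonneg q)
    (by
      intro m hm hmN
      have hm1 : 1 ≤ m := by omega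
      have hm2 : m < 2 ^ (i + 1) := by omega
      rw [hw]
      by_cases h : k = 0
      · rw [if_pos h]
        exact ⟨zero_le_one, by
          have : (0 : ℝ) ≤ i := Nat.cast_nonneg i
          linarith⟩
      · rw [if_neg h]
        refine ⟨hlog m hm1, ?_⟩
        have h3 : Real.log (m : ℝ) ≤ Real.log ((2 : ℝ) ^ (i + 1)) := by
          refine Real.log_le_log (by exact_mod_cast hm1) ?_
          exact_mod_cast hm2.le
        rw [Real.log_pow] at h3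
        have h4 : Real.log 2 ≤ 1 := by
          have := Real.log_two_lt_d9
          linarith
        have h5 : (((i + 1 : ℕ) : ℝ)) * Real.log 2 ≤ ((i + 1 : ℕ) : ℝ) * 1 :=
          mul_le_mul_of_nonneg_left h4 (Nat.cast_nonneg _)
        push_cast at h3 h5
        linarith)
    (fun j hMj _ => geo_le hq hnd (by omega) hMj)
    (by
      right
      intro m hm _
      rw [hw, hw]
      by_cases h : k = 0
      · rw [if_pos h, if_pos h]
      · rw [if_neg h, if_neg h]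
        have hm1 : 1 ≤ m := by omega
        refine Real.log_le_log (by exact_mod_cast hm1) ?_
        exact_mod_cast Nat.le_succ m)
  have h2 : max ((i : ℝ) + 1) 0 = (i : ℝ) + 1 := max_eq_left (by positivity)
  rw [h2] at h1
  exact h1

theorem cv_eq {f b : ℕ → ℝ} {D n : ℕ} (hn : n ≠ 0) (hb : ∀ n, b n ≠ 0 → 1 ≤ n ∧ n ≤ D) :
    cv f b n = ∑ d ∈ Icc 1 D, if d ∣ n then b d * f (n / d) else 0 := by
  unfold cv
  have e1 : ∑ d ∈ n.divisors, f d * b (n / d) = ∑ d ∈ n.divisors, b d * f (n / d) := by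
    rw [← Nat.sum_div_divisors n (fun d => b d * f (n / d))]
    refine sum_congr rfl fun d hd => ?_
    rw [Nat.div_div_self (Nat.dvd_of_mem_divisors hd) hn, mul_comm]
  rw [e1, ← sum_filter]
  symm
  refine sum_subset_zero_on_sdiff ?_ ?_ fun _ _ => rfl
  · intro d hd
    rw [mem_filter] at hd
    exact Nat.mem_divisors.2 ⟨hd.2, hn⟩
  · intro d hd
    rw [mem_sdiff, Nat.mem_divisors, mem_filter, mem_Icc] at hd
    by_contra hc
    have h1 : b d ≠ 0 := by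
      intro h
      exact hc (by rw [h, zero_mul])
    exact hd.2 ⟨hb d h1, hd.1.1⟩

theorem ws_eq {f b : ℕ → ℝ} {D : ℕ} (hb : ∀ n, b n ≠ 0 → 1 ≤ n ∧ n ≤ D) (α : ℝ) (K x : ℕ) :
    ws (cv f b) α K x = ∑ d ∈ Icc 1 D, ((b d : ℝ) : ℂ) *
      ∑ m ∈ Ioc (x / d) ((x + K) / d), ((f m : ℝ) : ℂ) * ee (α * d * m) := by
  unfold ws
  have e1 : ∀ n ∈ Ioc x (x + K), ((cv f b n : ℝ) : ℂ) * ee (α * n) =
      ∑ d ∈ Icc 1 D, if d ∣ n then ((b d : ℝ) : ℂ) * (((f (n / d) : ℝ) : ℂ) * ee (α * n)) else 0 := by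
    intro n hn
    have hn0 : n ≠ 0 := by
      rw [mem_Ioc] at hn
      omega
    rw [cv_eq hn0 hb, Complex.ofReal_sum, sum_mul]
    refine sum_congr rfl fun d _ => ?_
    by_cases h : d ∣ n
    · rw [if_pos h, if_pos h, Complex.ofReal_mul, mul_assoc]
    · rw [if_neg h, if_neg h, Complex.ofReal_zero, zero_mul]
  rw [sum_congr rfl e1, sum_comm]
  refine sum_congr rfl fun d hd => ?_
  rw [← sum_filter, ← mul_sum]
  congr 1
  have hd1 : 0 < d := by
    rw [mem_Icc] at hd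
    omega
  have e2 : (Ioc x (x + K)).filter (fun n => d ∣ n) =
      (Ioc (x / d) ((x + K) / d)).image (fun m => d * m) := by
    ext n
    rw [mem_filter, mem_Ioc, mem_image]
    constructor
    · rintro ⟨⟨h1, h2⟩, m, rfl⟩
      refine ⟨m, ?_, rfl⟩
      rw [mem_Ioc, Nat.div_lt_iff_lt_mul hd1, Nat.le_div_iff_mul_le hd1, mul_comm m d]
      exact ⟨h1, h2⟩
    · rintro ⟨m, hm, rfl⟩
      rw [mem_Ioc, Nat.div_lt_iff_lt_mul hd1, Nat.le_div_iff_mul_le hd1, mul_comm m d] at hm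
      exact ⟨hm, dvd_mul_right d m⟩
  rw [e2, sum_image (fun m _ m' _ h => Nat.eq_of_mul_eq_mul_left hd1 h)]
  refine sum_congr rfl fun m _ => ?_
  rw [Nat.mul_div_cancel_left m hd1, Nat.cast_mul, ← mul_assoc]

end T1X

theorem thm_T1 (hA : St_Abl) : St_T1 := by
  intro b Z k i D K x α a q hk hq hDq ha hα hb
  rw [T1X.ws_eq hb]
  refine (norm_sum_le _ _).trans ?_
  rw [mul_sum]
  refine sum_le_sum fun d hd => ?_
  rw [mem_Icc] at hd
  rw [norm_mul, Complex.norm_real, Real.norm_eq_abs, mul_comm]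
  exact mul_le_mul_of_nonneg_right
    (T1X.inner hA hk hq hd.1 (by omega) ha hα _ _) (abs_nonneg _)

end Pool.Agent.LMS
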