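import Pool.Agent.LMS.St
import Pool.Agent.GBQ.Bridge

/-!
# LMS: type II
-/

set_option autoImplicit false

namespace Pool.Agent.LMS

open Finset
open Pool.Agent.GBQ (ee nd gm lam LamS rho pr Rough)

namespace T2X

theorem ee_re (x : ℝ) : (ee x).re = Real.cos (2 * Real.pi * x) := by
  unfold ee
  rw [Complex.exp_ofReal_mul_I_re]

theorem gm_nonneg {K : ℝ} (hK : 0 ≤ K) (θ : ℝ) : 0 ≤ gm K θ := by
  unfold gm
  split_ifs with h
  · exact hK
  · have h0 : 0 ≤ nd θ := abs_nonneg _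
    exact le_min hK (by positivity)

theorem gm_mono {K K' : ℝ} (hK : K ≤ K') (θ : ℝ) : gm K θ ≤ gm K' θ := by
  unfold gm
  split_ifs with h
  · exact hK
  · exact min_le_min_right _ hK

theorem cv_eq (a b : ℕ → ℝ) (M L n : ℕ) (hn : n ≠ 0) (ha : ∀ n, a n ≠ 0 → M ≤ n ∧ n < 2 * M)
    (hb : ∀ n, b n ≠ 0 → 1 ≤ n ∧ n ≤ L) :
    cv a b n = ∑ m ∈ Ico M (2 * M), ∑ l ∈ Icc 1 L, if m * l = n then a m * b l else 0 := by
  unfold cv
  rw [← Nat.sum_divisorsAntidiagonal (fun d e => a d * b e)]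
  rw [← Finset.sum_product', ← Finset.sum_filter]
  symm
  apply Finset.sum_subset
  · intro p hp
    rw [mem_filter] at hp
    rw [Nat.mem_divisorsAntidiagonal]
    exact ⟨hp.2, hn⟩
  · intro p hp hp2
    rw [Nat.mem_divisorsAntidiagonal] at hp
    by_contra h
    have h1 : a p.1 ≠ 0 := left_ne_zero_of_mul h
    have h2 : b p.2 ≠ 0 := right_ne_zero_of_mul h
    apply hp2
    rw [mem_filter, mem_product, mem_Ico, mem_Icc]
    exact ⟨⟨ha _ h1, hb _ h2⟩, hp.1⟩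

/-- the inner sum -/
noncomputable def G (b : ℕ → ℝ) (L m K x : ℕ) (α : ℝ) : ℂ :=
  ∑ l ∈ (Icc 1 L).filter (fun l => x < m * l ∧ m * l ≤ x + K),
    ((b l : ℝ) : ℂ) * ee (α * (m * l : ℕ))

theorem ws_eq (a b : ℕ → ℝ) (M L K x : ℕ) (α : ℝ) (ha : ∀ n, a n ≠ 0 → M ≤ n ∧ n < 2 * M)
    (hb : ∀ n, b n ≠ 0 → 1 ≤ n ∧ n ≤ L) :
    ws (cv a b) α K x = ∑ m ∈ Ico M (2 * M), ((a m : ℝ) : ℂ) * G b L m K x α := by
  unfold ws G
  have h1 : ∀ n ∈ Ioc x (x + K), ((cv a b n : ℝ) : ℂ) * ee (α * n) =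
      ∑ m ∈ Ico M (2 * M), ∑ l ∈ Icc 1 L,
        if m * l = n then ((a m : ℝ) : ℂ) * (((b l : ℝ) : ℂ) * ee (α * (m * l : ℕ))) else 0 := by
    intro n hn
    rw [mem_Ioc] at hn
    rw [cv_eq a b M L n (by omega) ha hb, Complex.ofReal_sum, Finset.sum_mul]
    refine sum_congr rfl fun m _ => ?_
    rw [Complex.ofReal_sum, Finset.sum_mul]
    refine sum_congr rfl fun l _ => ?_
    by_cases h : m * l = n
    · rw [if_pos h, if_pos h, ← h]
      push_cast
      ring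
    · rw [if_neg h, if_neg h, Complex.ofReal_zero, zero_mul]
  rw [sum_congr rfl h1, sum_comm]
  refine sum_congr rfl fun m _ => ?_
  rw [sum_comm, mul_sum, sum_filter]
  refine sum_congr rfl fun l _ => ?_
  rw [Finset.sum_ite_eq]
  simp only [mem_Ioc]

/-- the coefficient of `b_l b_l'`, `k = |l - l'|` -/
noncomputable def cc (M K : ℕ) (α : ℝ) (k : ℕ) : ℝ :=
  ∑ m ∈ Ico M (2 * M), Real.cos (2 * Real.pi * (α * k * m)) * max 0 ((K : ℝ) - m * k)

theorem cc_zero (M K : ℕ) (α : ℝ) : |cc M K α 0| ≤ K * M := by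
  unfold cc
  refine (abs_sum_le_sum_abs _ _).trans ?_
  have h : ∀ m ∈ Ico M (2 * M),
      |Real.cos (2 * Real.pi * (α * (0 : ℕ) * m)) * max 0 ((K : ℝ) - m * (0 : ℕ))| ≤ (K : ℝ) := by
    intro m _
    rw [abs_mul]
    have h1 : max 0 ((K : ℝ) - m * (0 : ℕ)) = K := by
      rw [Nat.cast_zero, mul_zero, sub_zero]
      exact max_eq_right (Nat.cast_nonneg K)
    rw [h1, abs_of_nonneg (Nat.cast_nonneg K : (0 : ℝ) ≤ K)]
    have h2 := Real.abs_cos_le_one (2 * Real.pi * (α * (0 : ℕ) * m))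
    have h3 : (0 : ℝ) ≤ K := Nat.cast_nonneg K
    nlinarith
  refine (sum_le_card_nsmul _ _ _ h).trans ?_
  rw [Nat.card_Ico, nsmul_eq_mul]
  have h2 : 2 * M - M = M := by omega
  rw [h2, mul_comm]

theorem cc_large (M K : ℕ) (α : ℝ) (k : ℕ) (h : K / M < k) (hM : 1 ≤ M) : cc M K α k = 0 := by
  unfold cc
  refine sum_eq_zero fun m hm => ?_
  rw [mem_Ico] at hm
  have h1 : K < k * M := (Nat.div_lt_iff_lt_mul (by omega)).1 h
  have h2 : K < m * k := by nlinarith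
  have h3 : ((K : ℝ) - m * k) ≤ 0 := by
    have : (K : ℝ) < m * k := by exact_mod_cast h2
    linarith
  rw [max_eq_left h3, mul_zero]

theorem cc_mid (hA : St_Abl) (M K : ℕ) (α : ℝ) (k : ℕ) (hM : 1 ≤ M) :
    |cc M K α k| ≤ 2 * K * gm (M : ℝ) (α * k) := by
  have hK0 : (0 : ℝ) ≤ K := Nat.cast_nonneg K
  have h := hA M (2 * M) (fun m => max 0 ((K : ℝ) - m * k)) (fun m => ee (α * k * m)) K
    (gm (M : ℝ) (α * k)) (gm_nonneg (Nat.cast_nonneg M) _) ?_ ?_ ?_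
  · rw [max_eq_left hK0] at h
    refine le_trans ?_ h
    refine le_trans (le_of_eq ?_) (Complex.abs_re_le_norm _)
    congr 1
    rw [Complex.re_sum]
    unfold cc
    refine sum_congr rfl fun m _ => ?_
    rw [Complex.re_ofReal_mul, ee_re, mul_comm]
  · intro m _ _
    refine ⟨le_max_left _ _, max_le hK0 ?_⟩
    have : (0 : ℝ) ≤ (m : ℝ) * k := by positivity
    linarith
  · intro j hj1 hj2
    have h1 := Pool.Agent.GBQ.thm_Geo (M - 1) (j - 1) (α * k) (by omega)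
    have h2 : Ioc (M - 1) (j - 1) = Ico M j := by
      ext x
      simp only [mem_Ioc, mem_Ico]
      omega
    rw [h2] at h1
    refine h1.trans (gm_mono ?_ _)
    have h3 : (((j - 1 : ℕ) : ℝ)) = (j : ℝ) - 1 := by
      rw [Nat.cast_sub (by omega), Nat.cast_one]
    have h4 : (((M - 1 : ℕ) : ℝ)) = (M : ℝ) - 1 := by
      rw [Nat.cast_sub (by omega), Nat.cast_one]
    have h5 : (j : ℝ) ≤ 2 * M := by exact_mod_cast hj2
    rw [h3, h4]
    linarith
  · left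
    intro m _ _
    refine max_le_max le_rfl ?_
    have h0 : (0 : ℝ) ≤ k := Nat.cast_nonneg k
    push_cast
    nlinarith

/-- the sum over `m` of the terms of `St_Dil` -/
theorem pair_eq (M K : ℕ) (α : ℝ) (l l' : ℕ) :
    ∑ m ∈ Ico M (2 * M), ((ee (α * ((m : ℝ) * ((l : ℝ) - l')))).re *
      max 0 ((K : ℝ) - m * |(l : ℝ) - l'|)) = cc M K α ((l - l') + (l' - l)) := by
  unfold cc
  refine sum_congr rfl fun m _ => ?_
  rw [ee_re]
  rcases le_total l l' with h | h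
  · have h1 : (l - l') + (l' - l) = l' - l := by omega
    have h2 : |(l : ℝ) - l'| = ((l' - l : ℕ) : ℝ) := by
      rw [Nat.cast_sub h, abs_sub_comm, abs_of_nonneg]
      have : (l : ℝ) ≤ l' := by exact_mod_cast h
      linarith
    rw [h1, h2, ← Real.cos_neg]
    congr 2
    rw [Nat.cast_sub h]
    ring
  · have h1 : (l - l') + (l' - l) = l - l' := by omega
    have h2 : |(l : ℝ) - l'| = ((l - l' : ℕ) : ℝ) := by
      rw [Nat.cast_sub h, abs_of_nonneg]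
      have : (l' : ℝ) ≤ l := by exact_mod_cast h
      linarith
    rw [h1, h2]
    congr 2
    rw [Nat.cast_sub h]
    ring

/-- the part `1 ≤ k ≤ K / M` -/
noncomputable def D (M K : ℕ) (α : ℝ) (j : ℕ) : ℝ :=
  ∑ k ∈ Icc 1 (K / M), if j = k then 2 * K * gm (M : ℝ) (α * k) else 0

theorem D_nonneg (M K : ℕ) (α : ℝ) (j : ℕ) : 0 ≤ D M K α j := by
  unfold D
  refine sum_nonneg fun k _ => ?_
  split_ifs
  · have := gm_nonneg (Nat.cast_nonneg M : (0 : ℝ) ≤ M) (α * k)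
    positivity
  · exact le_rfl

theorem cc_le (hA : St_Abl) (M K : ℕ) (α : ℝ) (k : ℕ) (hM : 1 ≤ M) (hk : 1 ≤ k) :
    |cc M K α k| ≤ D M K α k := by
  by_cases h : k ≤ K / M
  · unfold D
    rw [Finset.sum_ite_eq, if_pos (mem_Icc.2 ⟨hk, h⟩)]
    exact cc_mid hA M K α k hM
  · rw [cc_large M K α k (by omega) hM, abs_zero]
    exact D_nonneg _ _ _ _

theorem pair_le (hA : St_Abl) (M K : ℕ) (α : ℝ) (l l' : ℕ) (hM : 1 ≤ M) :
    |cc M K α ((l - l') + (l' - l))| ≤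
      (if l = l' then (K : ℝ) * M else 0) + D M K α (l - l') + D M K α (l' - l) := by
  have h1 := D_nonneg M K α (l - l')
  have h2 := D_nonneg M K α (l' - l)
  rcases lt_trichotomy l l' with h | h | h
  · rw [if_neg (by omega)]
    have h3 : (l - l') + (l' - l) = l' - l := by omega
    rw [h3]
    have := cc_le hA M K α (l' - l) hM (by omega)
    linarith
  · rw [if_pos h]
    subst h
    have h3 : (l - l) + (l - l) = 0 := by omega
    rw [h3]
    have := cc_zero M K α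
    linarith
  · rw [if_neg (by omega)]
    have h3 : (l - l') + (l' - l) = l - l' := by omega
    rw [h3]
    have := cc_le hA M K α (l - l') hM (by omega)
    linarith

theorem D_sum1 (M K L : ℕ) (α : ℝ) (l : ℕ) :
    ∑ l' ∈ Icc 1 L, D M K α (l - l') ≤ ∑ k ∈ Icc 1 (K / M), 2 * K * gm (M : ℝ) (α * k) := by
  unfold D
  rw [sum_comm]
  refine sum_le_sum fun k hk => ?_
  rw [mem_Icc] at hk
  have h0 : 0 ≤ 2 * K * gm (M : ℝ) (α * k) := by
    have := gm_nonneg (Nat.cast_nonneg M : (0 : ℝ) ≤ M) (α * k)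
    positivity
  rw [← sum_filter, sum_const, nsmul_eq_mul]
  have h1 : (((Icc 1 L).filter (fun l' => l - l' = k)).card : ℝ) ≤ 1 := by
    have : ((Icc 1 L).filter (fun l' => l - l' = k)).card ≤ 1 := by
      rw [Finset.card_le_one]
      intro x hx y hy
      rw [mem_filter] at hx hy
      omega
    exact_mod_cast this
  nlinarith

theorem D_sum2 (M K L : ℕ) (α : ℝ) (l : ℕ) :
    ∑ l' ∈ Icc 1 L, D M K α (l' - l) ≤ ∑ k ∈ Icc 1 (K / M), 2 * K * gm (M : ℝ) (α * k) := by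
  unfold D
  rw [sum_comm]
  refine sum_le_sum fun k hk => ?_
  rw [mem_Icc] at hk
  have h0 : 0 ≤ 2 * K * gm (M : ℝ) (α * k) := by
    have := gm_nonneg (Nat.cast_nonneg M : (0 : ℝ) ≤ M) (α * k)
    positivity
  rw [← sum_filter, sum_const, nsmul_eq_mul]
  have h1 : (((Icc 1 L).filter (fun l' => l' - l = k)).card : ℝ) ≤ 1 := by
    have : ((Icc 1 L).filter (fun l' => l' - l = k)).card ≤ 1 := by
      rw [Finset.card_le_one]
      intro x hx y hy
      rw [mem_filter] at hx hy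
      omega
    exact_mod_cast this
  nlinarith

/-- the coefficient bound -/
noncomputable def E (M K : ℕ) (α : ℝ) (l l' : ℕ) : ℝ :=
  (if l = l' then (K : ℝ) * M else 0) + D M K α (l - l') + D M K α (l' - l)

theorem E_nonneg (M K : ℕ) (α : ℝ) (l l' : ℕ) : 0 ≤ E M K α l l' := by
  unfold E
  have h1 := D_nonneg M K α (l - l')
  have h2 := D_nonneg M K α (l' - l)
  split_ifs
  · positivity
  · linarith

theorem E_symm (M K : ℕ) (α : ℝ) (l l' : ℕ) : E M K α l l' = E M K α l' l := by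
  unfold E
  by_cases h : l = l'
  · subst h
    rfl
  · rw [if_neg h, if_neg (Ne.symm h)]
    ring

theorem E_sum (M K L : ℕ) (α : ℝ) (l : ℕ) :
    ∑ l' ∈ Icc 1 L, E M K α l l' ≤
      K * (M + 4 * ∑ k ∈ Icc 1 (K / M), gm (M : ℝ) (α * k)) := by
  unfold E
  rw [sum_add_distrib, sum_add_distrib, Finset.sum_ite_eq]
  have h1 := D_sum1 M K L α l
  have h2 := D_sum2 M K L α l
  rw [← mul_sum] at h1 h2
  have h3 : (if l ∈ Icc 1 L then (K : ℝ) * M else 0) ≤ K * M := by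
    split_ifs
    · exact le_rfl
    · positivity
  nlinarith

theorem schur (M K L : ℕ) (α : ℝ) (b : ℕ → ℝ) :
    ∑ l ∈ Icc 1 L, ∑ l' ∈ Icc 1 L, |b l| * |b l'| * E M K α l l' ≤
      (∑ l ∈ Icc 1 L, b l ^ 2) * (K * (M + 4 * ∑ k ∈ Icc 1 (K / M), gm (M : ℝ) (α * k))) := by
  have h1 : ∑ l ∈ Icc 1 L, ∑ l' ∈ Icc 1 L, |b l| * |b l'| * E M K α l l' ≤
      ∑ l ∈ Icc 1 L, ∑ l' ∈ Icc 1 L,
        ((1 / 2) * (b l ^ 2 * E M K α l l') + (1 / 2) * (b l' ^ 2 * E M K α l' l)) := by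
    refine sum_le_sum fun l _ => sum_le_sum fun l' _ => ?_
    rw [E_symm M K α l' l]
    have h2 := E_nonneg M K α l l'
    have h3 : |b l| * |b l'| ≤ (1 / 2) * b l ^ 2 + (1 / 2) * b l' ^ 2 := by
      rw [← sq_abs (b l), ← sq_abs (b l')]
      nlinarith [sq_nonneg (|b l| - |b l'|)]
    nlinarith
  refine h1.trans ?_
  have h4 : ∑ l ∈ Icc 1 L, ∑ l' ∈ Icc 1 L,
        ((1 / 2) * (b l ^ 2 * E M K α l l') + (1 / 2) * (b l' ^ 2 * E M K α l' l)) =
      ∑ l ∈ Icc 1 L, b l ^ 2 * ∑ l' ∈ Icc 1 L, E M K α l l' := by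
    simp only [sum_add_distrib]
    have h5 : ∑ l ∈ Icc 1 L, ∑ l' ∈ Icc 1 L, (1 / 2) * (b l' ^ 2 * E M K α l' l) =
        ∑ l ∈ Icc 1 L, ∑ l' ∈ Icc 1 L, (1 / 2) * (b l ^ 2 * E M K α l l') := by
      rw [sum_comm]
    rw [h5, ← sum_add_distrib]
    refine sum_congr rfl fun l _ => ?_
    rw [← sum_add_distrib, mul_sum]
    refine sum_congr rfl fun l' _ => ?_
    ring
  rw [h4, sum_mul]
  refine sum_le_sum fun l _ => ?_
  exact mul_le_mul_of_nonneg_left (E_sum M K L α l) (sq_nonneg _)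

end T2X

open T2X in
theorem thm_T2 (hD : St_Dil) (hA : St_Abl) : St_T2 := by
  intro a b M L K X α hM hK ha hb
  unfold ms
  have h1 : ∀ x ∈ Ioc X (2 * X), ‖ws (cv a b) α K x‖ ^ 2 ≤
      (∑ m ∈ Ico M (2 * M), a m ^ 2) * ∑ m ∈ Ico M (2 * M), ‖G b L m K x α‖ ^ 2 := by
    intro x _
    rw [ws_eq a b M L K x α ha hb]
    have h2 : ‖∑ m ∈ Ico M (2 * M), ((a m : ℝ) : ℂ) * G b L m K x α‖ ≤
        ∑ m ∈ Ico M (2 * M), |a m| * ‖G b L m K x α‖ := by
      refine (norm_sum_le _ _).trans (le_of_eq ?_)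
      refine sum_congr rfl fun m _ => ?_
      rw [norm_mul, Complex.norm_real, Real.norm_eq_abs]
    have h3 := Finset.sum_mul_sq_le_sq_mul_sq (Ico M (2 * M)) (fun m => |a m|)
      (fun m => ‖G b L m K x α‖)
    simp only [sq_abs] at h3
    refine le_trans ?_ h3
    exact pow_le_pow_left₀ (norm_nonneg _) h2 2
  refine (sum_le_sum h1).trans ?_
  rw [← mul_sum, sum_comm]
  have h4 : ∑ m ∈ Ico M (2 * M), ∑ x ∈ Ioc X (2 * X), ‖G b L m K x α‖ ^ 2 ≤
      (∑ l ∈ Icc 1 L, b l ^ 2) * (K * (M + 4 * ∑ k ∈ Icc 1 (K / M), gm (M : ℝ) (α * k))) := by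
    have h5 : ∀ m ∈ Ico M (2 * M), ∑ x ∈ Ioc X (2 * X), ‖G b L m K x α‖ ^ 2 ≤
        ∑ l ∈ Icc 1 L, ∑ l' ∈ Icc 1 L, b l * b l' *
          ((ee (α * ((m : ℝ) * ((l : ℝ) - l')))).re * max 0 ((K : ℝ) - m * |(l : ℝ) - l'|)) := by
      intro m hm
      rw [mem_Ico] at hm
      exact hD b L m K X α (by omega)
    refine (sum_le_sum h5).trans ?_
    rw [sum_comm]
    refine le_trans ?_ (schur M K L α b)
    refine sum_le_sum fun l _ => ?_
    rw [sum_comm]
    refine sum_le_sum fun l' _ => ?_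
    rw [← mul_sum, pair_eq]
    have h6 := pair_le hA M K α l l' hM
    have h7 : b l * b l' * cc M K α ((l - l') + (l' - l)) ≤
        |b l| * |b l'| * |cc M K α ((l - l') + (l' - l))| := by
      rw [← abs_mul, ← abs_mul]
      exact le_abs_self _
    refine h7.trans ?_
    exact mul_le_mul_of_nonneg_left h6 (by positivity)
  have h8 : 0 ≤ ∑ m ∈ Ico M (2 * M), a m ^ 2 := sum_nonneg fun m _ => sq_nonneg _
  refine (mul_le_mul_of_nonneg_left h4 h8).trans (le_of_eq ?_)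
  ring

end Pool.Agent.LMS
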