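import Pool.Agent.LMS.St
import Pool.Agent.SI.Cof

/-!
# LMS: module T3 (two big smooth factors)
-/

set_option autoImplicit false

namespace Pool.Agent.LMS

open Finset MeasureTheory
open Pool.Agent.GBQ (ee nd gm)
open Pool.Agent.SI (fac cof siz)

namespace T3X

lemma cof_two (Z k1 k2 i1 i2 n : ℕ) :
    cof Z [(k1, i1), (k2, i2)] n = cv (fac k1 Z i1) (fac k2 Z i2) n := by
  unfold cv
  change ∑ d ∈ n.divisors, fac k1 Z i1 d * (∑ e ∈ (n / d).divisors, fac k2 Z i2 e *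
    (if n / d / e = 1 then (1 : ℝ) else 0)) = _
  refine sum_congr rfl fun d hd => ?_
  congr 1
  have hdn := Nat.dvd_of_mem_divisors hd
  have hn : n ≠ 0 := (Nat.mem_divisors.1 hd).2
  have hd0 : 0 < d := Nat.pos_of_mem_divisors hd
  have hq : 0 < n / d := Nat.div_pos (Nat.le_of_dvd (Nat.pos_of_ne_zero hn) hdn) hd0
  rw [sum_eq_single (n / d)]
  · rw [Nat.div_self hq, if_pos rfl, mul_one]
  · intro e he hne
    rw [if_neg, mul_zero]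
    intro h1
    apply hne
    have he' := Nat.dvd_of_mem_divisors he
    have := Nat.div_mul_cancel he'
    rw [h1, one_mul] at this
    exact this
  · intro h
    exact absurd (Nat.mem_divisors_self _ hq.ne') h

lemma supp_s (Z k1 k2 i1 i2 n : ℕ) (h : cv (fac k1 Z i1) (fac k2 Z i2) n ≠ 0) :
    1 ≤ n ∧ n ≤ 2 ^ (i1 + i2 + 2) := by
  rw [← cof_two] at h
  have h1 := Pool.Agent.SI.thm_Cof.2.1 Z _ n h
  have h2 : siz [(k1, i1), (k2, i2)] = i1 + i2 := by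
    simp [siz]
  rw [h2] at h1
  exact ⟨le_trans Nat.one_le_two_pow h1.1, h1.2⟩

lemma sq_s : ∃ C : ℕ, ∀ Z k1 k2 i1 i2 : ℕ,
    ∑ n ∈ Icc 1 (2 ^ (i1 + i2 + 2)), cv (fac k1 Z i1) (fac k2 Z i2) n ^ 2 ≤
      C * 2 ^ (i1 + i2) * (1 + (i1 : ℝ) + i2) ^ C := by
  obtain ⟨C, hC⟩ := Pool.Agent.SI.thm_Cof.2.2
  refine ⟨C, fun Z k1 k2 i1 i2 => ?_⟩
  have h1 := (hC Z [(k1, i1), (k2, i2)] (by simp)).1
  have h2 : siz [(k1, i1), (k2, i2)] = i1 + i2 := by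
    simp [siz]
  rw [h2] at h1
  simp only [cof_two, List.length_cons, List.length_nil] at h1
  push_cast at h1
  rw [← add_assoc] at h1
  exact h1

lemma F_eq (b s : ℕ → ℝ) (D N : ℕ) (hb : ∀ n, b n ≠ 0 → 1 ≤ n ∧ n ≤ D)
    (hs : ∀ n, s n ≠ 0 → 1 ≤ n ∧ n ≤ N) (θ : ℝ) :
    ∑ n ∈ Icc 1 (D * N), ((cv b s n : ℝ) : ℂ) * ee (θ * n) =
      ∑ d ∈ Icc 1 D, (b d : ℂ) * ∑ m ∈ Icc 1 N, ((s m : ℝ) : ℂ) * ee (θ * (d * m : ℕ)) := by
  simp only [mul_sum]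
  rw [← sum_product']
  rw [← sum_fiberwise_of_maps_to (g := fun p : ℕ × ℕ => p.1 * p.2) (t := Icc 1 (D * N))]
  · refine sum_congr rfl fun n hn => ?_
    have hn1 := (mem_Icc.1 hn).1
    have hcv : cv b s n = ∑ p ∈ n.divisorsAntidiagonal, b p.1 * s p.2 := by
      unfold cv
      exact (Nat.sum_divisorsAntidiagonal (fun x y => b x * s y)).symm
    rw [hcv]
    push_cast
    rw [sum_mul]
    symm
    rw [← sum_subset (s₁ := (Icc 1 D ×ˢ Icc 1 N).filter (fun p => p.1 * p.2 = n))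
      (s₂ := n.divisorsAntidiagonal)]
    · refine sum_congr rfl fun p hp => ?_
      have := (mem_filter.1 hp).2
      rw [← this]
      push_cast
      ring
    · intro p hp
      rw [Nat.mem_divisorsAntidiagonal]
      exact ⟨(mem_filter.1 hp).2, by omega⟩
    · intro p hp hnp
      by_contra hne
      apply hnp
      have h1 : b p.1 ≠ 0 := by
        intro h
        apply hne
        rw [h]
        simp
      have h2 : s p.2 ≠ 0 := by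
        intro h
        apply hne
        rw [h]
        simp
      rw [mem_filter, mem_product, mem_Icc, mem_Icc]
      exact ⟨⟨hb _ h1, hs _ h2⟩, (Nat.mem_divisorsAntidiagonal.1 hp).1⟩
  · intro p hp
    rw [mem_product, mem_Icc, mem_Icc] at hp
    rw [mem_Icc]
    exact ⟨Nat.mul_pos (by omega) (by omega), Nat.mul_le_mul hp.1.2 hp.2.2⟩

lemma F_sq (b : ℕ → ℝ) (D : ℕ) (S : ℕ → ℂ) :
    ‖∑ d ∈ Icc 1 D, (b d : ℂ) * S d‖ ^ 2 ≤
      (∑ d ∈ Icc 1 D, b d ^ 2) * ∑ d ∈ Icc 1 D, ‖S d‖ ^ 2 := by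
  have h1 : ‖∑ d ∈ Icc 1 D, (b d : ℂ) * S d‖ ≤ ∑ d ∈ Icc 1 D, |b d| * ‖S d‖ := by
    refine (norm_sum_le _ _).trans (sum_le_sum fun d _ => ?_)
    rw [norm_mul, Complex.norm_real, Real.norm_eq_abs]
  have h2 := sum_mul_sq_le_sq_mul_sq (Icc 1 D) (fun d => |b d|) (fun d => ‖S d‖)
  simp only [sq_abs] at h2
  exact (pow_le_pow_left₀ (norm_nonneg _) h1 2).trans h2

lemma ee_cont : Continuous ee := by
  unfold Pool.Agent.GBQ.ee
  fun_prop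

/-- splitting of the integral with the kernel -/
lemma split (g : ℝ → ℝ) (hg : Continuous g) (h0 : ∀ x, 0 ≤ g x) (K J : ℕ) (hK : 1 ≤ K)
    (hJ : 1 ≤ J) (hη : (J : ℝ) / K ≤ 1 / 2) :
    ∫ β in (-(1 / 2 : ℝ))..(1 / 2), g β * (2 * (K : ℝ) ^ 2 / (1 + 4 * (K : ℝ) ^ 2 * β ^ 2)) ≤
      2 * (K : ℝ) ^ 2 * (∫ β in (-((J : ℝ) / K))..((J : ℝ) / K), g β) +
      (K : ℝ) ^ 2 / (2 * (J : ℝ) ^ 2) * ∫ β in (-(1 / 2 : ℝ))..(1 / 2), g β := by
  have hK0 : (0 : ℝ) < K := by exact_mod_cast hK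
  have hJ0 : (0 : ℝ) < J := by exact_mod_cast hJ
  have hηp : 0 < (J : ℝ) / K := by positivity
  obtain ⟨η, hηd⟩ : ∃ η : ℝ, (J : ℝ) / K = η := ⟨_, rfl⟩
  rw [hηd] at hη hηp ⊢
  have hden : ∀ β : ℝ, 0 < 1 + 4 * (K : ℝ) ^ 2 * β ^ 2 := fun β => by positivity
  have hW : Continuous (fun β : ℝ => g β * (2 * (K : ℝ) ^ 2 / (1 + 4 * (K : ℝ) ^ 2 * β ^ 2))) := by
    refine hg.mul (Continuous.div (by fun_prop) (by fun_prop) fun β => (hden β).ne')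
  have e1 : ∫ β in (-(1 / 2 : ℝ))..(1 / 2), g β *
      (2 * (K : ℝ) ^ 2 / (1 + 4 * (K : ℝ) ^ 2 * β ^ 2)) =
      (∫ β in (-(1 / 2 : ℝ))..(-η), g β * (2 * (K : ℝ) ^ 2 / (1 + 4 * (K : ℝ) ^ 2 * β ^ 2))) +
      (∫ β in (-η)..η, g β * (2 * (K : ℝ) ^ 2 / (1 + 4 * (K : ℝ) ^ 2 * β ^ 2))) +
      ∫ β in η..(1 / 2), g β * (2 * (K : ℝ) ^ 2 / (1 + 4 * (K : ℝ) ^ 2 * β ^ 2)) := by
    rw [intervalIntegral.integral_add_adjacent_intervals (hW.intervalIntegrable _ _)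
      (hW.intervalIntegrable _ _), intervalIntegral.integral_add_adjacent_intervals
      (hW.intervalIntegrable _ _) (hW.intervalIntegrable _ _)]
  have e2 : ∫ β in (-(1 / 2 : ℝ))..(1 / 2), g β =
      (∫ β in (-(1 / 2 : ℝ))..(-η), g β) + (∫ β in (-η)..η, g β) + ∫ β in η..(1 / 2), g β := by
    rw [intervalIntegral.integral_add_adjacent_intervals (hg.intervalIntegrable _ _)
      (hg.intervalIntegrable _ _), intervalIntegral.integral_add_adjacent_intervals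
      (hg.intervalIntegrable _ _) (hg.intervalIntegrable _ _)]
  have out : ∀ β : ℝ, η ≤ |β| → g β * (2 * (K : ℝ) ^ 2 / (1 + 4 * (K : ℝ) ^ 2 * β ^ 2)) ≤
      (K : ℝ) ^ 2 / (2 * (J : ℝ) ^ 2) * g β := by
    intro β hβ
    rw [mul_comm]
    refine mul_le_mul_of_nonneg_right ?_ (h0 β)
    have h1 : η ^ 2 ≤ β ^ 2 := by
      rw [← sq_abs β]
      exact pow_le_pow_left₀ hηp.le hβ 2
    have h2 : (J : ℝ) ^ 2 ≤ (K : ℝ) ^ 2 * β ^ 2 := by
      have : (J : ℝ) = K * η := by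
        rw [← hηd]
        field_simp
      rw [this, mul_pow]
      exact mul_le_mul_of_nonneg_left h1 (by positivity)
    rw [div_le_div_iff₀ (hden β) (by positivity)]
    have h3 := mul_le_mul_of_nonneg_left h2 (show (0 : ℝ) ≤ 4 * (K : ℝ) ^ 2 by positivity)
    nlinarith [sq_nonneg (K : ℝ)]
  have i1 : ∫ β in (-(1 / 2 : ℝ))..(-η), g β *
      (2 * (K : ℝ) ^ 2 / (1 + 4 * (K : ℝ) ^ 2 * β ^ 2)) ≤
      (K : ℝ) ^ 2 / (2 * (J : ℝ) ^ 2) * ∫ β in (-(1 / 2 : ℝ))..(-η), g β := by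
    rw [← intervalIntegral.integral_const_mul]
    refine intervalIntegral.integral_mono_on (by linarith) (hW.intervalIntegrable _ _)
      ((hg.const_mul _).intervalIntegrable _ _) fun β hβ => out β ?_
    rw [le_abs]
    right
    linarith [hβ.2]
  have i3 : ∫ β in η..(1 / 2), g β *
      (2 * (K : ℝ) ^ 2 / (1 + 4 * (K : ℝ) ^ 2 * β ^ 2)) ≤
      (K : ℝ) ^ 2 / (2 * (J : ℝ) ^ 2) * ∫ β in η..(1 / 2), g β := by
    rw [← intervalIntegral.integral_const_mul]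
    refine intervalIntegral.integral_mono_on (by linarith) (hW.intervalIntegrable _ _)
      ((hg.const_mul _).intervalIntegrable _ _) fun β hβ => out β ?_
    rw [le_abs]
    left
    linarith [hβ.1]
  have i2 : ∫ β in (-η)..η, g β *
      (2 * (K : ℝ) ^ 2 / (1 + 4 * (K : ℝ) ^ 2 * β ^ 2)) ≤
      2 * (K : ℝ) ^ 2 * ∫ β in (-η)..η, g β := by
    rw [← intervalIntegral.integral_const_mul]
    refine intervalIntegral.integral_mono_on (by linarith) (hW.intervalIntegrable _ _)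
      ((hg.const_mul _).intervalIntegrable _ _) fun β hβ => ?_
    rw [mul_comm]
    refine mul_le_mul_of_nonneg_right ?_ (h0 β)
    rw [div_le_iff₀ (hden β)]
    have h3 : (0 : ℝ) ≤ 2 * (K : ℝ) ^ 2 * (4 * (K : ℝ) ^ 2 * β ^ 2) := by positivity
    linarith
  have i4 : 0 ≤ (K : ℝ) ^ 2 / (2 * (J : ℝ) ^ 2) * ∫ β in (-η)..η, g β := by
    refine mul_nonneg (by positivity) ?_
    exact intervalIntegral.integral_nonneg (by linarith) fun β _ => h0 β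
  rw [e1, e2, mul_add, mul_add]
  linarith

lemma gm_meas (L : ℝ) : Measurable (gm L) := by
  have h1 : Measurable nd := by
    unfold Pool.Agent.GBQ.nd
    have h2 : Measurable (fun θ : ℝ => ((round θ : ℤ) : ℝ)) := by
      simp only [round_eq]
      exact (measurable_from_top.comp (Int.measurable_floor.comp (measurable_id.add_const _)))
    exact (measurable_id.sub h2).norm
  unfold Pool.Agent.GBQ.gm
  refine Measurable.ite (h1 (measurableSet_singleton 0)) measurable_const ?_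
  exact measurable_const.min (measurable_const.div (measurable_const.mul h1))

lemma gm_nonneg (L θ : ℝ) (hL : 0 ≤ L) : 0 ≤ gm L θ ∧ gm L θ ≤ L := by
  unfold Pool.Agent.GBQ.gm
  split_ifs with h
  · exact ⟨hL, le_rfl⟩
  · refine ⟨le_min hL ?_, min_le_left _ _⟩
    have : 0 ≤ nd θ := abs_nonneg _
    positivity

lemma gs_meas (M L : ℕ) : Measurable (gs M L) := by
  unfold gs
  refine Finset.measurable_sum _ fun m _ => ?_
  exact (gm_meas L).comp (measurable_id.mul_const _)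

lemma gs_bd (M L : ℕ) (θ : ℝ) : 0 ≤ gs M L θ ∧ gs M L θ ≤ M * L := by
  unfold gs
  constructor
  · exact sum_nonneg fun m _ => (gm_nonneg _ _ (Nat.cast_nonneg _)).1
  · refine (sum_le_card_nsmul _ _ (L : ℝ) fun m _ => (gm_nonneg _ _ (Nat.cast_nonneg _)).2).trans ?_
    rw [Nat.card_Ico, nsmul_eq_mul]
    have : 2 * M - M = M := by omega
    rw [this]

lemma gs_int (M L : ℕ) (a b : ℝ) (hab : a ≤ b) :
    IntervalIntegrable (fun θ => gs M L θ ^ 2) volume a b := by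
  rw [intervalIntegrable_iff_integrableOn_Ioc_of_le hab]
  refine Measure.integrableOn_of_bounded (M := ((M : ℝ) * L) ^ 2) (by simp)
    ((gs_meas M L).pow_const 2).aestronglyMeasurable ?_
  refine Filter.Eventually.of_forall fun θ => ?_
  rw [Real.norm_eq_abs, abs_of_nonneg (by positivity)]
  exact pow_le_pow_left₀ (gs_bd M L θ).1 (gs_bd M L θ).2 2

/-- the near part -/
lemma near (s : ℕ → ℝ) (N d : ℕ) (hd : 1 ≤ d) (α η τ : ℝ) (hη : 0 ≤ η) (hτ : d * η ≤ τ)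
    (M L : ℕ) (c : ℝ)
    (hS : ∀ θ : ℝ, ‖∑ n ∈ Icc 1 N, ((s n : ℝ) : ℂ) * ee (θ * n)‖ ≤ c * gs M L θ) :
    ∫ β in (-η)..η, ‖∑ n ∈ Icc 1 N, ((s n : ℝ) : ℂ) * ee ((α + β) * (d * n : ℕ))‖ ^ 2 ≤
      c ^ 2 * ∫ θ in (d * α - τ)..(d * α + τ), gs M L θ ^ 2 := by
  have hd0 : (0 : ℝ) < d := by exact_mod_cast hd
  have hd1 : (1 : ℝ) ≤ d := by exact_mod_cast hd
  have hcont : Continuous (fun θ : ℝ => ‖∑ n ∈ Icc 1 N, ((s n : ℝ) : ℂ) * ee (θ * n)‖ ^ 2) := by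
    refine (Continuous.norm ?_).pow 2
    refine continuous_finsetSum _ fun n _ => ?_
    exact continuous_const.mul (ee_cont.comp (by fun_prop))
  have e1 : ∀ β : ℝ, ‖∑ n ∈ Icc 1 N, ((s n : ℝ) : ℂ) * ee ((α + β) * (d * n : ℕ))‖ ^ 2 =
      (fun θ : ℝ => ‖∑ n ∈ Icc 1 N, ((s n : ℝ) : ℂ) * ee (θ * n)‖ ^ 2) (d * β + d * α) := by
    intro β
    dsimp only
    congr 2
    refine sum_congr rfl fun n _ => ?_
    congr 2
    push_cast
    ring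
  simp only [e1]
  rw [intervalIntegral.integral_comp_mul_add
    (fun θ : ℝ => ‖∑ n ∈ Icc 1 N, ((s n : ℝ) : ℂ) * ee (θ * n)‖ ^ 2) hd0.ne' (d * α)]
  have h0 : ∀ θ : ℝ, 0 ≤ ‖∑ n ∈ Icc 1 N, ((s n : ℝ) : ℂ) * ee (θ * n)‖ ^ 2 :=
    fun θ => by positivity
  have hdη : 0 ≤ d * η := by positivity
  have g1 : ∫ θ in ((d : ℝ) * -η + d * α)..((d : ℝ) * η + d * α),
      ‖∑ n ∈ Icc 1 N, ((s n : ℝ) : ℂ) * ee (θ * n)‖ ^ 2 ≤
      ∫ θ in (d * α - τ)..(d * α + τ), ‖∑ n ∈ Icc 1 N, ((s n : ℝ) : ℂ) * ee (θ * n)‖ ^ 2 := by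
    refine intervalIntegral.integral_mono_interval (by linarith) (by linarith) (by linarith)
      (Filter.Eventually.of_forall h0) (hcont.intervalIntegrable _ _)
  have g2 : ∫ θ in (d * α - τ)..(d * α + τ),
      ‖∑ n ∈ Icc 1 N, ((s n : ℝ) : ℂ) * ee (θ * n)‖ ^ 2 ≤
      c ^ 2 * ∫ θ in (d * α - τ)..(d * α + τ), gs M L θ ^ 2 := by
    rw [← intervalIntegral.integral_const_mul]
    refine intervalIntegral.integral_mono_on (by linarith) (hcont.intervalIntegrable _ _)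
      ((gs_int M L _ _ (by linarith)).const_mul _) fun θ _ => ?_
    rw [← mul_pow]
    exact pow_le_pow_left₀ (norm_nonneg _) (hS θ) 2
  have g3 : 0 ≤ ∫ θ in ((d : ℝ) * -η + d * α)..((d : ℝ) * η + d * α),
      ‖∑ n ∈ Icc 1 N, ((s n : ℝ) : ℂ) * ee (θ * n)‖ ^ 2 :=
    intervalIntegral.integral_nonneg (by linarith) fun θ _ => h0 θ
  rw [smul_eq_mul]
  refine le_trans ?_ (g1.trans g2)
  refine mul_le_of_le_one_left g3 ?_
  exact inv_le_one_of_one_le₀ hd1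

lemma log_bd (i : ℕ) : 0 ≤ 1 + Real.log (4 * (2 ^ i : ℕ)) ∧
    1 + Real.log (4 * (2 ^ i : ℕ)) ≤ 3 + i := by
  have h : (4 : ℝ) * (2 ^ i : ℕ) = 2 ^ (i + 2) := by
    push_cast
    ring
  rw [h, Real.log_pow]
  have h1 : 0 ≤ Real.log 2 := Real.log_nonneg (by norm_num)
  have h2 : Real.log 2 ≤ 1 := by
    have := Real.log_two_lt_d9
    linarith
  push_cast
  constructor
  · positivity
  · nlinarith [mul_le_mul_of_nonneg_left h2 (show (0 : ℝ) ≤ (i : ℝ) + 2 by positivity)]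

/-- the final estimate for one `d` -/
lemma num (Cw P K J I1 I2 I3 Lg u v Q Q4 R : ℝ) (C' : ℕ) (hCw : 0 < Cw) (hP : 1 ≤ P)
    (hu : 0 ≤ u) (hv : 0 ≤ v) (huP : u ≤ P) (hvP : v ≤ P) (hLg : 0 ≤ Lg) (hLgP : Lg ≤ 3 * P)
    (hQ : 0 ≤ Q) (hQ4 : 0 ≤ Q4) (hI3 : R ≤ 2 * K ^ 2 * I1 + K ^ 2 / (2 * J ^ 2) * I2)
    (h1 : I1 ≤ (2 * u * v) ^ 2 * I3) (h2 : I3 ≤ Cw * Lg ^ 2 * Q)
    (h3 : K ^ 2 / (2 * J ^ 2) * I2 ≤ K ^ 2 * (C' * P ^ C' * Q4)) :
    R ≤ (⌈72 * Cw⌉₊ + C' + 6 : ℕ) * P ^ (⌈72 * Cw⌉₊ + C' + 6) * K ^ 2 * (Q + Q4) := by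
  obtain ⟨E, hE⟩ : ∃ E : ℕ, ⌈72 * Cw⌉₊ + C' + 6 = E := ⟨_, rfl⟩
  have hE1 : 72 * Cw ≤ E := by
    refine (Nat.le_ceil _).trans ?_
    exact_mod_cast (by omega : ⌈72 * Cw⌉₊ ≤ E)
  have hE2 : (C' : ℝ) ≤ E := by exact_mod_cast (by omega : C' ≤ E)
  rw [hE]
  have hP0 : 0 ≤ P := by linarith
  have a1 : I3 ≤ Cw * (9 * P ^ 2) * Q := by
    refine h2.trans ?_
    have : Lg ^ 2 ≤ 9 * P ^ 2 := by
      have := pow_le_pow_left₀ hLg hLgP 2
      nlinarith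
    exact mul_le_mul_of_nonneg_right (mul_le_mul_of_nonneg_left this hCw.le) hQ
  have a2 : (2 * u * v) ^ 2 ≤ 4 * P ^ 4 := by
    have : 2 * u * v ≤ 2 * P * P := mul_le_mul (by linarith) hvP hv (by linarith)
    have h := pow_le_pow_left₀ (by positivity) this 2
    nlinarith
  have a3 : I1 ≤ 4 * P ^ 4 * (Cw * (9 * P ^ 2) * Q) := by
    refine h1.trans ?_
    calc (2 * u * v) ^ 2 * I3 ≤ (2 * u * v) ^ 2 * (Cw * (9 * P ^ 2) * Q) :=
          mul_le_mul_of_nonneg_left a1 (sq_nonneg _)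
      _ ≤ _ := mul_le_mul_of_nonneg_right a2 (by positivity)
  have a4 : 2 * K ^ 2 * I1 ≤ K ^ 2 * (E * P ^ E * Q) := by
    calc 2 * K ^ 2 * I1 ≤ 2 * K ^ 2 * (4 * P ^ 4 * (Cw * (9 * P ^ 2) * Q)) :=
          mul_le_mul_of_nonneg_left a3 (by positivity)
      _ = K ^ 2 * ((72 * Cw) * P ^ 6 * Q) := by ring
      _ ≤ _ := by
        refine mul_le_mul_of_nonneg_left (mul_le_mul_of_nonneg_right ?_ hQ) (sq_nonneg _)
        exact mul_le_mul hE1 (pow_le_pow_right₀ hP (by omega)) (by positivity)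
          (Nat.cast_nonneg _)
  have a5 : K ^ 2 * (C' * P ^ C' * Q4) ≤ K ^ 2 * (E * P ^ E * Q4) := by
    refine mul_le_mul_of_nonneg_left (mul_le_mul_of_nonneg_right ?_ hQ4) (sq_nonneg _)
    exact mul_le_mul hE2 (pow_le_pow_right₀ hP (by omega)) (by positivity) (Nat.cast_nonneg _)
  calc R ≤ K ^ 2 * (E * P ^ E * Q) + K ^ 2 * (E * P ^ E * Q4) := by linarith
    _ = _ := by ring

end T3X

open T3X in
theorem thm_T3 (hFou : St_Fou) (hPar : St_Par) (hPw : St_Pw) (hWm : St_Wm) (hRm : St_Rm) :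
    St_T3 := by
  obtain ⟨Cw, hCw0, hCw⟩ := hWm
  obtain ⟨C', hC'⟩ := sq_s
  refine ⟨⌈72 * Cw⌉₊ + C' + 6, ?_⟩
  intro b Z k1 k2 i1 i2 D J R0 K X α a q hk1 hk2 hD hJ hR0 hK hq hq2 hq3 hgcd hα hb
  obtain ⟨s, hs⟩ : ∃ s : ℕ → ℝ, cv (fac k1 Z i1) (fac k2 Z i2) = s := ⟨_, rfl⟩
  have hsupp : ∀ n, s n ≠ 0 → 1 ≤ n ∧ n ≤ 2 ^ (i1 + i2 + 2) := by
    intro n hn
    rw [← hs] at hn
    exact supp_s Z k1 k2 i1 i2 n hn
  have hsq : ∑ n ∈ Icc 1 (2 ^ (i1 + i2 + 2)), s n ^ 2 ≤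
      C' * 2 ^ (i1 + i2) * (1 + (i1 : ℝ) + i2) ^ C' := by
    rw [← hs]
    exact hC' Z k1 k2 i1 i2
  have hpw : ∀ θ : ℝ, ‖∑ n ∈ Icc 1 (2 ^ (i1 + i2 + 2)), ((s n : ℝ) : ℂ) * ee (θ * n)‖ ≤
      2 * (i1 + 1) * (i2 + 1) * gs (2 ^ i1) (2 ^ i2) θ := by
    intro θ
    rw [← hs]
    exact hPw Z k1 k2 i1 i2 θ hk1 hk2
  rw [hs]
  have hK0 : (0 : ℝ) < K := by exact_mod_cast hK
  have hJ0 : (0 : ℝ) < J := by exact_mod_cast hJ
  have hD0 : (0 : ℝ) < D := by exact_mod_cast hD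
  have hR0' : (0 : ℝ) < R0 := by exact_mod_cast hR0
  have hDR : 1 ≤ D * R0 := Nat.mul_pos hD hR0
  have hq1 : 1 ≤ q := by omega
  have hq0 : (0 : ℝ) < q := by exact_mod_cast hq1
  have hcs : ∀ n, cv b s n ≠ 0 → 1 ≤ n ∧ n ≤ D * 2 ^ (i1 + i2 + 2) := by
    intro n hn
    unfold cv at hn
    obtain ⟨d, hd, hne⟩ := exists_ne_zero_of_sum_ne_zero hn
    have hdn := Nat.dvd_of_mem_divisors hd
    have hn0 : n ≠ 0 := (Nat.mem_divisors.1 hd).2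
    have h1 := (hb d (left_ne_zero_of_mul hne)).2
    have h2 := (hsupp _ (right_ne_zero_of_mul hne)).2
    refine ⟨Nat.pos_of_ne_zero hn0, ?_⟩
    calc n = d * (n / d) := (Nat.mul_div_cancel' hdn).symm
      _ ≤ _ := Nat.mul_le_mul h1 h2
  have hη : (J : ℝ) / K ≤ 1 / 2 := by
    rw [div_le_iff₀ hK0]
    have h1 : 4 * J ≤ K := by
      refine le_trans ?_ hq3
      have h2 : 1 * J ≤ (q * R0 * D) * J := Nat.mul_le_mul_right _
        (Nat.mul_pos (Nat.mul_pos hq1 hR0) hD)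
      calc 4 * J = 4 * (1 * J) := by ring
        _ ≤ 4 * ((q * R0 * D) * J) := Nat.mul_le_mul_left _ h2
        _ = 4 * (q * R0 * (D * J)) := by ring
    have h3 : (4 : ℝ) * J ≤ K := by exact_mod_cast h1
    linarith
  obtain ⟨B, hB⟩ : ∃ B : ℝ, ∑ d ∈ Icc 1 D, b d ^ 2 = B := ⟨_, rfl⟩
  have hB0 : 0 ≤ B := by
    rw [← hB]
    exact sum_nonneg fun d _ => sq_nonneg _
  rw [hB]
  obtain ⟨g, hg⟩ : ∃ g : ℕ → ℝ → ℝ, g = fun d β => ‖∑ n ∈ Icc 1 (2 ^ (i1 + i2 + 2)),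
      ((s n : ℝ) : ℂ) * ee ((α + β) * (d * n : ℕ))‖ ^ 2 := ⟨_, rfl⟩
  have hgc : ∀ d, Continuous (g d) := by
    intro d
    rw [hg]
    refine (Continuous.norm ?_).pow 2
    refine continuous_finsetSum _ fun n _ => ?_
    exact continuous_const.mul (ee_cont.comp (by fun_prop))
  have hg0 : ∀ d x, 0 ≤ g d x := by
    intro d x
    rw [hg]
    positivity
  have hden : ∀ β : ℝ, 0 < 1 + 4 * (K : ℝ) ^ 2 * β ^ 2 := fun β => by positivity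
  have hWc : Continuous (fun β : ℝ => 2 * (K : ℝ) ^ 2 / (1 + 4 * (K : ℝ) ^ 2 * β ^ 2)) :=
    Continuous.div (by fun_prop) (by fun_prop) fun β => (hden β).ne'
  have hA : ms (cv b s) α K X ≤ ∑ d ∈ Icc 1 D, B * ∫ β in (-(1 / 2 : ℝ))..(1 / 2),
      g d β * (2 * (K : ℝ) ^ 2 / (1 + 4 * (K : ℝ) ^ 2 * β ^ 2)) := by
    refine (hFou (cv b s) (D * 2 ^ (i1 + i2 + 2)) K X α hK hcs).trans ?_
    have e1 : ∑ d ∈ Icc 1 D, B * ∫ β in (-(1 / 2 : ℝ))..(1 / 2),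
        g d β * (2 * (K : ℝ) ^ 2 / (1 + 4 * (K : ℝ) ^ 2 * β ^ 2)) =
        ∫ β in (-(1 / 2 : ℝ))..(1 / 2), ∑ d ∈ Icc 1 D,
          B * (g d β * (2 * (K : ℝ) ^ 2 / (1 + 4 * (K : ℝ) ^ 2 * β ^ 2))) := by
      rw [intervalIntegral.integral_finsetSum]
      · exact sum_congr rfl fun d _ => (intervalIntegral.integral_const_mul _ _).symm
      · intro d _
        exact (continuous_const.mul ((hgc d).mul hWc)).intervalIntegrable _ _
    rw [e1]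
    have hc1 : Continuous (fun β : ℝ => ∑ d ∈ Icc 1 D,
        B * (g d β * (2 * (K : ℝ) ^ 2 / (1 + 4 * (K : ℝ) ^ 2 * β ^ 2)))) :=
      continuous_finsetSum _ fun d _ => continuous_const.mul ((hgc d).mul hWc)
    have hc2 : Continuous (fun β : ℝ => ‖∑ n ∈ Icc 1 (D * 2 ^ (i1 + i2 + 2)),
        ((cv b s n : ℝ) : ℂ) * ee ((α + β) * n)‖ ^ 2 *
        (2 * (K : ℝ) ^ 2 / (1 + 4 * (K : ℝ) ^ 2 * β ^ 2))) := by
      refine Continuous.mul ((Continuous.norm ?_).pow 2) hWc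
      refine continuous_finsetSum _ fun n _ => ?_
      exact continuous_const.mul (ee_cont.comp (by fun_prop))
    refine intervalIntegral.integral_mono_on (by norm_num) (hc2.intervalIntegrable _ _)
      (hc1.intervalIntegrable _ _) fun β _ => ?_
    rw [F_eq b s D _ hb hsupp (α + β)]
    have h2 := F_sq b D (fun d => ∑ m ∈ Icc 1 (2 ^ (i1 + i2 + 2)),
      ((s m : ℝ) : ℂ) * ee ((α + β) * (d * m : ℕ)))
    rw [hB] at h2
    have h3 : 0 ≤ 2 * (K : ℝ) ^ 2 / (1 + 4 * (K : ℝ) ^ 2 * β ^ 2) :=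
      div_nonneg (by positivity) (hden β).le
    refine (mul_le_mul_of_nonneg_right h2 h3).trans (le_of_eq ?_)
    rw [hg, mul_assoc, sum_mul, mul_sum]
  refine hA.trans ?_
  -- one `d`
  obtain ⟨P, hP⟩ : ∃ P : ℝ, 1 + (i1 : ℝ) + i2 = P := ⟨_, rfl⟩
  have hi1 : (0 : ℝ) ≤ i1 := Nat.cast_nonneg _
  have hi2 : (0 : ℝ) ≤ i2 := Nat.cast_nonneg _
  have hP1 : 1 ≤ P := by linarith
  rw [hP] at hsq ⊢
  have hkey : ∀ d ∈ Icc 1 D, ∫ β in (-(1 / 2 : ℝ))..(1 / 2),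
      g d β * (2 * (K : ℝ) ^ 2 / (1 + 4 * (K : ℝ) ^ 2 * β ^ 2)) ≤
      (⌈72 * Cw⌉₊ + C' + 6 : ℕ) * P ^ (⌈72 * Cw⌉₊ + C' + 6) * (K : ℝ) ^ 2 *
        (2 ^ (i1 + i2) / R0 + 2 ^ (i1 + i2) * (D * J) / K +
          D * J * 2 ^ (2 * i1) / K + 2 ^ (i1 + i2) / (J : ℝ) ^ 2) := by
    intro d hd
    obtain ⟨hd1, hdD⟩ := mem_Icc.1 hd
    have hsp := split (g d) (hgc d) (hg0 d) K J hK hJ hη
    have hpar : ∫ β in (-(1 / 2 : ℝ))..(1 / 2), g d β ≤ C' * 2 ^ (i1 + i2) * P ^ C' := by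
      rw [hg]
      rw [hPar s (2 ^ (i1 + i2 + 2)) d α hd1]
      exact hsq
    have hτ0 : (0 : ℝ) ≤ (D : ℝ) * J / K := by positivity
    have hnear : ∫ β in (-((J : ℝ) / K))..((J : ℝ) / K), g d β ≤
        (2 * ((i1 : ℝ) + 1) * (i2 + 1)) ^ 2 *
        ∫ θ in (d * α - (D : ℝ) * J / K)..(d * α + (D : ℝ) * J / K),
          gs (2 ^ i1) (2 ^ i2) θ ^ 2 := by
      rw [hg]
      refine near s (2 ^ (i1 + i2 + 2)) d hd1 α ((J : ℝ) / K) ((D : ℝ) * J / K)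
        (by positivity) ?_ (2 ^ i1) (2 ^ i2) _ hpw
      rw [mul_div_assoc]
      have : (d : ℝ) ≤ D := by exact_mod_cast hdD
      exact mul_le_mul_of_nonneg_right this (by positivity)
    have hwm := hCw (2 ^ i1) (2 ^ i2) R0 (d * α) ((D : ℝ) * J / K) Nat.one_le_two_pow
      Nat.one_le_two_pow hR0 hτ0 (by
        intro u r hr1 hr2 hg' hur
        refine hRm (2 ^ i1) D R0 d q r a u α ((D : ℝ) * J / K) Nat.one_le_two_pow hd1 hdD hq1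
          hq hq2 ?_ hτ0 hgcd hα hr1 hg' hur
        have h4 : (4 : ℝ) * (q * R0 * (D * J)) ≤ K := by exact_mod_cast hq3
        have e4 : (q : ℝ) * R0 * ((D : ℝ) * J / K) = (q * R0 * (D * J)) / K := by ring
        rw [e4, div_le_iff₀ hK0]
        linarith)
    have hlog := log_bd i1
    refine num Cw P K J _ _ _ (1 + Real.log (4 * (2 ^ i1 : ℕ))) ((i1 : ℝ) + 1) (i2 + 1)
      (2 ^ (i1 + i2) / R0 + 2 ^ (i1 + i2) * (D * J) / K + D * J * 2 ^ (2 * i1) / K)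
      (2 ^ (i1 + i2) / (J : ℝ) ^ 2) _ C' hCw0 hP1 (by positivity) (by positivity)
      (by linarith) (by linarith) hlog.1 (by linarith [hlog.2]) (by positivity)
      (by positivity) hsp hnear ?_ ?_
    · refine hwm.trans (le_of_eq ?_)
      push_cast
      ring
    · have h5 : (K : ℝ) ^ 2 / (2 * (J : ℝ) ^ 2) * ∫ β in (-(1 / 2 : ℝ))..(1 / 2), g d β ≤
          (K : ℝ) ^ 2 / (2 * (J : ℝ) ^ 2) * (C' * 2 ^ (i1 + i2) * P ^ C') :=
        mul_le_mul_of_nonneg_left hpar (by positivity)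
      refine h5.trans ?_
      have e5 : (K : ℝ) ^ 2 / (2 * (J : ℝ) ^ 2) * (C' * 2 ^ (i1 + i2) * P ^ C') =
          (1 / 2) * ((K : ℝ) ^ 2 * (C' * P ^ C' * (2 ^ (i1 + i2) / (J : ℝ) ^ 2))) := by
        field_simp
      rw [e5]
      have : 0 ≤ (K : ℝ) ^ 2 * (C' * P ^ C' * (2 ^ (i1 + i2) / (J : ℝ) ^ 2)) := by positivity
      linarith
  calc ∑ d ∈ Icc 1 D, B * ∫ β in (-(1 / 2 : ℝ))..(1 / 2),
      g d β * (2 * (K : ℝ) ^ 2 / (1 + 4 * (K : ℝ) ^ 2 * β ^ 2))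
      ≤ ∑ _d ∈ Icc 1 D, B * ((⌈72 * Cw⌉₊ + C' + 6 : ℕ) * P ^ (⌈72 * Cw⌉₊ + C' + 6) *
        (K : ℝ) ^ 2 * (2 ^ (i1 + i2) / R0 + 2 ^ (i1 + i2) * (D * J) / K +
          D * J * 2 ^ (2 * i1) / K + 2 ^ (i1 + i2) / (J : ℝ) ^ 2)) :=
        sum_le_sum fun d hd => mul_le_mul_of_nonneg_left (hkey d hd) hB0
    _ = _ := by
        rw [sum_const, Nat.card_Icc, nsmul_eq_mul, Nat.add_sub_cancel]
        ring

end Pool.Agent.LMS
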