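import Pool.Agent.LMS.Ga
import Pool.Agent.LMS.Fc

set_option autoImplicit false

/-!
# LMS: the mass of a window
-/

namespace Pool.Agent.LMS

open Finset MeasureTheory
open Pool.Agent.GBQ (ee nd gm)

namespace WmX

/-- the kernel `1/(1 + a |x - c|)²` has integral at most `2/a` -/
theorem kernel (a c p q : ℝ) (ha : 0 < a) :
    ∫ x in p..q, 1 / (1 + a * |x - c|) ^ 2 ≤ 2 / a := by
  have hden : ∀ x : ℝ, 0 < 1 + a * |x - c| := fun x => by positivity
  have hcont : Continuous fun x : ℝ => (x - c) / (1 + a * |x - c|) := by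
    refine Continuous.div (by fun_prop) (by fun_prop) fun x => (hden x).ne'
  have hcont' : Continuous fun x : ℝ => 1 / (1 + a * |x - c|) ^ 2 := by
    refine Continuous.div (by fun_prop) (by fun_prop) fun x => (pow_pos (hden x) 2).ne'
  have hI : ∫ x in p..q, 1 / (1 + a * |x - c|) ^ 2 =
      (q - c) / (1 + a * |q - c|) - (p - c) / (1 + a * |p - c|) := by
    refine MeasureTheory.integral_eq_of_hasDerivAt_off_countable
      (fun x : ℝ => (x - c) / (1 + a * |x - c|)) (fun x : ℝ => 1 / (1 + a * |x - c|) ^ 2)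
      (Set.countable_singleton c) hcont.continuousOn ?_ (hcont'.intervalIntegrable _ _)
    intro x hx
    have hxc : x ≠ c := fun h => hx.2 (by rw [h]; exact Set.mem_singleton c)
    rcases lt_or_gt_of_ne hxc with h | h
    · have h1 : HasDerivAt (fun y : ℝ => (y - c) / (1 + a * (-(y - c))))
          (1 / (1 + a * (-(x - c))) ^ 2) x := by
        have h2 : HasDerivAt (fun y : ℝ => y - c) 1 x := (hasDerivAt_id x).sub_const c
        have h3 : HasDerivAt (fun y : ℝ => 1 + a * (-(y - c))) (a * (-1)) x :=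
          (h2.neg.const_mul a).const_add 1
        have h4 : 1 + a * (-(x - c)) ≠ 0 := by
          have : 0 < a * (-(x - c)) := mul_pos ha (by linarith)
          linarith
        have h5 := h2.div h3 h4
        have e : 1 * (1 + a * (-(x - c))) - (x - c) * (a * (-1)) = 1 := by ring
        rw [e] at h5
        exact h5
      have h6 : |x - c| = -(x - c) := abs_of_neg (by linarith)
      rw [h6]
      refine h1.congr_of_eventuallyEq ?_
      filter_upwards [Iio_mem_nhds h] with y hy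
      have h7 : |y - c| = -(y - c) := abs_of_neg (by linarith [Set.mem_Iio.1 hy])
      rw [h7]
    · have h1 : HasDerivAt (fun y : ℝ => (y - c) / (1 + a * (y - c)))
          (1 / (1 + a * (x - c)) ^ 2) x := by
        have h2 : HasDerivAt (fun y : ℝ => y - c) 1 x := (hasDerivAt_id x).sub_const c
        have h3 : HasDerivAt (fun y : ℝ => 1 + a * (y - c)) (a * 1) x :=
          (h2.const_mul a).const_add 1
        have h4 : 1 + a * (x - c) ≠ 0 := by
          have : 0 < a * (x - c) := mul_pos ha (by linarith)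
          linarith
        have h5 := h2.div h3 h4
        have e : 1 * (1 + a * (x - c)) - (x - c) * (a * 1) = 1 := by ring
        rw [e] at h5
        exact h5
      have h6 : |x - c| = x - c := abs_of_pos (by linarith)
      rw [h6]
      refine h1.congr_of_eventuallyEq ?_
      filter_upwards [Ioi_mem_nhds h] with y hy
      have h7 : |y - c| = y - c := abs_of_pos (by linarith [Set.mem_Ioi.1 hy])
      rw [h7]
  have hb : ∀ x : ℝ, |(x - c) / (1 + a * |x - c|)| ≤ 1 / a := by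
    intro x
    rw [abs_div, abs_of_pos (hden x), div_le_div_iff₀ (hden x) ha]
    nlinarith [abs_nonneg (x - c)]
  rw [hI]
  have h1 := abs_le.1 (hb q)
  have h2 := abs_le.1 (hb p)
  have h3 : 2 / a = 1 / a + 1 / a := by ring
  linarith [h1.2, h2.1]

/-- the kernel of a fraction -/
noncomputable def kf (M L : ℕ) (p : ℤ × ℕ) (x : ℝ) : ℝ :=
  72 * ((L : ℝ) * M) ^ 2 / (p.2 : ℝ) ^ 2 * (1 / (1 + 2 * (L * M) * |x - p.1 / p.2|) ^ 2)

theorem kf_nonneg (M L : ℕ) (p : ℤ × ℕ) (x : ℝ) : 0 ≤ kf M L p x := by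
  unfold kf
  positivity

theorem kf_cont (M L : ℕ) (p : ℤ × ℕ) : Continuous (kf M L p) := by
  unfold kf
  refine continuous_const.mul (Continuous.div (by fun_prop) (by fun_prop) fun x => ?_)
  have : 0 < 1 + 2 * ((L : ℝ) * M) * |x - p.1 / p.2| := by positivity
  exact (pow_pos this 2).ne'

theorem kf_int (M L : ℕ) (hM : 1 ≤ M) (hL : 1 ≤ L) (p : ℤ × ℕ) (s t : ℝ) :
    ∫ x in s..t, kf M L p x ≤ 72 * ((L : ℝ) * M) / (p.2 : ℝ) ^ 2 := by
  have hM0 : (0 : ℝ) < M := by exact_mod_cast hM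
  have hL0 : (0 : ℝ) < L := by exact_mod_cast hL
  unfold kf
  rw [intervalIntegral.integral_const_mul]
  have h1 := kernel (2 * (L * M)) ((p.1 : ℝ) / p.2) s t (by positivity)
  calc 72 * ((L : ℝ) * M) ^ 2 / (p.2 : ℝ) ^ 2 *
        ∫ x in s..t, 1 / (1 + 2 * ((L : ℝ) * M) * |x - p.1 / p.2|) ^ 2
      ≤ 72 * ((L : ℝ) * M) ^ 2 / (p.2 : ℝ) ^ 2 * (2 / (2 * (L * M))) :=
        mul_le_mul_of_nonneg_left h1 (by positivity)
    _ = 72 * ((L : ℝ) * M) / (p.2 : ℝ) ^ 2 := by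
        field_simp

/-- the pointwise bound -/
theorem point (M L : ℕ) (hM : 1 ≤ M) (hL : 1 ≤ L) (x : ℝ) : ∃ (u : ℤ) (r : ℕ), 1 ≤ r ∧ r ≤ 4 * M ∧
    Int.gcd u r = 1 ∧ |x - u / r| ≤ 1 / (4 * M * r) ∧
    gs M L x ^ 2 ≤ kf M L (u, r) x + 200 * (M : ℝ) ^ 2 * (1 + Real.log (4 * M)) ^ 2 := by
  have hM0 : (0 : ℝ) < M := by exact_mod_cast hM
  have hL0 : (0 : ℝ) < L := by exact_mod_cast hL
  obtain ⟨q, h1, h2⟩ := Real.exists_rat_abs_sub_le_and_den_le x (show 0 < 4 * M by omega)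
  have hq0 : (0 : ℝ) < q.den := by exact_mod_cast q.den_pos
  have h3 : |x - (q.num : ℝ) / q.den| ≤ 1 / (4 * M * q.den) := by
    have h4 : (q : ℝ) = (q.num : ℝ) / q.den := by exact_mod_cast (Rat.num_div_den q).symm
    rw [← h4]
    refine h1.trans ?_
    refine one_div_le_one_div_of_le (by positivity) ?_
    push_cast
    nlinarith
  have hgcd : Int.gcd q.num q.den = 1 := by
    have := q.reduced
    rw [Nat.Coprime] at this
    rwa [Int.gcd, Int.natAbs_natCast]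
  refine ⟨q.num, q.den, q.den_pos, h2, hgcd, h3, ?_⟩
  have h5 := thm_Ga M L q.den q.num x hM hL q.den_pos h2 hgcd h3
  have h6 : 0 ≤ gs M L x := by
    unfold gs
    refine Finset.sum_nonneg fun m _ => ?_
    unfold gm
    split_ifs
    · exact hL0.le
    · exact le_min hL0.le (by have := GaX.nd_nonneg (x * m); positivity)
  set A := 6 * ((L : ℝ) * M) / (q.den * (1 + 2 * (L * M) * |x - (q.num : ℝ) / q.den|)) with hA
  set B := 10 * (M : ℝ) * (1 + Real.log (4 * M)) with hB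
  have hlog : 0 ≤ Real.log (4 * M) := by
    refine Real.log_nonneg ?_
    have : (1 : ℝ) ≤ M := by exact_mod_cast hM
    linarith
  have h7 : gs M L x ^ 2 ≤ 2 * A ^ 2 + 2 * B ^ 2 := by
    have h8 : gs M L x ^ 2 ≤ (A + B) ^ 2 := by gcongr
    nlinarith [sq_nonneg (A - B)]
  refine h7.trans (le_of_eq ?_)
  rw [hA, hB]
  unfold kf
  have hden : (1 + 2 * ((L : ℝ) * M) * |x - (q.num : ℝ) / q.den|) ≠ 0 := by
    have : 0 < 1 + 2 * ((L : ℝ) * M) * |x - (q.num : ℝ) / q.den| := by positivity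
    exact this.ne'
  field_simp
  ring

/-- one dyadic block -/
theorem block (M L R0 j : ℕ) (θ τ : ℝ) (hM : 1 ≤ M) (hL : 1 ≤ L) (hR0 : 1 ≤ R0) (hτ : 0 ≤ τ)
    (S : Finset (ℤ × ℕ)) (hS : ∀ p ∈ S, R0 * 2 ^ j ≤ p.2 ∧ p.2 < 2 * (R0 * 2 ^ j) ∧
      Int.gcd p.1 p.2 = 1 ∧ |θ - p.1 / p.2| ≤ τ + 1 / (4 * M * p.2)) :
    ∑ p ∈ S, 72 * ((L : ℝ) * M) / (p.2 : ℝ) ^ 2 ≤ 576 * ((L * M) / R0 + (L * M) * τ) := by
  have hM0 : (1 : ℝ) ≤ M := by exact_mod_cast hM
  have hL0 : (0 : ℝ) < L := by exact_mod_cast hL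
  have hR00 : (1 : ℝ) ≤ R0 := by exact_mod_cast hR0
  obtain ⟨R, hR⟩ : ∃ R : ℕ, R = R0 * 2 ^ j := ⟨_, rfl⟩
  rw [← hR] at hS
  have hR0R : R0 ≤ R := by
    rw [hR]
    exact Nat.le_mul_of_pos_right _ (by positivity)
  have hRR : (R0 : ℝ) ≤ R := by exact_mod_cast hR0R
  have hR1 : (1 : ℝ) ≤ R := hR00.trans hRR
  have hcard := thm_Fc R (τ + 1 / (4 * M * R)) θ S (hR0.trans hR0R) (by positivity) (by
    intro p hp
    obtain ⟨h1, h2, h3, h4⟩ := hS p hp
    refine ⟨h1, h2, h3, h4.trans ?_⟩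
    have h5 : (R : ℝ) ≤ p.2 := by exact_mod_cast h1
    gcongr)
  have hterm : ∀ p ∈ S, 72 * ((L : ℝ) * M) / (p.2 : ℝ) ^ 2 ≤ 72 * ((L : ℝ) * M) / (R : ℝ) ^ 2 := by
    intro p hp
    have h5 : (R : ℝ) ≤ p.2 := by exact_mod_cast (hS p hp).1
    gcongr
  calc ∑ p ∈ S, 72 * ((L : ℝ) * M) / (p.2 : ℝ) ^ 2
      ≤ ∑ _p ∈ S, 72 * ((L : ℝ) * M) / (R : ℝ) ^ 2 := Finset.sum_le_sum hterm
    _ = (S.card : ℝ) * (72 * ((L : ℝ) * M) / (R : ℝ) ^ 2) := by
        rw [Finset.sum_const, nsmul_eq_mul]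
    _ ≤ (1 + 8 * (R : ℝ) ^ 2 * (τ + 1 / (4 * M * R))) * (72 * ((L : ℝ) * M) / (R : ℝ) ^ 2) :=
        mul_le_mul_of_nonneg_right hcard (by positivity)
    _ = 72 * ((L : ℝ) * M) * (1 / (R : ℝ) ^ 2 + 8 * τ + 2 / (R * M)) := by
        field_simp
        ring
    _ ≤ 72 * ((L : ℝ) * M) * (1 / R0 + 8 * τ + 2 / R0) := by
        have h1 : 1 / (R : ℝ) ^ 2 ≤ 1 / R0 := by
          refine one_div_le_one_div_of_le (by linarith) ?_
          nlinarith
        have h2 : 2 / ((R : ℝ) * M) ≤ 2 / R0 := by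
          refine div_le_div_of_nonneg_left (by norm_num) (by linarith) ?_
          nlinarith
        gcongr
    _ ≤ 576 * ((L * M) / R0 + (L * M) * τ) := by
        have h3 : (0 : ℝ) ≤ (L * M) / R0 := by positivity
        have e : 72 * ((L : ℝ) * M) * (1 / R0 + 8 * τ + 2 / R0) =
            216 * ((L * M) / R0) + 576 * ((L * M) * τ) := by ring
        rw [e]
        linarith

end WmX

open WmX in
theorem thm_Wm : St_Wm := by
  refine ⟨1200, by norm_num, ?_⟩
  intro M L R0 θ τ hM hL hR0 hτ hden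
  have hM0 : (1 : ℝ) ≤ M := by exact_mod_cast hM
  have hL0 : (1 : ℝ) ≤ L := by exact_mod_cast hL
  have hR00 : (1 : ℝ) ≤ R0 := by exact_mod_cast hR0
  have hlog : 0 ≤ Real.log (4 * M) := Real.log_nonneg (by linarith)
  set Λ : ℝ := 1 + Real.log (4 * M) with hΛ
  have hΛ1 : 1 ≤ Λ := by linarith
  have hRHS : 0 ≤ 1200 * Λ ^ 2 * ((L * M) / R0 + (L * M) * τ + τ * (M : ℝ) ^ 2) := by positivity
  by_cases hint : IntervalIntegrable (fun x => gs M L x ^ 2) volume (θ - τ) (θ + τ)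
  swap
  · rw [intervalIntegral.integral_undef hint]
    exact hRHS
  obtain ⟨B, hB⟩ : ∃ B : ℕ, B = ⌈4 * (M : ℝ) * (|θ| + τ + 1)⌉₊ := ⟨_, rfl⟩
  set F : Finset (ℤ × ℕ) := ((Icc (-(B : ℤ)) B) ×ˢ (Icc 1 (4 * M))).filter
    (fun p => Int.gcd p.1 p.2 = 1 ∧ |θ - (p.1 : ℝ) / p.2| ≤ τ + 1 / (4 * M * p.2)) with hF
  have hpt : ∀ x ∈ Set.Icc (θ - τ) (θ + τ),
      gs M L x ^ 2 ≤ ∑ p ∈ F, kf M L p x + 200 * (M : ℝ) ^ 2 * Λ ^ 2 := by
    intro x hx
    obtain ⟨u, r, h1, h2, h3, h4, h5⟩ := point M L hM hL x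
    refine h5.trans (add_le_add ?_ le_rfl)
    have hr0 : (0 : ℝ) < r := by exact_mod_cast h1
    have h6 : |θ - x| ≤ τ := by
      rw [abs_le]
      constructor <;> linarith [hx.1, hx.2]
    have h7 : |θ - (u : ℝ) / r| ≤ τ + 1 / (4 * M * r) := by
      have e : θ - (u : ℝ) / r = (θ - x) + (x - u / r) := by ring
      rw [e]
      exact (abs_add_le _ _).trans (add_le_add h6 h4)
    have h8 : 1 / (4 * (M : ℝ) * r) ≤ 1 := by
      rw [div_le_one (by positivity)]
      have : (1 : ℝ) ≤ r := by exact_mod_cast h1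
      nlinarith
    have h9 : |(u : ℝ)| ≤ B := by
      have h10 : |(u : ℝ) / r| ≤ |θ| + τ + 1 := by
        have e : (u : ℝ) / r = θ - (θ - u / r) := by ring
        rw [e]
        refine (abs_sub _ _).trans ?_
        linarith
      rw [abs_div, abs_of_pos hr0, div_le_iff₀ hr0] at h10
      have h11 : (r : ℝ) ≤ 4 * M := by exact_mod_cast h2
      rw [hB]
      refine le_trans ?_ (Nat.le_ceil _)
      refine h10.trans ?_
      rw [mul_comm]
      have : 0 ≤ |θ| + τ + 1 := by positivity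
      exact mul_le_mul_of_nonneg_right h11 this
    have h10 : (u, r) ∈ F := by
      rw [hF, Finset.mem_filter, Finset.mem_product]
      refine ⟨⟨?_, Finset.mem_Icc.2 ⟨h1, h2⟩⟩, h3, h7⟩
      rw [Finset.mem_Icc]
      have h11 : |u| ≤ (B : ℤ) := by
        rw [← Int.cast_abs] at h9
        exact_mod_cast h9
      exact abs_le.1 h11
    exact Finset.single_le_sum (f := fun p => kf M L p x) (fun p _ => kf_nonneg M L p x) h10
  have hcont : Continuous fun x => ∑ p ∈ F, kf M L p x + 200 * (M : ℝ) ^ 2 * Λ ^ 2 :=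
    (continuous_finsetSum _ fun p _ => kf_cont M L p).add continuous_const
  have hle : θ - τ ≤ θ + τ := by linarith
  have hmono := intervalIntegral.integral_mono_on hle hint (hcont.intervalIntegrable _ _) hpt
  refine hmono.trans ?_
  rw [intervalIntegral.integral_add
    ((continuous_finsetSum _ fun p _ => kf_cont M L p).intervalIntegrable _ _)
    (continuous_const.intervalIntegrable _ _),
    intervalIntegral.integral_finsetSum fun p _ => (kf_cont M L p).intervalIntegrable _ _,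
    intervalIntegral.integral_const]
  have hsum1 : ∑ p ∈ F, ∫ x in (θ - τ)..(θ + τ), kf M L p x ≤
      ∑ p ∈ F, 72 * ((L : ℝ) * M) / (p.2 : ℝ) ^ 2 :=
    Finset.sum_le_sum fun p _ => kf_int M L hM hL p _ _
  have hFp : ∀ p ∈ F, R0 ≤ p.2 ∧ p.2 ≤ 4 * M ∧ Int.gcd p.1 p.2 = 1 ∧
      |θ - (p.1 : ℝ) / p.2| ≤ τ + 1 / (4 * M * p.2) := by
    intro p hp
    obtain ⟨h1, h2, h3⟩ := Finset.mem_filter.1 hp
    have h4 := Finset.mem_Icc.1 (Finset.mem_product.1 h1).2
    exact ⟨hden p.1 p.2 h4.1 h4.2 h2 h3, h4.2, h2, h3⟩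
  set J : ℕ := Nat.log 2 (4 * M) with hJ
  have hmaps : ∀ p ∈ F, Nat.log 2 (p.2 / R0) ∈ range (J + 1) := by
    intro p hp
    rw [Finset.mem_range, Nat.lt_succ_iff]
    exact Nat.log_mono_right ((Nat.div_le_self _ _).trans (hFp p hp).2.1)
  have hsum2 : ∑ p ∈ F, 72 * ((L : ℝ) * M) / (p.2 : ℝ) ^ 2 ≤
      (J + 1 : ℕ) * (576 * ((L * M) / R0 + (L * M) * τ)) := by
    rw [← Finset.sum_fiberwise_of_maps_to hmaps]
    calc ∑ j ∈ range (J + 1), ∑ p ∈ F.filter (fun p => Nat.log 2 (p.2 / R0) = j),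
          72 * ((L : ℝ) * M) / (p.2 : ℝ) ^ 2
        ≤ ∑ _j ∈ range (J + 1), 576 * (((L : ℝ) * M) / R0 + (L * M) * τ) := by
          refine Finset.sum_le_sum fun j _ => ?_
          refine block M L R0 j θ τ hM hL hR0 hτ _ fun p hp => ?_
          obtain ⟨h1, h2⟩ := Finset.mem_filter.1 hp
          obtain ⟨h3, h4, h5, h6⟩ := hFp p h1
          have h7 : p.2 / R0 ≠ 0 := by
            rw [Nat.div_ne_zero_iff]
            omega
          have h8 := Nat.pow_log_le_self 2 h7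
          have h9 := Nat.lt_pow_succ_log_self (b := 2) (by norm_num) (p.2 / R0)
          rw [h2] at h8 h9
          refine ⟨?_, ?_, h5, h6⟩
          · rw [mul_comm]
            exact (Nat.le_div_iff_mul_le (by omega)).1 h8
          · have h10 := (Nat.div_lt_iff_lt_mul (by omega)).1 h9
            rw [pow_succ] at h10
            calc p.2 < 2 ^ j * 2 * R0 := h10
              _ = 2 * (R0 * 2 ^ j) := by ring
      _ = (J + 1 : ℕ) * (576 * ((L * M) / R0 + (L * M) * τ)) := by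
          rw [Finset.sum_const, Finset.card_range, nsmul_eq_mul]
  have hJΛ : ((J + 1 : ℕ) : ℝ) ≤ 2 * Λ := by
    have h1 : (2 : ℝ) ^ J ≤ 4 * M := by
      have := Nat.pow_log_le_self 2 (show 4 * M ≠ 0 by omega)
      rw [← hJ] at this
      exact_mod_cast this
    have h2 : J * Real.log 2 ≤ Real.log (4 * M) := by
      rw [← Real.log_pow]
      exact Real.log_le_log (by positivity) h1
    have h3 := Real.log_two_gt_d9
    push_cast
    have h4 : (0 : ℝ) ≤ J := Nat.cast_nonneg _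
    nlinarith
  have hX : 0 ≤ (L * M) / R0 + (L * M) * τ := by positivity
  have h1 : ((J + 1 : ℕ) : ℝ) * (576 * ((L * M) / R0 + (L * M) * τ)) ≤
      1152 * Λ ^ 2 * ((L * M) / R0 + (L * M) * τ) := by
    calc ((J + 1 : ℕ) : ℝ) * (576 * ((L * M) / R0 + (L * M) * τ))
        ≤ 2 * Λ * (576 * ((L * M) / R0 + (L * M) * τ)) :=
          mul_le_mul_of_nonneg_right hJΛ (by positivity)
      _ = 1152 * Λ * ((L * M) / R0 + (L * M) * τ) := by ring
      _ ≤ 1152 * Λ ^ 2 * ((L * M) / R0 + (L * M) * τ) := by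
          refine mul_le_mul_of_nonneg_right ?_ hX
          nlinarith
  have h2 : (θ + τ - (θ - τ)) • (200 * (M : ℝ) ^ 2 * Λ ^ 2) = 400 * Λ ^ 2 * (τ * (M : ℝ) ^ 2) := by
    rw [smul_eq_mul]
    ring
  rw [h2]
  have h3 : 0 ≤ Λ ^ 2 * ((L * M) / R0 + (L * M) * τ) := by positivity
  have h4 : 0 ≤ Λ ^ 2 * (τ * (M : ℝ) ^ 2) := by positivity
  nlinarith [hsum1.trans (hsum2.trans h1)]

end Pool.Agent.LMS
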