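import Pool.Agent.LMS.Tri
import Pool.Agent.LMS.Abl
import Pool.Agent.LMS.Per
import Pool.Agent.LMS.Dil
import Pool.Agent.LMS.T2
import Pool.Agent.LMS.C1
import Pool.Agent.LMS.T1
import Pool.Agent.LMS.C2
import Pool.Agent.LMS.Fou
import Pool.Agent.LMS.Par
import Pool.Agent.LMS.Pw
import Pool.Agent.LMS.Ga
import Pool.Agent.LMS.Fc
import Pool.Agent.LMS.Wm
import Pool.Agent.LMS.Rm
import Pool.Agent.LMS.T3
import Pool.Agent.LMS.C3
import Pool.Agent.LMS.Sel
import Pool.Agent.LMS.ML
import Pool.Agent.LMS.MinL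

/-!
# LMS: assembly (minor windows, no hypotheses for the function of von Mangoldt)
-/

set_option autoImplicit false

namespace Pool.Agent.LMS

theorem wT2 : St_T2 := thm_T2 thm_Dil thm_Abl

theorem wC1 : St_C1 := thm_C1 wT2 thm_Per

theorem wC2 : St_C2 := thm_C2 (thm_T1 thm_Abl) thm_Per

theorem wT3 : St_T3 := thm_T3 thm_Fou thm_Par (thm_Pw thm_Abl) thm_Wm thm_Rm

theorem wC3 : St_C3 := thm_C3 wT3 thm_Per

/-- minor windows for the function of von Mangoldt -/
theorem wML : St_ML := thm_ML thm_Tri (thm_Sel wC1 wC2 wC3)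

/-- minor windows for the difference -/
theorem wMinL (hS : Pool.Agent.NRP.St_MinS) : Pool.Agent.NRP.St_MinL := thm_MinL wML hS

end Pool.Agent.LMS
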