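import Mathlib
import Pool.Agent.SI.Stmts
import Pool.Agent.GBQ.Stmts

/-!
# LMS: the local mass of the primes minus the sieve model (part (3) of project NRP).  Definitions
-/

set_option autoImplicit false

namespace Pool.Agent.LMS

open Finset
open Pool.Agent.GBQ (ee nd gm lam LamS rho pr Rough)
open Pool.Agent.SI (fac cof siz)

/-- exponential sum over the window `(x, x + K]` -/
noncomputable def ws (c : ℕ → ℝ) (α : ℝ) (K x : ℕ) : ℂ :=
  ∑ n ∈ Ioc x (x + K), ((c n : ℝ) : ℂ) * ee (α * n)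

/-- mean square over the windows with `X < x ≤ 2X` -/
noncomputable def ms (c : ℕ → ℝ) (α : ℝ) (K X : ℕ) : ℝ := ∑ x ∈ Ioc X (2 * X), ‖ws c α K x‖ ^ 2

/-- Dirichlet convolution -/
noncomputable def cv (a b : ℕ → ℝ) (n : ℕ) : ℝ := ∑ d ∈ n.divisors, a d * b (n / d)

/-- the sum of the minima `min(L, 1/(2 ‖θ m‖))` over `M ≤ m < 2M` -/
noncomputable def gs (M L : ℕ) (θ : ℝ) : ℝ := ∑ m ∈ Ico M (2 * M), gm (L : ℝ) (θ * m)

/-- sum over the residue class `r` modulo `q` in the window `(x, x + K]` -/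
noncomputable def ap (c : ℕ → ℝ) (q r K x : ℕ) : ℝ :=
  ∑ n ∈ (Ioc x (x + K)).filter (fun n => n % q = r % q), c n

end Pool.Agent.LMS
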