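import Pool.Agent.LMS.Defs

/-!
# LMS: statements

Part (3) of project NRP (`n, n + h, n + h² + c h` in the primes): for `f = Λ - LamS` the mean square
of `∑_{x < n ≤ x + K} f(n) ee(α n)` over `x` is at most `K² / (log X)^A`, for EVERY real `α` and
`√X / (log X)^C ≤ K ≤ √X`.

Notation of the docstrings: `V c = ms c α K X`, `K² ≤ X`, `𝓛 = log X`.  Minor windows:
`|α - a/q| ≤ 1/q²`, `𝓛^B ≤ q ≤ K / 𝓛^B`.  For `Λ` the identity of Heath-Brown (`SI.St_Box`) gives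
products of at most eight factors (`fac k Z i` lives on `[2^i, 2^(i+1))`, kinds `0`: `1`, `1`: `log`,
`2`: `μ` up to `Z ≤ 4 X^(1/4)`).  With `T = 𝓛^A'`:
(I) some factor with `T ≤ 2^i ≤ K/T`: `St_T2` (Cauchy and Schwarz over this factor);
(II) one factor with `2^i > K/T`, the product of the others is at most `T^7 2^7`: `St_T1`;
(III) two such factors, the product of the others is at most `𝓛^c`: `St_T3`.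
The model: fundamental lemma (`St_MM`).  Major windows: primes in almost all short intervals in
residue classes modulo `q ≤ 𝓛^B` (hypothesis `St_SIq`, the other block of the project).
-/

set_option autoImplicit false

namespace Pool.Agent.LMS

open Finset MeasureTheory
open Pool.Agent.GBQ (ee nd gm lam LamS rho pr Rough)
open Pool.Agent.SI (fac cof siz)

/-! ### 1. Tools -/

/-- [Tri] Cauchy and Schwarz over the pieces: `ws` is linear in `c`,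
`‖∑ a_l ws c_l‖² ≤ |L| ∑ a_l² ‖ws c_l‖²`; and `ms` depends only on the values of `c` on
`(X, 2X + K]`. -/
def St_Tri : Prop :=
  (∀ (ι : Type) (L : Finset ι) (a : ι → ℝ) (c : ι → ℕ → ℝ) (α : ℝ) (K X : ℕ),
    ms (fun n => ∑ l ∈ L, a l * c l n) α K X ≤ L.card * ∑ l ∈ L, a l ^ 2 * ms (c l) α K X) ∧
  ∀ (c c' : ℕ → ℝ) (α : ℝ) (K X : ℕ), (∀ n, X < n → n ≤ 2 * X + K → c n = c' n) →
    ms c α K X = ms c' α K X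

/-- [Abl] Abel summation with a monotone weight, `0 ≤ w ≤ W`: sums of `z` over initial segments bounded by `G`.
(1) antitone: `∑_{M ≤ m < N} w_m z_m` is at most `w_M G ≤ W G`.  (2) monotone: at most `2 W G`. -/
def St_Abl : Prop := ∀ (M N : ℕ) (w : ℕ → ℝ) (z : ℕ → ℂ) (W G : ℝ), 0 ≤ G →
  (∀ m, M ≤ m → m < N → 0 ≤ w m ∧ w m ≤ W) →
  (∀ j, M ≤ j → j ≤ N → ‖∑ m ∈ Ico M j, z m‖ ≤ G) →
  ((∀ m, M ≤ m → m + 1 < N → w (m + 1) ≤ w m) ∨ (∀ m, M ≤ m → m + 1 < N → w m ≤ w (m + 1))) →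
  ‖∑ m ∈ Ico M N, (w m : ℂ) * z m‖ ≤ 2 * max W 0 * G

/-- [Per] `cof` does not depend on the order of the factors: for two factors
`∑_{d ∣ n} f(d) ∑_{e ∣ n/d} g(e) h(n/d/e)` is the sum over all triples with product `n`
(`Nat.divisorsAntidiagonal`, or write `cof` as a product of arithmetic functions: `fac k Z i 0 = 0`). -/
def St_Per : Prop := ∀ (Z : ℕ) (l l' : List (ℕ × ℕ)), l.Perm l' → ∀ n : ℕ,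
  cof Z l n = cof Z l' n

/-! ### 2. Type II -/

/-- [Dil] windows of multiples of `m ≥ 1`: extend the sum to all integers `x` from `-K` to `2X` (all
terms are nonnegative), expand the square and count the `x` with `x < m l, m l' ≤ x + K`: there are
`max(0, K - m |l - l'|)` such integers (all of them are `≥ -K`; take the sum over
`x ∈ [-K, m L]` or larger). -/
def St_Dil : Prop := ∀ (b : ℕ → ℝ) (L m K X : ℕ) (α : ℝ), 1 ≤ m →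
  ∑ x ∈ Ioc X (2 * X), ‖∑ l ∈ (Icc 1 L).filter (fun l => x < m * l ∧ m * l ≤ x + K),
    ((b l : ℝ) : ℂ) * ee (α * (m * l : ℕ))‖ ^ 2 ≤
  ∑ l ∈ Icc 1 L, ∑ l' ∈ Icc 1 L, b l * b l' *
    ((ee (α * ((m : ℝ) * ((l : ℝ) - l')))).re * max 0 ((K : ℝ) - m * |(l : ℝ) - l'|))

/-- [T2] type II.  `ws (cv a b) α K x = ∑_m a_m G_m(x)`, `G_m(x)` the inner sum of `St_Dil`; Cauchy and
Schwarz over `m`; `St_Dil`; exchange the sums: for `k = |l - l'|` the sum over `m ∈ [M, 2M)` of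
`ee(α m (l - l')) max(0, K - m k)` is at most `K M` for `k = 0`, `0` for `M k ≥ K`, and
`≤ 2 K gm(M, α k)` otherwise (`St_Abl`, `GBQ.St_Geo`; real part of a complex number; `gm` is even);
`∑_l |b_l b_{l+k}| ≤ ∑ b²`, two signs. -/
def St_T2 : Prop := ∀ (a b : ℕ → ℝ) (M L K X : ℕ) (α : ℝ), 1 ≤ M → 1 ≤ K →
  (∀ n, a n ≠ 0 → M ≤ n ∧ n < 2 * M) → (∀ n, b n ≠ 0 → 1 ≤ n ∧ n ≤ L) →
  ms (cv a b) α K X ≤ (∑ m ∈ Ico M (2 * M), a m ^ 2) * (∑ l ∈ Icc 1 L, b l ^ 2) * K *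
    (M + 4 * ∑ k ∈ Icc 1 (K / M), gm (M : ℝ) (α * k))

/-- [C1] case (I).  `St_Per`: `cof Z l = cof Z ((k,i) :: l')`, `l' = l.erase (k,i)`, which is
`cv (fac k Z i) (cof Z l')`.  `St_T2` with `M = 2^i`, `L = 2^(siz l' + len l')` (`SI.St_Cof` (2)),
`∑ fac² ≤ 2^i (i+1)²`, `SI.St_Cof` (3) for `∑ b²`.  For `k ≤ K/M`: `gm(M, θ) ≤ gm(K/k, θ)`
(`M ≤ K/k`), so the last sum is `≤ C (K/q + K/M + q) log K` by `GBQ.St_TypeI` (`N = K`, `D = K/M`; it is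
empty if `M > K`). -/
def St_C1 : Prop := ∃ C : ℕ, ∀ (Z : ℕ) (l : List (ℕ × ℕ)) (k i K X : ℕ) (α : ℝ) (a : ℤ) (q : ℕ),
  l.length ≤ 8 → (k, i) ∈ l → 3 ≤ K → 1 ≤ q → q ≤ K → Int.gcd a q = 1 →
  |α - a / q| ≤ 1 / (q : ℝ) ^ 2 →
  ms (cof Z l) α K X ≤ C * 2 ^ siz l * (1 + (siz l : ℝ)) ^ C * K *
    (2 ^ i + K / q + K / 2 ^ i + q) * (1 + Real.log K)

/-! ### 3. Type I -/

/-- [T1] one smooth factor, `k ≤ 1`, the other one on `[1, D]`, `2D ≤ q`.  For `d ≤ D` the number `a d / q`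
is not an integer, `nd(α d) ≥ 1/q - d/q² ≥ 1/(2q)`; the inner sum over `m` (`x < d m ≤ x + K`,
`2^i ≤ m < 2^(i+1)`: consecutive integers, weight `1` or `log m ≤ i + 1`) is at most `2 (i + 1) q` by
`St_Abl` and `GBQ.St_Geo`. -/
def St_T1 : Prop := ∀ (b : ℕ → ℝ) (Z k i D K x : ℕ) (α : ℝ) (a : ℤ) (q : ℕ), k ≤ 1 → 1 ≤ q →
  2 * D ≤ q → Int.gcd a q = 1 → |α - a / q| ≤ 1 / (q : ℝ) ^ 2 →
  (∀ n, b n ≠ 0 → 1 ≤ n ∧ n ≤ D) →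
  ‖ws (cv (fac k Z i) b) α K x‖ ≤ 2 * (i + 1) * q * ∑ d ∈ Icc 1 D, |b d|

/-- [C2] case (II): `St_Per`, `St_T1` with `b = cof Z l'`, `D = 2^(siz l' + len l')`, `SI.St_Cof` (3)
for `∑ |b|`; sum over `X < x ≤ 2X`. -/
def St_C2 : Prop := ∃ C : ℕ, ∀ (Z : ℕ) (l : List (ℕ × ℕ)) (k i K X : ℕ) (α : ℝ) (a : ℤ) (q : ℕ),
  l.length ≤ 8 → (k, i) ∈ l → k ≤ 1 → 1 ≤ q → 2 * 2 ^ (siz l - i + 8) ≤ q → Int.gcd a q = 1 →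
  |α - a / q| ≤ 1 / (q : ℝ) ^ 2 →
  ms (cof Z l) α K X ≤ C * X * (1 + (siz l : ℝ)) ^ C * (2 ^ (siz l - i)) ^ 2 * (q : ℝ) ^ 2

/-! ### 4. Two big smooth factors -/

/-- [Fou] Parseval.  For all integers `x`: `∑_x |∑_{x < n ≤ x+K} c_n ee(α n)|² =
∫_{-1/2}^{1/2} |∑ c_n ee((α+β) n)|² |∑_{j<K} ee(β j)|² dβ` (both sides are
`∑_{n,n'} c_n c_n' ee(α (n-n')) max(0, K - |n-n'|)`), and `|∑_{j<K} ee(β j)| ≤ min(K, 1/(2|β|))`, whose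
square is at most `2K²/(1 + 4K²β²)`.  (The right side of the statement is an integral of a continuous
nonnegative function.) -/
def St_Fou : Prop := ∀ (c : ℕ → ℝ) (N K X : ℕ) (α : ℝ), 1 ≤ K →
  (∀ n, c n ≠ 0 → 1 ≤ n ∧ n ≤ N) →
  ms c α K X ≤ ∫ β in (-(1 / 2 : ℝ))..(1 / 2), ‖∑ n ∈ Icc 1 N, ((c n : ℝ) : ℂ) * ee ((α + β) * n)‖ ^ 2 *
    (2 * (K : ℝ) ^ 2 / (1 + 4 * (K : ℝ) ^ 2 * β ^ 2))

/-- [Par] Parseval for a period: `∫_{-1/2}^{1/2} |∑ c_n ee((α+β) n)|² dβ = ∑ c_n²`; for the dilated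
polynomial (frequencies `d n`, different for different `n`) the same. -/
def St_Par : Prop := ∀ (c : ℕ → ℝ) (N d : ℕ) (α : ℝ), 1 ≤ d →
  ∫ β in (-(1 / 2 : ℝ))..(1 / 2), ‖∑ n ∈ Icc 1 N, ((c n : ℝ) : ℂ) * ee ((α + β) * (d * n : ℕ))‖ ^ 2 =
    ∑ n ∈ Icc 1 N, c n ^ 2

/-- [Pw] pointwise bound for the exponential sum of two smooth factors: the inner sum over `l` is
`≤ 2 (i2 + 1) gm(2^i2, θ m)` (`St_Abl`, `GBQ.St_Geo`), `|fac| ≤ i1 + 1`.  The support of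
`cv (fac) (fac)` is `n < 2^(i1 + i2 + 2)`. -/
def St_Pw : Prop := ∀ (Z k1 k2 i1 i2 : ℕ) (θ : ℝ), k1 ≤ 1 → k2 ≤ 1 →
  ‖∑ n ∈ Icc 1 (2 ^ (i1 + i2 + 2)), ((cv (fac k1 Z i1) (fac k2 Z i2) n : ℝ) : ℂ) * ee (θ * n)‖ ≤
    2 * (i1 + 1) * (i2 + 1) * gs (2 ^ i1) (2 ^ i2) θ

/-- [Ga] near to a fraction `u/r`, `r ≤ 4M`: `m` not divisible by `r`: `nd(u m/r) ≥ 1/r` and
`|δ m| ≤ 2M/(4Mr) = 1/(2r)`, so `nd(θ m) ≥ nd(u m/r)/2`; the sum of `1/nd(u m/r)` over a complete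
system of residues other than `0` is `≤ 2 r (1 + log r)`; at most `M/r + 1` systems.  `m` divisible by
`r` (none for `r ≥ 2M`, otherwise at most `M/r + 1 ≤ 3M/r`): `nd(θ m) = |δ| m ≥ |δ| M`,
`min(L, 1/(2|δ|M)) ≤ 2L/(1 + 2LM|δ|)`. -/
def St_Ga : Prop := ∀ (M L r : ℕ) (u : ℤ) (θ : ℝ), 1 ≤ M → 1 ≤ L → 1 ≤ r → r ≤ 4 * M →
  Int.gcd u r = 1 → |θ - u / r| ≤ 1 / (4 * M * r) →
  gs M L θ ≤ 6 * (L * M) / (r * (1 + 2 * (L * M) * |θ - u / r|)) +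
    10 * M * (1 + Real.log (4 * M))

/-- [Fc] fractions in an interval of length `2τ` with denominators in `[R, 2R)`: two different ones
have distance at least `1/(4R²)`. -/
def St_Fc : Prop := ∀ (R : ℕ) (τ θ : ℝ) (S : Finset (ℤ × ℕ)), 1 ≤ R → 0 ≤ τ →
  (∀ p ∈ S, R ≤ p.2 ∧ p.2 < 2 * R ∧ Int.gcd p.1 p.2 = 1 ∧ |θ - p.1 / p.2| ≤ τ) →
  (S.card : ℝ) ≤ 1 + 8 * (R : ℝ) ^ 2 * τ

/-- [Wm] the mass of a window.  By Dirichlet every `θ'` in the window has a coprime `(u, r)`,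
`r ≤ 4M`, `|θ' - u/r| ≤ 1/(4Mr)` (`Real.exists_int_int_abs_mul_sub_le` or `exists_rat...` with `4M`), so
`|θ - u/r| ≤ τ + 1/(4Mr)` and `R0 ≤ r`.  By `St_Ga`, `gs² ≤ 72 (LM)²/(r² (1 + 2LM|δ|)²) +
200 M² (1 + log 4M)²`; the integral of the first part over all `δ` is `≤ 72 LM / r²`; sum over the
`(u, r)`, `R = R0 2^j ≤ 4M`, with `St_Fc` (`τ + 1/(4MR)`): at most
`72 LM/R² (1 + 8R²τ + 2R/M)` for each `j`; at most `2 (1 + log (4M))` values of `j`. -/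
def St_Wm : Prop := ∃ C : ℝ, 0 < C ∧ ∀ (M L R0 : ℕ) (θ τ : ℝ), 1 ≤ M → 1 ≤ L → 1 ≤ R0 → 0 ≤ τ →
  (∀ (u : ℤ) (r : ℕ), 1 ≤ r → r ≤ 4 * M → Int.gcd u r = 1 →
    |θ - u / r| ≤ τ + 1 / (4 * M * r) → R0 ≤ r) →
  ∫ θ' in (θ - τ)..(θ + τ), gs M L θ' ^ 2 ≤
    C * (1 + Real.log (4 * M)) ^ 2 * ((L * M) / R0 + (L * M) * τ + τ * (M : ℝ) ^ 2)

/-- [Rm] denominators near `d α`.  If `r < R0`: `|d a/q - u/r| ≤ τ + 1/(4Mr) + D/q²`.  If the two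
fractions are different, `1 ≤ q r τ + q/(4M) + D r/q ≤ 3/4`.  If they are equal, `r = q / gcd(d, q) ≥
q/D ≥ 4 R0`. -/
def St_Rm : Prop := ∀ (M D R0 d q r : ℕ) (a u : ℤ) (α τ : ℝ), 1 ≤ M → 1 ≤ d → d ≤ D → 1 ≤ q →
  q ≤ M → 4 * (D * R0) ≤ q → (q : ℝ) * R0 * τ ≤ 1 / 4 → 0 ≤ τ → Int.gcd a q = 1 →
  |α - a / q| ≤ 1 / (q : ℝ) ^ 2 → 1 ≤ r → Int.gcd u r = 1 →
  |d * α - u / r| ≤ τ + 1 / (4 * M * r) → R0 ≤ r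

/-- [T3] `c = cv b (cv fac fac)`, `F(θ) = ∑_d b_d S(d θ)`, `|F|² ≤ (∑ b²) ∑_{d ≤ D} |S(dθ)|²`
(`S` the sum of `St_Pw`; support `n ≤ D 2^(i1+i2+2)`).  `St_Fou`.  `|β| ≤ J/K` (if `J/K < 1/2`): kernel
`≤ 2K²`, substitute `θ' = d(α+β)`: `(1/d) ∫_{|θ' - dα| ≤ dJ/K} |S|²`, enlarge to `τ = DJ/K`, `St_Pw`,
`St_Wm` with `St_Rm`.  `|β| > J/K`: kernel `≤ 1/(2β²) ≤ K²/(2J²)`, `St_Par`, `SI.St_Cof` (3) for the two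
factors. -/
def St_T3 : Prop := ∃ C : ℕ, ∀ (b : ℕ → ℝ) (Z k1 k2 i1 i2 D J R0 K X : ℕ) (α : ℝ) (a : ℤ) (q : ℕ),
  k1 ≤ 1 → k2 ≤ 1 → 1 ≤ D → 1 ≤ J → 1 ≤ R0 → 1 ≤ K → q ≤ 2 ^ i1 → 4 * (D * R0) ≤ q →
  4 * (q * R0 * (D * J)) ≤ K → Int.gcd a q = 1 → |α - a / q| ≤ 1 / (q : ℝ) ^ 2 →
  (∀ n, b n ≠ 0 → 1 ≤ n ∧ n ≤ D) →
  ms (cv b (cv (fac k1 Z i1) (fac k2 Z i2))) α K X ≤ C * (∑ d ∈ Icc 1 D, b d ^ 2) * D *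
    (1 + (i1 : ℝ) + i2) ^ C * (K : ℝ) ^ 2 * (2 ^ (i1 + i2) / R0 + 2 ^ (i1 + i2) * (D * J) / K +
      D * J * 2 ^ (2 * i1) / K + 2 ^ (i1 + i2) / (J : ℝ) ^ 2)

/-- [C3] case (III): `St_Per` (`l ~ (k1,i1) :: (k2,i2) :: l'`; rotate, associativity of `cv`), `St_T3` with
`b = cof Z l'`, `D = 2^(siz l' + len l')`, `siz l' = siz l - i1 - i2`, `SI.St_Cof` (3) for `∑ b²`. -/
def St_C3 : Prop := ∃ C : ℕ, ∀ (Z : ℕ) (l : List (ℕ × ℕ)) (k1 i1 k2 i2 J R0 K X D : ℕ) (α : ℝ)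
  (a : ℤ) (q : ℕ), l.length ≤ 8 → (k1, i1) ∈ l → (k2, i2) ∈ l.erase (k1, i1) → k1 ≤ 1 → k2 ≤ 1 →
  2 ^ (siz l - i1 - i2 + 8) ≤ D → 1 ≤ J → 1 ≤ R0 → 1 ≤ K → q ≤ 2 ^ i1 → 4 * (D * R0) ≤ q →
  4 * (q * R0 * (D * J)) ≤ K → Int.gcd a q = 1 → |α - a / q| ≤ 1 / (q : ℝ) ^ 2 →
  ms (cof Z l) α K X ≤ C * (D : ℝ) ^ 3 * (1 + (siz l : ℝ)) ^ C * (K : ℝ) ^ 2 *
    (2 ^ (i1 + i2) / R0 + 2 ^ (i1 + i2) * J / K + J * 2 ^ (2 * i1) / K +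
      2 ^ (i1 + i2) / (J : ℝ) ^ 2)

/-! ### 5. Minor windows -/

/-- [Sel] every product of `SI.St_Box`.  `T = 𝓛^A'` with `A'` large in terms of `A, C`, then `B` large in
terms of `A'`.  If some `(k, i) ∈ l` has `T ≤ 2^i ≤ K/T`: `St_C1`
(`C 2^siz ≤ 3CX`, `(1 + siz)^C ≤ 𝓛^(C+1)`, bracket `≤ 4K/T`).  Otherwise every factor has `2^i < T` or
`2^i > K/T`.  Kind `2` with `2^i > K/T` has `2^i > Z` (`K/T ≥ √X/𝓛^(C+A') > 4X^(1/4)`), so `cof Z l = 0`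
(`fac` vanishes), `ms = 0`.  No factor `> K/T`: `X ≤ 2^(siz + 8) ≤ 2^8 T^8`, impossible for large `X`.
Three: `3X ≥ (K/T)^3`, impossible.  One: `2^(siz l - i) ≤ T^7`, `St_C2` (`2^(siz-i+9) ≤ 512 T^7 ≤ 𝓛^B ≤ q`,
bound `C X 𝓛^(C+1) T^14 q² ≤ K² X 𝓛^(..) T^14 𝓛^(-2B)`).  Two: `2^(siz l - i1 - i2) ≤ 3X (T/K)² ≤
3 T² 𝓛^(2C)`, `St_C3` with `D = ⌈2^10 T² 𝓛^(2C)⌉`, `J = R0 = ⌊𝓛^(B/4)⌋`, `q ≤ K/𝓛^B ≤ K/T < 2^i1`;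
`2^(i1+i2) ≤ 3X`, `2^i1 ≤ 3X T/K`, so `2^(2 i1)/K ≤ 9 X² T²/K³ ≤ X^(1/2 + 1/10)`. -/
def St_Sel : Prop := ∀ A C : ℕ, ∃ B X₀ : ℕ, ∀ (X K Z : ℕ) (l : List (ℕ × ℕ)) (α : ℝ) (a : ℤ) (q : ℕ),
  X₀ ≤ X → K ^ 2 ≤ X → (X : ℝ) ≤ (K : ℝ) ^ 2 * Real.log X ^ (2 * C) → Int.gcd a q = 1 →
  |α - a / q| ≤ 1 / (q : ℝ) ^ 2 → Real.log X ^ B ≤ q → (q : ℝ) * Real.log X ^ B ≤ K →
  (Z : ℝ) ≤ 4 * (X : ℝ) ^ (1 / 4 : ℝ) → 1 ≤ l.length → l.length ≤ 8 → (∀ x ∈ l, x.1 ≤ 2) →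
  2 ^ siz l ≤ 3 * X → X ≤ 2 ^ (siz l + l.length) →
  ms (cof Z l) α K X ≤ (K : ℝ) ^ 2 * X / Real.log X ^ A

/-- [ML] minor windows for the function of von Mangoldt: `SI.St_Box`, `St_Tri`, `St_Sel`
(`2X + K ≤ 3X`). -/
def St_ML : Prop := ∀ A C : ℕ, ∃ B X₀ : ℕ, ∀ (X K : ℕ) (α : ℝ) (a : ℤ) (q : ℕ),
  X₀ ≤ X → K ^ 2 ≤ X → (X : ℝ) ≤ (K : ℝ) ^ 2 * Real.log X ^ (2 * C) → Int.gcd a q = 1 →
  |α - a / q| ≤ 1 / (q : ℝ) ^ 2 → Real.log X ^ B ≤ q → (q : ℝ) * Real.log X ^ B ≤ K →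
  ms lam α K X ≤ (K : ℝ) ^ 2 * X / Real.log X ^ A

/-- [Fl] the sieve model by sums over divisors, `z ≤ 𝓛^B'`, for numbers prime to `q` (all primes dividing
`q` are `≤ q ≤ z`; for `q = 1`: all numbers).  `SI.St_Fq` with `y = z` and `k = ⌊√𝓛⌋`: level
`(z+1)^(4k+5) ≤ X^(1/10)`, `2^k ≥ 𝓛^(A+2)` for large `X`.  Let `P` be the set of the primes `p ≤ z` not
dividing `q` (`pz = pr`), and for `S ⊆ P` put `Φ(S) = ∑_{T ⊆ S} φ_T`, `F(S) = ∑_{T ⊆ S} (φ_T - ψ_T)`, so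
`1_{S = ∅} ≤ Φ(S) ≤ 1_{S = ∅} + F(S)`.  Define `g d = (rho z)⁻¹ φ_T`, `κ d = (rho z)⁻¹ (φ_T - ψ_T)` for
`d = ∏ T`, `T ⊆ P`, `0` for all other `d`; `(rho z)⁻¹ ≤ C log z ≤ 𝓛/2` (`GBQ.St_RhoLow`); for `n` prime to `q`
`Rough z n` iff `S = {p ∈ P : p ∣ n}` is empty, and the divisors `d` of `n` with `g d ≠ 0` or `κ d ≠ 0` are the
`∏ T`, `T ⊆ S`.  Sums: with independent events of probability `1/p`, `p ≤ z`,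
`∑_{T ⊆ P} φ_T ∏_{p ∈ T} 1/p = E Φ(S ∩ P)` (identity
`∑_T f(T) ∏_{T} g_p = ∑_S (∏_S g_p) (∏_{P \ S} (1 - g_p)) ∑_{T ⊆ S} f(T)`), and `E 1_{S ∩ P = ∅} =
∏_{p ∈ P} (1 - 1/p) = rho z * q/φ(q)`.  `F ≥ 0`, so `E F(S ∩ P) * ∏_{p ∣ q} (1 - 1/p) ≤ E F(S) ≤
C/(2^k log z)` (restrict `E F(S)` to the sets `S` without `p ∣ q`), and `∏_{p ∣ q} (1 - 1/p) ≥ rho z`.  So
the last two sums are at most `(rho z)⁻² C/(2^k log z)` and at least `0` (this part without absolute value: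
`0 ≤ ∑ κ d/d`, `q/φ(q) ≤ ∑ g d/d`). -/
def St_Fl : Prop := ∀ A B' : ℕ, ∃ X₀ : ℕ, ∀ X z q : ℕ, X₀ ≤ X → 2 ≤ z → (z : ℝ) ≤ Real.log X ^ B' →
  1 ≤ q → q ≤ z → ∃ g κ : ℕ → ℝ, (∀ d, |g d| ≤ Real.log X ∧ |κ d| ≤ Real.log X) ∧
  (∀ d, g d ≠ 0 ∨ κ d ≠ 0 → 1 ≤ d ∧ (d : ℝ) ≤ (X : ℝ) ^ (1 / 10 : ℝ) ∧ Nat.Coprime d q) ∧
  (∀ n : ℕ, 1 ≤ n → Nat.Coprime n q →
    |LamS z n - ∑ d ∈ n.divisors, g d| ≤ ∑ d ∈ n.divisors, κ d) ∧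
  |∑ d ∈ Icc 1 X, κ d / (d : ℝ)| ≤ 1 / Real.log X ^ A ∧
  |∑ d ∈ Icc 1 X, g d / (d : ℝ) - q / (Nat.totient q : ℝ)| ≤ 1 / Real.log X ^ A

/-- [MM] minor windows for the model, pointwise in `x`: `St_Fl` with `q = 1`; main part
`∑_{d ≤ X^(1/10)} |g d| |∑_{x < d m ≤ x + K} ee(α d m)| ≤ 𝓛 ∑_d gm(K/d + 1, α d)` (`GBQ.St_Geo`; at most
`K/d + 1` values of `m`), `gm(K/d + 1, θ) ≤ gm(K/d, θ) + 1`, `GBQ.St_TypeI` (`N = K`,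
`D = ⌊X^(1/10)⌋ ≤ K`); error `∑_{x < n ≤ x+K} ∑_{d ∣ n} κ d ≤ K |∑ κ d/d| + 𝓛 X^(1/10)`.  So
`‖ws‖ ≤ K / 𝓛^A` and `ms ≤ X K² / 𝓛^(2A)` (`B` does not depend on `B'`). -/
def St_MM : Prop := ∀ A C : ℕ, ∃ B : ℕ, ∀ B' : ℕ, ∃ X₀ : ℕ, ∀ (X K z : ℕ) (α : ℝ) (a : ℤ) (q : ℕ),
  X₀ ≤ X → K ^ 2 ≤ X → (X : ℝ) ≤ (K : ℝ) ^ 2 * Real.log X ^ (2 * C) → 2 ≤ z →
  (z : ℝ) ≤ Real.log X ^ B' → Int.gcd a q = 1 →
  |α - a / q| ≤ 1 / (q : ℝ) ^ 2 → Real.log X ^ B ≤ q → (q : ℝ) * Real.log X ^ B ≤ K →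
  ms (LamS z) α K X ≤ (K : ℝ) ^ 2 * X / Real.log X ^ A

/-! ### 6. Major windows -/

/-- [SIq] HYPOTHESIS, the other block of the project: primes in almost all intervals of length
`K ≥ √X/𝓛^C` in residue classes modulo `q ≤ 𝓛^C`. -/
def St_SIq : Prop := ∀ A C : ℕ, ∃ X₀ : ℕ, ∀ X K q r : ℕ, X₀ ≤ X → K ^ 2 ≤ X →
  (X : ℝ) ≤ (K : ℝ) ^ 2 * Real.log X ^ (2 * C) → 1 ≤ q → (q : ℝ) ≤ Real.log X ^ C →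
  Nat.Coprime r q →
  ∑ x ∈ Ioc X (2 * X), (ap lam q r K x - K / (Nat.totient q : ℝ)) ^ 2 ≤
    (K : ℝ) ^ 2 * X / Real.log X ^ A

/-- [Lq] the model in residue classes, pointwise in `x`, `q ≤ z`: `St_Fl` for `q` (with `A + 1`); all `n ≡ r`
are prime to `q`; for `d ≤ X^(1/10)` prime to `q` the number of `n ∈ (x, x + K]`, `n ≡ r (mod q)`, `d ∣ n`, is
`K/(q d) + O(1)` (one residue class modulo `q d`).  So `ap (LamS z) q r K x` is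
`(K/q) (∑ g d/d)` up to `(K/q) |∑ κ d/d| + 2 𝓛 X^(1/10)`; `K ≥ X^(1/3)`. -/
def St_Lq : Prop := ∀ A B' C : ℕ, ∃ X₀ : ℕ, ∀ X K z q r x : ℕ, X₀ ≤ X → K ^ 2 ≤ X →
  (X : ℝ) ≤ (K : ℝ) ^ 2 * Real.log X ^ (2 * C) → 1 ≤ q → q ≤ z → 2 ≤ z →
  (z : ℝ) ≤ Real.log X ^ B' → Nat.Coprime r q →
  |ap (LamS z) q r K x - K / (Nat.totient q : ℝ)| ≤ K / Real.log X ^ A

/-- [Mj0] `α = a/q` exactly.  `ws f (a/q) K x = ∑_{r < q} ee(a r/q) ap f q r K x`, `f = Λ - LamS z`.  `r` prime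
to `q`: `St_SIq` (`Λ`) and `St_Lq` (`LamS`), with `A' = A + 2 B1 + 3`.  `r` not prime to `q`: a prime `p ∣ r, q`
is `≤ q ≤ z`, so `LamS z n = 0` for all `n ≡ r`; and `Λ(n) ≠ 0` only for powers of primes `p ∣ q`: the sum
of `Λ(n)` over all `n ≤ 3X` not prime to `q` is at most `q log(3X)`.  Cauchy and Schwarz over the at most `q`
classes. -/
def St_Mj0 : Prop := ∀ A B1 B' C : ℕ, ∃ X₀ : ℕ, ∀ (X K z : ℕ) (a : ℤ) (q : ℕ),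
  X₀ ≤ X → K ^ 2 ≤ X → (X : ℝ) ≤ (K : ℝ) ^ 2 * Real.log X ^ (2 * C) → 1 ≤ q → q ≤ z → 2 ≤ z →
  (z : ℝ) ≤ Real.log X ^ B' → (q : ℝ) ≤ Real.log X ^ B1 →
  ms (fun n => lam n - LamS z n) (a / q) K X ≤ (K : ℝ) ^ 2 * X / Real.log X ^ A

/-- [Mj] major windows.  `α = a/q + δ`, `|δ| ≤ 𝓛^B1/K`; `|f(n)| ≤ 4 𝓛` for `n ≤ 3X`.  `K' = ⌊K/𝓛^B2⌋`,
`J = ⌊K/K'⌋ ≤ 2 𝓛^B2`: the window `(x, x + K]` is the union of `J` windows `(y, y + K']`, `y = x + j K'`,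
and of a rest with less than `K'` elements, whose sum is at most `4 K' 𝓛`.  In `(y, y + K']`:
`ee(α n) = ee(δ y) ee(a n/q) + O(2π |δ| K')`, error of all windows together at most
`J * 4𝓛 K' * 2π |δ| K' ≤ 30 𝓛^(B1+1) K'`.  Cauchy and Schwarz over `j`; the `y` are in `(X, 3X]`, so
`∑_x ‖∑_j ee(δ y) ws f (a/q) K' y‖² ≤ J² (ms f (a/q) K' X + ms f (a/q) K' (2X))`, `St_Mj0` for `X` and
`2X` with `C + B2 + 1`, `A + 2 B2 + 3` (`J K' ≤ K`).  `B2 = A + B1 + 3` or so. -/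
def St_Mj : Prop := ∀ A B1 B' C : ℕ, ∃ X₀ : ℕ, ∀ (X K z : ℕ) (α : ℝ) (a : ℤ) (q : ℕ),
  X₀ ≤ X → K ^ 2 ≤ X → (X : ℝ) ≤ (K : ℝ) ^ 2 * Real.log X ^ (2 * C) → 1 ≤ q → q ≤ z → 2 ≤ z →
  (z : ℝ) ≤ Real.log X ^ B' → (q : ℝ) ≤ Real.log X ^ B1 → |α - a / q| ≤ Real.log X ^ B1 / K →
  ms (fun n => lam n - LamS z n) α K X ≤ (K : ℝ) ^ 2 * X / Real.log X ^ A

/-- [All] all `α`.  Dirichlet (`Real.exists_int_int_abs_mul_sub_le` or similar) with `Q = ⌊K/𝓛^B⌋`, `B` the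
maximum of those of `St_ML`, `St_MM` (for `A + 1`): coprime `a`, `q ≤ Q`, `|α - a/q| ≤ 1/(q (Q+1)) <
𝓛^B/(q K)`.  `q ≥ 𝓛^B`: `ms f ≤ 2 (ms Λ + ms LamS)` by `St_Tri`, `St_ML`, `St_MM`; `q < 𝓛^B`: `St_Mj` with
`B1 = B` (`q ≤ 𝓛^B ≤ 𝓛^B0 ≤ z`, `B0 = B`; for `B0 ≤ B'` and large `X` also `2 ≤ z`: take `B0 ≥ 1`). -/
def St_All : Prop := ∀ A C : ℕ, ∃ B0 : ℕ, ∀ B' : ℕ, B0 ≤ B' → ∃ X₀ : ℕ, ∀ (X K z : ℕ) (α : ℝ),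
  X₀ ≤ X → K ^ 2 ≤ X → (X : ℝ) ≤ (K : ℝ) ^ 2 * Real.log X ^ (2 * C) →
  Real.log X ^ B0 ≤ z → (z : ℝ) ≤ Real.log X ^ B' →
  ms (fun n => lam n - LamS z n) α K X ≤ (K : ℝ) ^ 2 * X / Real.log X ^ A

/-! ### 7. Windows in progressions -/

/-- [APW] progressions: `∑_{y ≤ L} f(x + q y) ee(θ y) =
(1/q) ∑_{b < q} ∑_{x < m ≤ x + qL} f(m) ee((θ + b) (m - x)/q)`, so the square of its absolute value is at most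
`(1/q) ∑_b ‖ws f ((θ + b)/q) (qL) x‖²`. -/
def St_APW : Prop := ∀ (f : ℕ → ℝ) (q L X : ℕ) (θ : ℝ), 1 ≤ q →
  ∑ x ∈ Ioc X (2 * X), ‖∑ y ∈ Icc 1 L, ((f (x + q * y) : ℝ) : ℂ) * ee (θ * y)‖ ^ 2 ≤
    (1 / (q : ℝ)) * ∑ b ∈ range q, ms f ((θ + b) / q) (q * L) X

end Pool.Agent.LMS
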