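import Mathlib
import Pool.Agent.LMS.St
import Pool.Agent.NRP.StN

/-!
# LMS: minor windows for `Λ - LamS`, in the form `NRP.St_MinL`
-/

set_option autoImplicit false

namespace Pool.Agent.LMS

open Finset Filter
open Pool.Agent.GBQ (ee nd gm lam LamS rho pr Rough)

namespace MinLX

/-- norm of `ee` -/
lemma norm_ee (x : ℝ) : ‖ee x‖ = 1 := by
  unfold Pool.Agent.GBQ.ee
  rw [Complex.norm_exp_ofReal_mul_I]

/-- trivial estimate of a window for the function of von Mangoldt -/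
lemma triv (α : ℝ) (K x : ℕ) :
    ‖ws lam α K x‖ ≤ K * Real.log ((x : ℝ) + K) := by
  unfold ws
  calc ‖∑ n ∈ Ioc x (x + K), ((lam n : ℝ) : ℂ) * ee (α * n)‖
      ≤ ∑ n ∈ Ioc x (x + K), ‖((lam n : ℝ) : ℂ) * ee (α * n)‖ := norm_sum_le _ _
    _ ≤ ∑ n ∈ Ioc x (x + K), Real.log ((x : ℝ) + K) := by
        refine Finset.sum_le_sum fun n hn => ?_
        rw [norm_mul, norm_ee, mul_one, Complex.norm_real, Real.norm_eq_abs,
          abs_of_nonneg (by unfold Pool.Agent.GBQ.lam; exact ArithmeticFunction.vonMangoldt_nonneg)]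
        unfold Pool.Agent.GBQ.lam
        rw [mem_Ioc] at hn
        refine le_trans ArithmeticFunction.vonMangoldt_le_log (Real.log_le_log ?_ ?_)
        · have : 0 < n := by omega
          exact_mod_cast this
        · exact_mod_cast hn.2
    _ = K * Real.log ((x : ℝ) + K) := by
        rw [Finset.sum_const, Nat.card_Ioc, nsmul_eq_mul]
        congr 2
        omega

/-- the window of a difference -/
lemma ws_sub (z : ℕ) (α : ℝ) (K x : ℕ) :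
    ∑ n ∈ Ioc x (x + K), ((lam n - LamS z n : ℝ) : ℂ) * ee (α * n) =
      ws lam α K x - ws (LamS z) α K x := by
  unfold ws
  rw [← Finset.sum_sub_distrib]
  refine Finset.sum_congr rfl fun n _ => ?_
  push_cast
  ring

end MinLX

open MinLX in
theorem thm_MinL (hML : St_ML) (hS : Pool.Agent.NRP.St_MinS) : Pool.Agent.NRP.St_MinL := by
  intro A C
  obtain ⟨B1, X1, hB1⟩ := hML (A + 4) C
  obtain ⟨C0, hC0⟩ := hS (1 / 4) (by norm_num) (by norm_num)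
  refine ⟨B1 + C0 + A + 4, 1, fun B => ?_⟩
  have hlog : Tendsto (fun X : ℕ => Real.log (X : ℝ)) atTop atTop :=
    Real.tendsto_log_atTop.comp tendsto_natCast_atTop_atTop
  -- polynomial growth beats powers of the logarithm
  have hpow : ∀ (k : ℕ) (ε : ℝ), 0 < ε → ∀ᶠ X : ℕ in atTop, Real.log X ^ k ≤ (X : ℝ) ^ ε := by
    intro k ε hε
    have h1 := (isLittleO_log_rpow_rpow_atTop (k : ℝ) hε).def (c := 1) one_pos
    have h2 := tendsto_natCast_atTop_atTop (R := ℝ) |>.eventually h1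
    filter_upwards [h2, eventually_ge_atTop 3] with X hX h3
    have h4 : (0 : ℝ) ≤ Real.log X := Real.log_natCast_nonneg X
    rw [one_mul, Real.norm_of_nonneg (Real.rpow_nonneg h4 _), Real.norm_of_nonneg
      (Real.rpow_nonneg (Nat.cast_nonneg X) _), Real.rpow_natCast] at hX
    exact hX
  filter_upwards [hC0 (A + 4) B, eventually_ge_atTop X1, hlog.eventually_ge_atTop 100,
    hpow (C + C0 + A + 4) (1 / 8) (by norm_num), hpow (A + 8) 1 (by norm_num),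
    eventually_ge_atTop 3] with X hX hX1 hl h8 h1 h3
  intro z hz1 hz2 L hL1 hL2 β a q hq1 hq2 hgcd hβ
  set ℓ := Real.log (X : ℝ) with hℓ
  have hℓ0 : (0 : ℝ) < ℓ := by linarith
  have hℓ1 : (1 : ℝ) ≤ ℓ := by linarith
  have hX0 : (0 : ℝ) < X := by
    have : 0 < X := by omega
    exact_mod_cast this
  have hp : ∀ m n : ℕ, m ≤ n → ℓ ^ m ≤ ℓ ^ n := fun m n h => pow_le_pow_right₀ hℓ1 h
  have hpp : ∀ m : ℕ, 0 < ℓ ^ m := fun m => pow_pos hℓ0 m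
  have hz : 2 ≤ z := by
    have : (100 : ℝ) ≤ z := by
      have := hz1
      rw [pow_one] at this
      linarith
    have h' : (2 : ℝ) ≤ z := by linarith
    exact_mod_cast h'
  have hL1' : Real.sqrt X ≤ L * ℓ ^ C := by
    rw [div_le_iff₀ (hpp C)] at hL1
    exact hL1
  have hL0' : (0 : ℝ) < L := by
    have h1 : 0 < Real.sqrt X := Real.sqrt_pos.mpr hX0
    by_contra h
    have h2 : (L : ℝ) = 0 := le_antisymm (not_lt.mp h) (Nat.cast_nonneg L)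
    rw [h2, zero_mul] at hL1'
    linarith
  have hKX' : (L : ℝ) ^ (2 : ℕ) ≤ (X : ℝ) :=
    le_trans (pow_le_pow_left₀ hL0'.le hL2 2) (le_of_eq (Real.sq_sqrt hX0.le))
  have hKX : L ^ 2 ≤ X := by exact_mod_cast hKX'
  have hXK : (X : ℝ) ≤ (L : ℝ) ^ 2 * ℓ ^ (2 * C) := by
    calc (X : ℝ) = Real.sqrt X ^ 2 := (Real.sq_sqrt hX0.le).symm
      _ ≤ (L * ℓ ^ C) ^ 2 := by gcongr
      _ = (L : ℝ) ^ 2 * ℓ ^ (2 * C) := by ring
  set D := B1 + C0 + A + 4 with hD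
  have hq2' : (q : ℝ) * ℓ ^ D ≤ L := by
    rw [le_div_iff₀ (hpp D)] at hq2
    exact hq2
  have hq0 : (0 : ℝ) < q := lt_of_lt_of_le (hpp D) hq1
  have hq0' : 1 ≤ q := by
    have : 0 < q := by exact_mod_cast hq0
    omega
  have hqL : (q : ℝ) ≤ L := by
    calc (q : ℝ) = q * 1 := (mul_one _).symm
      _ ≤ q * ℓ ^ D := by
        refine mul_le_mul_of_nonneg_left ?_ hq0.le
        exact one_le_pow₀ hℓ1
      _ ≤ L := hq2'
  have hL0 : (0 : ℝ) < L := lt_of_lt_of_le hq0 hqL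
  have hsq : Real.sqrt X = (X : ℝ) ^ (1 / 4 : ℝ) * (X : ℝ) ^ (1 / 4 : ℝ) := by
    rw [← Real.rpow_add hX0, Real.sqrt_eq_rpow]
    norm_num
  have h8' : (X : ℝ) ^ (1 / 8 : ℝ) * (X : ℝ) ^ (1 / 8 : ℝ) = (X : ℝ) ^ (1 / 4 : ℝ) := by
    rw [← Real.rpow_add hX0]
    norm_num
  have hx8 : (1 : ℝ) ≤ (X : ℝ) ^ (1 / 8 : ℝ) :=
    Real.one_le_rpow (by exact_mod_cast (by omega : 1 ≤ X)) (by norm_num)
  have hx80 : (0 : ℝ) < (X : ℝ) ^ (1 / 8 : ℝ) := by linarith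
  -- `X^(3/8) ≤ L`
  have hL38 : (X : ℝ) ^ (1 / 8 : ℝ) * ((X : ℝ) ^ (1 / 8 : ℝ) * (X : ℝ) ^ (1 / 8 : ℝ)) ≤ L := by
    have e1 : Real.sqrt X = (X : ℝ) ^ (1 / 8 : ℝ) * ((X : ℝ) ^ (1 / 8 : ℝ) *
        (X : ℝ) ^ (1 / 8 : ℝ)) * (X : ℝ) ^ (1 / 8 : ℝ) := by
      rw [hsq, ← h8']
      ring
    have e2 : ℓ ^ C ≤ (X : ℝ) ^ (1 / 8 : ℝ) := le_trans (hp _ _ (by omega)) h8
    have e3 : Real.sqrt X ≤ L * (X : ℝ) ^ (1 / 8 : ℝ) :=
      le_trans hL1' (mul_le_mul_of_nonneg_left e2 hL0.le)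
    rw [e1] at e3
    exact le_of_mul_le_mul_right e3 hx80
  have hL4 : (X : ℝ) ^ (1 / 4 : ℝ) ≤ L := by
    refine le_trans ?_ hL38
    rw [← h8']
    calc (X : ℝ) ^ (1 / 8 : ℝ) * (X : ℝ) ^ (1 / 8 : ℝ)
        = 1 * ((X : ℝ) ^ (1 / 8 : ℝ) * (X : ℝ) ^ (1 / 8 : ℝ)) := (one_mul _).symm
      _ ≤ _ := by gcongr
  have hLX : L ≤ X ^ 2 := by
    have : L ≤ L ^ 2 := by
      rcases Nat.eq_zero_or_pos L with h | h
      · simp [h]
      · nlinarith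
    have h' : X ≤ X ^ 2 := by nlinarith
    omega
  -- the model
  have hmod : ∀ x : ℕ, ‖ws (LamS z) β L x‖ ≤ 4 * L / ℓ ^ (A + 4) := by
    intro x
    have h := hX z hz hz2 x L (by simpa using hL4) hLX β a q hq0' (by exact_mod_cast hqL) hgcd hβ
    have e1 : (L : ℝ) / q * ℓ ^ C0 ≤ L / ℓ ^ (A + 4) := by
      rw [div_mul_eq_mul_div, div_le_div_iff₀ hq0 (hpp _)]
      calc (L : ℝ) * ℓ ^ C0 * ℓ ^ (A + 4) = L * ℓ ^ (C0 + (A + 4)) := by rw [pow_add]; ring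
        _ ≤ L * ℓ ^ D := mul_le_mul_of_nonneg_left (hp _ _ (by omega)) hL0.le
        _ ≤ L * q := by gcongr
    have e2 : (X : ℝ) ^ ((1 / 4 : ℝ) / 2) * ℓ ^ C0 ≤ L / ℓ ^ (A + 4) := by
      rw [le_div_iff₀ (hpp _)]
      have e3 : ((1 : ℝ) / 4) / 2 = 1 / 8 := by norm_num
      rw [e3]
      calc (X : ℝ) ^ (1 / 8 : ℝ) * ℓ ^ C0 * ℓ ^ (A + 4)
          = (X : ℝ) ^ (1 / 8 : ℝ) * ℓ ^ (C0 + (A + 4)) := by rw [pow_add]; ring
        _ ≤ (X : ℝ) ^ (1 / 8 : ℝ) * ((X : ℝ) ^ (1 / 8 : ℝ) * (X : ℝ) ^ (1 / 8 : ℝ)) := by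
            refine mul_le_mul_of_nonneg_left ?_ hx80.le
            calc ℓ ^ (C0 + (A + 4)) ≤ (X : ℝ) ^ (1 / 8 : ℝ) := le_trans (hp _ _ (by omega)) h8
              _ = (X : ℝ) ^ (1 / 8 : ℝ) * 1 := (mul_one _).symm
              _ ≤ _ := by gcongr
        _ ≤ L := hL38
    have e4 : (q : ℝ) * ℓ ^ C0 ≤ L / ℓ ^ (A + 4) := by
      rw [le_div_iff₀ (hpp _)]
      calc (q : ℝ) * ℓ ^ C0 * ℓ ^ (A + 4) = q * ℓ ^ (C0 + (A + 4)) := by rw [pow_add]; ring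
        _ ≤ q * ℓ ^ D := mul_le_mul_of_nonneg_left (hp _ _ (by omega)) hq0.le
        _ ≤ L := hq2'
    have e5 : ((L : ℝ) / q + (X : ℝ) ^ ((1 / 4 : ℝ) / 2) + q) * ℓ ^ C0 + L / ℓ ^ (A + 4) ≤
        4 * L / ℓ ^ (A + 4) := by
      have : 4 * (L : ℝ) / ℓ ^ (A + 4) = 4 * (L / ℓ ^ (A + 4)) := by ring
      rw [this, add_mul, add_mul]
      linarith
    exact le_trans h e5
  have hmod2 : ∀ x : ℕ, ‖ws (LamS z) β L x‖ ^ 2 ≤ 16 * (L : ℝ) ^ 2 / ℓ ^ (A + 4) := by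
    intro x
    calc ‖ws (LamS z) β L x‖ ^ 2 ≤ (4 * L / ℓ ^ (A + 4)) ^ 2 := by
          gcongr
          exact hmod x
      _ = 16 * (L : ℝ) ^ 2 / ℓ ^ (A + 4) * (1 / ℓ ^ (A + 4)) := by
          field_simp
          ring
      _ ≤ 16 * (L : ℝ) ^ 2 / ℓ ^ (A + 4) * 1 := by
          refine mul_le_mul_of_nonneg_left ?_ (by positivity)
          rw [div_le_one (hpp _)]
          exact one_le_pow₀ hℓ1
      _ = _ := mul_one _
  -- both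
  have hms := hB1 X L β a q hX1 hKX hXK hgcd hβ (le_trans (hp _ _ (by omega)) hq1)
    (le_trans (mul_le_mul_of_nonneg_left (hp _ _ (by omega)) hq0.le) hq2')
  have hterm : ∀ x : ℕ, ‖∑ n ∈ Ioc x (x + L), ((lam n - LamS z n : ℝ) : ℂ) * ee (β * n)‖ ^ 2 ≤
      2 * ‖ws lam β L x‖ ^ 2 + 32 * (L : ℝ) ^ 2 / ℓ ^ (A + 4) := by
    intro x
    rw [ws_sub]
    have h1 := norm_sub_le (ws lam β L x) (ws (LamS z) β L x)
    have h2 : ‖ws lam β L x - ws (LamS z) β L x‖ ^ 2 ≤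
        (‖ws lam β L x‖ + ‖ws (LamS z) β L x‖) ^ 2 := by gcongr
    have h3 := hmod2 x
    have h4 : 32 * (L : ℝ) ^ 2 / ℓ ^ (A + 4) = 2 * (16 * (L : ℝ) ^ 2 / ℓ ^ (A + 4)) := by ring
    nlinarith [sq_nonneg (‖ws lam β L x‖ - ‖ws (LamS z) β L x‖)]
  have hIcc : Icc X (2 * X) = insert X (Ioc X (2 * X)) := by
    ext n
    simp only [mem_Icc, mem_insert, mem_Ioc]
    omega
  rw [hIcc, Finset.sum_insert (by simp)]
  have hfirst : ‖∑ n ∈ Ioc X (X + L), ((lam n - LamS z n : ℝ) : ℂ) * ee (β * n)‖ ^ 2 ≤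
      2 * (L * (2 * ℓ)) ^ 2 + 32 * (L : ℝ) ^ 2 / ℓ ^ (A + 4) := by
    refine le_trans (hterm X) ?_
    have h1 := triv β L X
    have h2 : Real.log ((X : ℝ) + L) ≤ 2 * ℓ := by
      have h5 : (L : ℝ) ≤ X := by
        have : L ≤ X := by
          rcases Nat.eq_zero_or_pos L with h | h
          · simp [h]
          · nlinarith
        exact_mod_cast this
      have h6 : (2 : ℝ) ≤ X := by exact_mod_cast (by omega : 2 ≤ X)
      calc Real.log ((X : ℝ) + L) ≤ Real.log ((X : ℝ) ^ 2) := by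
            refine Real.log_le_log (by positivity) ?_
            nlinarith
        _ = 2 * ℓ := by rw [Real.log_pow]; push_cast; ring
    have h3 : ‖ws lam β L X‖ ≤ L * (2 * ℓ) :=
      le_trans h1 (mul_le_mul_of_nonneg_left h2 hL0.le)
    have h4 : ‖ws lam β L X‖ ^ 2 ≤ (L * (2 * ℓ)) ^ 2 := by gcongr
    linarith
  have hsum : ∑ x ∈ Ioc X (2 * X), ‖∑ n ∈ Ioc x (x + L), ((lam n - LamS z n : ℝ) : ℂ) *
      ee (β * n)‖ ^ 2 ≤ 2 * ((L : ℝ) ^ 2 * X / ℓ ^ (A + 4)) + X * (32 * (L : ℝ) ^ 2 / ℓ ^ (A + 4)) := by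
    calc _ ≤ ∑ x ∈ Ioc X (2 * X), (2 * ‖ws lam β L x‖ ^ 2 + 32 * (L : ℝ) ^ 2 / ℓ ^ (A + 4)) :=
          Finset.sum_le_sum fun x _ => hterm x
      _ = 2 * ms lam β L X + X * (32 * (L : ℝ) ^ 2 / ℓ ^ (A + 4)) := by
          rw [Finset.sum_add_distrib, ← Finset.mul_sum, Finset.sum_const, Nat.card_Ioc, nsmul_eq_mul]
          unfold ms
          congr 3
          omega
      _ ≤ _ := by linarith
  -- end
  have hX8 : ℓ ^ (A + 8) ≤ X := by simpa using h1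
  have hL20 : (0 : ℝ) < (L : ℝ) ^ 2 := by positivity
  have e1 : 2 * (L * (2 * ℓ)) ^ 2 ≤ X * (L : ℝ) ^ 2 / ℓ ^ A * (8 / ℓ ^ 6) := by
    rw [div_mul_div_comm, le_div_iff₀ (by positivity)]
    calc 2 * (L * (2 * ℓ)) ^ 2 * (ℓ ^ A * ℓ ^ 6) = 8 * (L : ℝ) ^ 2 * ℓ ^ (A + 8) := by
          rw [show A + 8 = A + 6 + 2 by ring, pow_add, pow_add]; ring
      _ ≤ 8 * (L : ℝ) ^ 2 * X := by gcongr
      _ = X * (L : ℝ) ^ 2 * 8 := by ring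
  have e2 : 32 * (L : ℝ) ^ 2 / ℓ ^ (A + 4) ≤ X * (L : ℝ) ^ 2 / ℓ ^ A * (32 / ℓ ^ 4) := by
    rw [div_mul_div_comm, div_le_div_iff₀ (by positivity) (by positivity)]
    have h6 : (1 : ℝ) ≤ X := by exact_mod_cast (by omega : 1 ≤ X)
    calc 32 * (L : ℝ) ^ 2 * (ℓ ^ A * ℓ ^ 4) = 1 * (L : ℝ) ^ 2 * 32 * ℓ ^ (A + 4) := by
          rw [pow_add]; ring
      _ ≤ X * (L : ℝ) ^ 2 * 32 * ℓ ^ (A + 4) := by gcongr
  have e3 : 2 * ((L : ℝ) ^ 2 * X / ℓ ^ (A + 4)) + X * (32 * (L : ℝ) ^ 2 / ℓ ^ (A + 4)) =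
      X * (L : ℝ) ^ 2 / ℓ ^ A * (34 / ℓ ^ 4) := by
    rw [pow_add]
    field_simp
    ring
  have e4 : 8 / ℓ ^ 6 + 32 / ℓ ^ 4 + 34 / ℓ ^ 4 ≤ 1 := by
    have h5 : (100 : ℝ) ^ 4 ≤ ℓ ^ 4 := by gcongr
    have h6 : (100 : ℝ) ^ 6 ≤ ℓ ^ 6 := by gcongr
    have h7 : 8 / ℓ ^ 6 ≤ 8 / 100 ^ 6 := by gcongr
    have h8 : 32 / ℓ ^ 4 ≤ 32 / 100 ^ 4 := by gcongr
    have h9 : 34 / ℓ ^ 4 ≤ 34 / 100 ^ 4 := by gcongr
    have : (8 : ℝ) / 100 ^ 6 + 32 / 100 ^ 4 + 34 / 100 ^ 4 ≤ 1 := by norm_num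
    linarith
  have hM : 0 ≤ X * (L : ℝ) ^ 2 / ℓ ^ A := by positivity
  calc _ ≤ (2 * (L * (2 * ℓ)) ^ 2 + 32 * (L : ℝ) ^ 2 / ℓ ^ (A + 4)) +
        (2 * ((L : ℝ) ^ 2 * X / ℓ ^ (A + 4)) + X * (32 * (L : ℝ) ^ 2 / ℓ ^ (A + 4))) :=
        add_le_add hfirst hsum
    _ ≤ X * (L : ℝ) ^ 2 / ℓ ^ A * (8 / ℓ ^ 6) + X * (L : ℝ) ^ 2 / ℓ ^ A * (32 / ℓ ^ 4) +
        X * (L : ℝ) ^ 2 / ℓ ^ A * (34 / ℓ ^ 4) := by
        rw [e3]
        linarith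
    _ = X * (L : ℝ) ^ 2 / ℓ ^ A * (8 / ℓ ^ 6 + 32 / ℓ ^ 4 + 34 / ℓ ^ 4) := by ring
    _ ≤ X * (L : ℝ) ^ 2 / ℓ ^ A * 1 := mul_le_mul_of_nonneg_left e4 hM
    _ = X * (L : ℝ) ^ 2 / ℓ ^ A := mul_one _

end Pool.Agent.LMS
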