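import Pool.Agent.LMS.St

/-!
# LMS, module Tri: Cauchy and Schwarz over the pieces
-/

set_option autoImplicit false

namespace Pool.Agent.LMS

open Finset
open Pool.Agent.GBQ (ee nd gm lam LamS rho pr Rough)
open Pool.Agent.SI (fac cof siz)

private theorem Tri_lin {ι : Type} (L : Finset ι) (a : ι → ℝ) (c : ι → ℕ → ℝ) (α : ℝ) (K x : ℕ) :
    ws (fun n => ∑ l ∈ L, a l * c l n) α K x = ∑ l ∈ L, (a l : ℂ) * ws (c l) α K x := by
  unfold ws
  simp only [mul_sum]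
  rw [sum_comm]
  refine sum_congr rfl fun n _ => ?_
  rw [Complex.ofReal_sum, sum_mul]
  refine sum_congr rfl fun l _ => ?_
  rw [Complex.ofReal_mul]
  ring

private theorem Tri_sq {ι : Type} (L : Finset ι) (a : ι → ℝ) (w : ι → ℂ) :
    ‖∑ l ∈ L, (a l : ℂ) * w l‖ ^ 2 ≤ L.card * ∑ l ∈ L, a l ^ 2 * ‖w l‖ ^ 2 := by
  have h1 : ‖∑ l ∈ L, (a l : ℂ) * w l‖ ≤ ∑ l ∈ L, ‖(a l : ℂ) * w l‖ := norm_sum_le _ _
  have h2 : ‖∑ l ∈ L, (a l : ℂ) * w l‖ ^ 2 ≤ (∑ l ∈ L, ‖(a l : ℂ) * w l‖) ^ 2 :=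
    pow_le_pow_left₀ (norm_nonneg _) h1 2
  refine h2.trans (sq_sum_le_card_mul_sum_sq.trans (le_of_eq ?_))
  congr 1
  refine sum_congr rfl fun l _ => ?_
  rw [norm_mul, Complex.norm_real, mul_pow, Real.norm_eq_abs, sq_abs]

theorem thm_Tri : St_Tri := by
  refine ⟨?_, ?_⟩
  · intro ι L a c α K X
    have h1 : ms (fun n => ∑ l ∈ L, a l * c l n) α K X ≤
        ∑ x ∈ Ioc X (2 * X), (L.card : ℝ) * ∑ l ∈ L, a l ^ 2 * ‖ws (c l) α K x‖ ^ 2 := by
      unfold ms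
      refine sum_le_sum fun x _ => ?_
      rw [Tri_lin]
      exact Tri_sq L a fun l => ws (c l) α K x
    refine h1.trans (le_of_eq ?_)
    rw [← mul_sum, sum_comm]
    congr 1
    refine sum_congr rfl fun l _ => ?_
    unfold ms
    rw [mul_sum]
  · intro c c' α K X h
    unfold ms ws
    refine sum_congr rfl fun x hx => ?_
    rw [mem_Ioc] at hx
    congr 2
    refine sum_congr rfl fun n hn => ?_
    rw [mem_Ioc] at hn
    rw [h n (by omega) (by omega)]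

end Pool.Agent.LMS
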